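import Pool.Agent.H90.Frc.Names

/-!
# The generic structure is a model of ZFC
-/

set_option autoImplicit false

namespace Pool.Agent.H90.Frc

open Ordinal

variable {P : Type} [PartialOrder P]

/-! ### Separation -/

/-- The name of a subset of `τ`. -/
def sepN (τ : Name P) (Q : τ.idx → P → Prop) : Name P :=
  .mk {z : τ.idx × P // z.2 ≤ τ.r z.1 ∧ Q z.1 z.2} (fun z => τ.A z.1.1) (fun z => z.1.2)

variable {g : Gen P}

theorem den_sepN {τ : Name P} {Q : τ.idx → P → Prop} {b : g.M} (hb : g.Den (sepN τ Q) b)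
    (z : g.M) : g.E z b ↔ ∃ i, ∃ r ∈ g.G, r ≤ τ.r i ∧ Q i r ∧ g.Den (τ.A i) z := by
  rw [Gen.mem_iff hb]
  constructor
  · rintro ⟨⟨⟨i, r⟩, h1, h2⟩, hr, hz⟩
    exact ⟨i, r, hr, h1, h2, hz⟩
  · rintro ⟨i, r, hr, h1, h2, hz⟩
    exact ⟨⟨⟨i, r⟩, h1, h2⟩, hr, hz⟩

theorem Gen.ext_den {n : ℕ} {v : Fin n → Name P} {c : Fin n → g.M}
    (hc : ∀ i, g.Den (v i) (c i)) {σ : Name P} {a : g.M} (ha : g.Den σ a) :
    ∀ i, g.Den (ext v σ i) (ext c a i) := by
  intro i
  refine Fin.lastCases ?_ (fun j => ?_) i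
  · simpa using ha
  · simpa using hc j

theorem sepN_spec {n : ℕ} {τ : Name P} {v : Fin n → Name P} {R : Pred (n + 1)} (hR : Dfn R)
    {a b : g.M} {c : Fin n → g.M} (ha : g.Den τ a)
    (hb : g.Den (sepN τ (fun i r => Fc r (ext v (τ.A i)) R)) b) (hc : ∀ i, g.Den (v i) (c i))
    (z : g.M) : g.E z b ↔ g.E z a ∧ R g.M g.E (ext c z) := by
  rw [den_sepN hb]
  constructor
  · rintro ⟨i, r, hr, h1, h2, hz⟩
    exact ⟨(Gen.mem_iff ha).2 ⟨i, g.up r hr _ h1, hz⟩, h2 g hr _ (Gen.ext_den hc hz)⟩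
  · rintro ⟨h1, h2⟩
    obtain ⟨i, hi, hz⟩ := (Gen.mem_iff ha).1 h1
    obtain ⟨p, hp, hf⟩ := (Fc.truth hR (Gen.ext_den hc hz)).1 h2
    obtain ⟨r, hr, h3, h4⟩ := g.dir _ hi p hp
    exact ⟨i, r, hr, h3, hf.mono h4, hz⟩

theorem Dfn.comp {n m : ℕ} {R : Pred n} (hR : Dfn R) (f : Fin n → Fin m) {S : Pred m}
    (h : ∀ (M : Type) (E : M → M → Prop) w, S M E w ↔ R M E (fun i => w (f i))) : Dfn S :=
  (hR.rename f).congr fun M E w => h M E w

variable [OrderTop P]

theorem Gen.separation {n : ℕ} {R : Pred (n + 1)} (hR : Dfn R) (c : Fin n → g.M) (a : g.M) :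
    ∃ b, ∀ z, g.E z b ↔ g.E z a ∧ R g.M g.E (ext c z) := by
  obtain ⟨τ, ha⟩ := g.exists_den a
  have : ∀ i, ∃ σ, g.Den σ (c i) := fun i => g.exists_den (c i)
  choose v hv using this
  have hD : Dfn (n := n + 2) (fun M E w => ∀ z, E z (w (Fin.last _)) ↔
      E z (w (Fin.last n).castSucc) ∧ R M E (ext (fun i => w i.castSucc.castSucc) z)) := by
    refine .all (.iff (.mem _ _) (.and (.mem _ _) (hR.comp
      (ext (fun i => i.castSucc.castSucc.castSucc) (Fin.last _)) ?_)))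
    intro M E w
    rw [ext_comp]
  obtain ⟨b, hb⟩ := Gen.exists_of_fc (Gen.ext_den hv ha) hD g.top_mem
    (sepN τ (fun i r => Fc r (ext v (τ.A i)) R)) (by
      intro g' _ w hw z
      have h1 : g'.Den τ (w (Fin.last n).castSucc) := by simpa using hw (Fin.last n).castSucc
      have h2 := hw (Fin.last (n + 1))
      rw [ext_last] at h2
      exact sepN_spec hR h1 h2 (fun i => by simpa using hw i.castSucc.castSucc) z)
  refine ⟨b, fun z => ?_⟩
  have := hb z
  simpa using this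

theorem Gen.collection {n : ℕ} {R : Pred (n + 2)} (hR : Dfn R) (c : Fin n → g.M) (a : g.M) :
    ∃ B, ∀ x, g.E x a → (∃ y, R g.M g.E (ext (ext c x) y)) →
      ∃ y, g.E y B ∧ R g.M g.E (ext (ext c x) y) := by
  obtain ⟨τ, ha⟩ := g.exists_den a
  have : ∀ i, ∃ σ, g.Den σ (c i) := fun i => g.exists_den (c i)
  choose v hv using this
  have hJ : ∀ z : {z : τ.idx × P // z.2 ≤ τ.r z.1 ∧ ∃ σ, Fc z.2 (ext (ext v (τ.A z.1)) σ) R},
      ∃ σ, Fc z.1.2 (ext (ext v (τ.A z.1.1)) σ) R := fun z => z.2.2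
  choose σ hσ using hJ
  have hD : Dfn (n := n + 2) (fun M E w => ∀ x, E x (w (Fin.last n).castSucc) →
      (∃ y, R M E (ext (ext (fun i => w i.castSucc.castSucc) x) y)) →
      ∃ y, E y (w (Fin.last _)) ∧ R M E (ext (ext (fun i => w i.castSucc.castSucc) x) y)) := by
    refine .all (.imp (.mem _ _) (.imp (.ex (hR.comp (ext (ext
      (fun i => i.castSucc.castSucc.castSucc.castSucc) (Fin.last _).castSucc) (Fin.last _)) ?_))
      (.ex (.and (.mem _ _) (hR.comp (ext (ext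
      (fun i => i.castSucc.castSucc.castSucc.castSucc) (Fin.last _).castSucc) (Fin.last _)) ?_)))))
    · intro M E w
      rw [ext_comp, ext_comp]
    · intro M E w
      rw [ext_comp, ext_comp]
  obtain ⟨B, hB⟩ := Gen.exists_of_fc (Gen.ext_den hv ha) hD g.top_mem
    (.mk _ σ (fun z => z.1.2)) (by
      intro g' _ w hw x hx hy
      have h1 : g'.Den τ (w (Fin.last n).castSucc) := by simpa using hw (Fin.last n).castSucc
      have h2 := hw (Fin.last (n + 1))
      rw [ext_last] at h2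
      have h3 : ∀ i, g'.Den (v i) (w i.castSucc.castSucc) := fun i => by
        simpa using hw i.castSucc.castSucc
      obtain ⟨i, hi, hxi⟩ := (Gen.mem_iff h1).1 hx
      obtain ⟨y, hy⟩ := hy
      obtain ⟨ρ, hρ⟩ := g'.exists_den y
      obtain ⟨p, hp, hf⟩ := (Fc.truth hR (Gen.ext_den (Gen.ext_den h3 hxi) hρ)).1 hy
      obtain ⟨q, hq, h4, h5⟩ := g'.dir _ hi p hp
      have hz := hσ ⟨(i, q), h4, ρ, hf.mono h5⟩
      have hD2 : Dfn (n := n + 3) (fun M E w => E (w (Fin.last _)) (w (Fin.last _).castSucc) ∧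
          R M E (ext (ext (fun i => w i.castSucc.castSucc.castSucc)
            (w (Fin.last _).castSucc.castSucc)) (w (Fin.last _)))) := by
        refine .and (.mem _ _) (hR.comp (ext (ext
          (fun i => i.castSucc.castSucc.castSucc) (Fin.last _).castSucc.castSucc)
            (Fin.last _)) ?_)
        intro M E w
        rw [ext_comp, ext_comp]
      obtain ⟨y', hy'⟩ := Gen.exists_of_fc (Gen.ext_den (Gen.ext_den h3 hxi) h2) hD2 hq
        (σ ⟨(i, q), h4, ρ, hf.mono h5⟩) (by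
          intro g'' hg'' u hu
          have e1 := hu (Fin.last (n + 2))
          rw [ext_last] at e1
          have e2 := hu (Fin.last (n + 1)).castSucc
          rw [ext_castSucc, ext_last] at e2
          have e3 := hu (Fin.last n).castSucc.castSucc
          rw [ext_castSucc, ext_castSucc, ext_last] at e3
          have e4 : ∀ i, g''.Den (v i) (u i.castSucc.castSucc.castSucc) := fun i => by
            simpa using hu i.castSucc.castSucc.castSucc
          refine ⟨(Gen.mem_iff e2).2 ⟨⟨(i, q), h4, ρ, hf.mono h5⟩, hg'', e1⟩, ?_⟩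
          exact hz g'' hg'' _ (Gen.ext_den (Gen.ext_den e4 e3) e1))
      simp only [ext_last, ext_castSucc] at hy'
      exact ⟨y', hy'⟩)
  refine ⟨B, fun x hx hy => ?_⟩
  have := hB x
  simp only [ext_last, ext_castSucc] at this
  exact this hx hy

/-! ### Union, power set, infinity -/

/-- name of the union -/
def unionN (τ : Name P) : Name P :=
  .mk (Σ i : τ.idx, Σ j : (τ.A i).idx, {r : P // r ≤ τ.r i ∧ r ≤ (τ.A i).r j})
    (fun z => (τ.A z.1).A z.2.1) (fun z => z.2.2.1)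

theorem Gen.union (a : g.M) : ∃ b, ∀ z, g.E z b ↔ ∃ y, g.E y a ∧ g.E z y := by
  obtain ⟨τ, ha⟩ := g.exists_den a
  have hD : Dfn (n := 2) (fun _ E w => ∀ z, E z (w 1) ↔ ∃ y, E y (w 0) ∧ E z y) :=
    .all (.iff (.mem _ _) (.ex (.and (.mem _ _) (.mem _ _))))
  obtain ⟨b, hb⟩ := Gen.exists_of_fc (v := ![τ]) (a := ![a]) (by intro i; fin_cases i; exact ha)
    hD g.top_mem (unionN τ) (by
      intro g' _ w hw z
      have h0 : g'.Den τ (w 0) := hw 0
      have h1 : g'.Den (unionN τ) (w 1) := hw 1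
      rw [Gen.mem_iff h1]
      constructor
      · rintro ⟨⟨i, j, r, hr1, hr2⟩, hr, hz⟩
        obtain ⟨y, hy⟩ := Gen.exists_of_fc (v := ![τ, (τ.A i).A j]) (a := ![w 0, z])
          (by intro i; fin_cases i; exacts [h0, hz])
          (R := fun _ E w => E (w 2) (w 0) ∧ E (w 1) (w 2)) ((Dfn.mem 2 0).and (.mem 1 2)) hr
          (τ.A i) (by
            intro g'' hg'' u hu
            exact ⟨(Gen.mem_iff (hu 0)).2 ⟨i, g''.up r hg'' _ hr1, hu 2⟩,
              (Gen.mem_iff (hu 2)).2 ⟨j, g''.up r hg'' _ hr2, hu 1⟩⟩)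
        rw [ext_vec2] at hy
        exact ⟨y, hy⟩
      · rintro ⟨y, hy, hzy⟩
        obtain ⟨i, hi, hyi⟩ := (Gen.mem_iff h0).1 hy
        obtain ⟨j, hj, hzj⟩ := (Gen.mem_iff hyi).1 hzy
        obtain ⟨r, hr, h2, h3⟩ := g'.dir _ hi _ hj
        exact ⟨⟨i, j, r, h2, h3⟩, hr, hzj⟩)
  rw [ext_vec1] at hb
  exact ⟨b, hb⟩

/-- name of the power set -/
def powN (τ : Name P) : Name P :=
  .mk (Set (τ.idx × P)) (fun S => sepN τ (fun i r => (i, r) ∈ S)) (fun _ => ⊤)

theorem powN_A (τ : Name P) (S : Set (τ.idx × P)) :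
    (powN τ).A S = sepN τ (fun i r => (i, r) ∈ S) := rfl

theorem Gen.power (a : g.M) : ∃ b, ∀ z, g.E z b ↔ ∀ w, g.E w z → g.E w a := by
  obtain ⟨τ, ha⟩ := g.exists_den a
  have hD : Dfn (n := 2) (fun _ E w => ∀ z, E z (w 1) ↔ IsSub E z (w 0)) :=
    .all (.iff (.mem _ _) (dfn_isSub _ _))
  obtain ⟨b, hb⟩ := Gen.exists_of_fc (v := ![τ]) (a := ![a]) (by intro i; fin_cases i; exact ha)
    hD g.top_mem (powN τ) (by
      intro g' _ w hw z
      have h0 : g'.Den τ (w 0) := hw 0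
      have h1 : g'.Den (powN τ) (w 1) := hw 1
      constructor
      · intro hz u hu
        obtain ⟨S, -, hS⟩ := (Gen.mem_iff h1).1 hz
        rw [powN_A τ S] at hS
        obtain ⟨i, r, hr, h2, -, h3⟩ := (den_sepN hS u).1 hu
        exact (Gen.mem_iff h0).2 ⟨i, g'.up r hr _ h2, h3⟩
      · intro hz
        obtain ⟨ζ, hζ⟩ := g'.exists_den z
        have hv : ∀ i, g'.Den (![ζ, powN τ, τ] i) (![z, w 1, w 0] i) := by
          intro i; fin_cases i; exacts [hζ, h1, h0]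
        obtain ⟨p, hp, hf⟩ := (Fc.truth (dfn_isSub (n := 3) 0 2) hv).1 hz
        obtain ⟨y, hy⟩ := Gen.exists_of_fc hv
          (R := fun _ E w => w 3 = w 0 ∧ E (w 3) (w 1)) ((Dfn.eq 3 0).and (.mem 3 1)) hp
          (sepN τ (fun i r => (i, r) ∈ {z : τ.idx × P | Fc z.2 ![ζ, τ.A z.1]
            (fun _ E w => E (w 1) (w 0))})) (by
            intro g'' hg'' u hu
            have e0 : g''.Den ζ (u 0) := hu 0
            have e1 : g''.Den (powN τ) (u 1) := hu 1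
            have e2 : g''.Den τ (u 2) := hu 2
            have e3 : g''.Den (sepN τ (fun i r => (i, r) ∈ {z : τ.idx × P | Fc z.2 ![ζ, τ.A z.1]
              (fun _ E w => E (w 1) (w 0))})) (u 3) := hu 3
            have hsub : IsSub g''.E (u 0) (u 2) :=
              hf g'' hg'' ![u 0, u 1, u 2] (by intro i; fin_cases i; exacts [e0, e1, e2])
            refine ⟨Gen.extensional fun x => ?_, (Gen.mem_iff e1).2 ⟨_, g''.top_mem, e3⟩⟩
            rw [den_sepN e3]
            constructor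
            · rintro ⟨i, r, hr, h2, h3, h4⟩
              exact h3 g'' hr ![u 0, x] (by intro i; fin_cases i; exacts [e0, h4])
            · intro hx
              obtain ⟨i, hi, hxi⟩ := (Gen.mem_iff e2).1 (hsub x hx)
              obtain ⟨q, hq, hfq⟩ := (Fc.truth (v := ![ζ, τ.A i]) (a := ![u 0, x])
                (Dfn.mem (n := 2) 1 0) (by intro i; fin_cases i; exacts [e0, hxi])).1 hx
              obtain ⟨r, hr, h5, h6⟩ := g''.dir _ hi _ hq
              exact ⟨i, r, hr, h5, hfq.mono h6, hxi⟩)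
        rw [ext_vec3] at hy
        obtain ⟨hy1, hy2⟩ := hy
        change y = z at hy1
        rw [← hy1]
        exact hy2)
  rw [ext_vec1] at hb
  exact ⟨b, hb⟩

theorem Gen.exists_onN (α : Ordinal.{0}) {R : Pred 1} (hR : Dfn R)
    (h : ∀ (g : Gen P) (a : g.M), g.Den (onN P α) a → R g.M g.E ![a]) (g : Gen P) :
    ∃ a, R g.M g.E ![a] := by
  obtain ⟨b, hb⟩ := Gen.exists_of_fc (g := g) (v := ![]) (a := ![]) (fun i => i.elim0)
    hR g.top_mem (onN P α) (by
      intro g' _ w hw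
      have := h g' (w 0) (hw 0)
      convert this using 1
      funext i; fin_cases i; rfl)
  rw [ext_vec0] at hb
  exact ⟨b, hb⟩

theorem Gen.infinity (g : Gen P) : ∃ a, (∃ z, g.E z a ∧ ∀ w, ¬ g.E w z) ∧
    ∀ z, g.E z a → ∃ s, g.E s a ∧ ∀ w, g.E w s ↔ g.E w z ∨ w = z := by
  refine Gen.exists_onN ω (R := fun M E v => (∃ z, E z (v 0) ∧ ∀ w, ¬ E w z) ∧
    ∀ z, E z (v 0) → ∃ s, E s (v 0) ∧ ∀ w, E w s ↔ E w z ∨ w = z)
    (.and (.ex (.and (.mem _ _) (.all (.not (.mem _ _)))))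
      (.all (.imp (.mem _ _) (.ex (.and (.mem _ _)
        (.all (.iff (.mem _ _) (.or (.mem _ _) (.eq _ _))))))))) ?_ g
  intro g a h
  constructor
  · obtain ⟨b, hb⟩ := exists_den_nat h 0
    refine ⟨b, (den_onN h b).2 ⟨_, natCast_lt_omega0 0, hb⟩, fun z hz => ?_⟩
    rw [den_onN hb] at hz
    obtain ⟨β, hβ, -⟩ := hz
    simp at hβ
  · intro z hz
    obtain ⟨γ, hγ, hγx⟩ := (den_onN h z).1 hz
    obtain ⟨n, rfl⟩ := lt_omega0.1 hγ
    obtain ⟨b, hb⟩ := exists_den_nat h (n + 1)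
    exact ⟨b, (den_onN h b).2 ⟨_, natCast_lt_omega0 _, hb⟩, onN_succ hγx hb⟩

/-! ### Choice -/

/-- every set is covered by the image of an ordinal under a functional relation -/
theorem Gen.exists_enum (u : g.M) : ∃ d F : g.M,
    (∀ x y, g.E x d → g.E y d → x = y ∨ g.E x y ∨ g.E y x) ∧
    (∀ x y, g.E x d → g.E y x → g.E y d) ∧
    (∀ x y y', Rel g.E F x y → Rel g.E F x y' → y = y') ∧
    (∀ y, g.E y u → ∃ x, g.E x d ∧ Rel g.E F x y) := by
  obtain ⟨υ, hu⟩ := g.exists_den u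
  have he : Nonempty (υ.idx ≃ (Cardinal.mk υ.idx).ord.ToType) := by
    rw [← Cardinal.eq, Cardinal.mk_ord_toType]
  obtain ⟨e⟩ := he
  have hD : Dfn (n := 3) (fun _ E w =>
      (∀ x y, E x (w 1) → E y (w 1) → x = y ∨ E x y ∨ E y x) ∧
      (∀ x y, E x (w 1) → E y x → E y (w 1)) ∧
      (∀ x y y', Rel E (w 2) x y → Rel E (w 2) x y' → y = y') ∧
      (∀ y, E y (w 0) → ∃ x, E x (w 1) ∧ Rel E (w 2) x y)) :=
    .and (.all (.all (.imp (.mem _ _) (.imp (.mem _ _) (.or (.eq _ _)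
      (.or (.mem _ _) (.mem _ _))))))) (.and (.all (.all (.imp (.mem _ _) (.imp (.mem _ _)
      (.mem _ _))))) (.and (.all (.all (.all (.imp (dfn_rel _ _ _) (.imp (dfn_rel _ _ _)
      (.eq _ _)))))) (.all (.imp (.mem _ _) (.ex (.and (.mem _ _) (dfn_rel _ _ _)))))))
  have hD' : Dfn (n := 2) (fun M E w => ∃ F, (fun (M : Type) (E : M → M → Prop) (w : Fin 3 → M) =>
      (∀ x y, E x (w 1) → E y (w 1) → x = y ∨ E x y ∨ E y x) ∧
      (∀ x y, E x (w 1) → E y x → E y (w 1)) ∧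
      (∀ x y y', Rel E (w 2) x y → Rel E (w 2) x y' → y = y') ∧
      (∀ y, E y (w 0) → ∃ x, E x (w 1) ∧ Rel E (w 2) x y)) M E (ext w F)) := by
    obtain ⟨φ, hφ⟩ := hD
    refine ⟨.neg (.all (.neg φ)), fun M E v => ?_⟩
    simp only [Sat, hφ]
    push Not
    rfl
  obtain ⟨d, hd⟩ := Gen.exists_of_fc (v := ![υ]) (a := ![u]) (by intro i; fin_cases i; exact hu)
    hD' g.top_mem (onN P (Cardinal.mk υ.idx).ord) (by
      intro g' hg' w hw
      refine Gen.exists_of_fc (v := ![υ, onN P (Cardinal.mk υ.idx).ord]) (a := w)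
        (by rw [← ext_vec1]; exact hw) hD hg' (relN (fun i => onN P (e i).toOrd.1) υ.A υ.r) ?_
      intro g'' _ x hx
      have e0 : g''.Den υ (x 0) := hx 0
      have e1 : g''.Den (onN P (Cardinal.mk υ.idx).ord) (x 1) := hx 1
      have e2 : g''.Den (relN (fun i => onN P (e i).toOrd.1) υ.A υ.r) (x 2) := hx 2
      refine ⟨?_, ?_, ?_, ?_⟩
      · intro s t hs ht
        obtain ⟨α, -, hα⟩ := (den_onN e1 s).1 hs
        obtain ⟨β, -, hβ⟩ := (den_onN e1 t).1 ht
        rcases lt_trichotomy α β with h | h | h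
        · exact Or.inr (Or.inl ((onN_mem_iff hα hβ).2 h))
        · rw [h] at hα
          exact Or.inl (hα.unique hβ)
        · exact Or.inr (Or.inr ((onN_mem_iff hβ hα).2 h))
      · intro s t hs ht
        exact (onN_isOrd e1).1 s hs t ht
      · intro s t t' ht ht'
        obtain ⟨i, hi, h1, h2⟩ := (den_relN e2 s t).1 ht
        obtain ⟨j, hj, h3, h4⟩ := (den_relN e2 s t').1 ht'
        have h5 : ((e i).toOrd : Ordinal) = (e j).toOrd := onN_inj h1 h3
        have h6 : e i = e j := by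
          have := Subtype.ext h5
          simpa [ToType.toOrd] using this
        have h7 : i = j := e.injective h6
        subst h7
        exact h2.unique h4
      · intro t ht
        obtain ⟨i, hi, hti⟩ := (Gen.mem_iff e0).1 ht
        obtain ⟨y, hy⟩ := Gen.exists_of_fc (v := ![onN P (Cardinal.mk υ.idx).ord,
            relN (fun i => onN P (e i).toOrd.1) υ.A υ.r, υ.A i]) (a := ![x 1, x 2, t])
          (by intro i; fin_cases i; exacts [e1, e2, hti])
          (R := fun _ E w => E (w 3) (w 0) ∧ Rel E (w 1) (w 3) (w 2))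
          ((Dfn.mem 3 0).and (dfn_rel 1 3 2)) hi (onN P (e i).toOrd.1) (by
            intro g3 hg3 z hz
            exact ⟨(den_onN (hz 0) _).2 ⟨_, (e i).toOrd.2, hz 3⟩,
              (den_relN (hz 1) _ _).2 ⟨i, hg3, hz 3, hz 2⟩⟩)
        rw [ext_vec3] at hy
        exact ⟨y, hy⟩)
  obtain ⟨F, hF⟩ := hd
  rw [ext_vec1, ext_vec2] at hF
  exact ⟨d, F, hF⟩

theorem Gen.choice (a : g.M) (h1 : ∀ x, g.E x a → ∃ z, g.E z x)
    (h2 : ∀ x y, g.E x a → g.E y a → x ≠ y → ¬ ∃ z, g.E z x ∧ g.E z y) :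
    ∃ c, ∀ x, g.E x a → ∃! z, g.E z x ∧ g.E z c := by
  obtain ⟨u, hu⟩ := Gen.union a
  obtain ⟨d, F, hd1, hd2, hF1, hF2⟩ := Gen.exists_enum u
  have hD : Dfn (n := 4) (fun _ E w => ∃ x, E x (w 0) ∧ E (w 3) x ∧ ∃ ξ, E ξ (w 1) ∧
      Rel E (w 2) ξ (w 3) ∧ ∀ η, E η ξ → ∀ z', Rel E (w 2) η z' → ¬ E z' x) :=
    .ex (.and (.mem _ _) (.and (.mem _ _) (.ex (.and (.mem _ _) (.and (dfn_rel _ _ _)
      (.all (.imp (.mem _ _) (.all (.imp (dfn_rel _ _ _) (.not (.mem _ _)))))))))))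
  obtain ⟨c, hc⟩ := Gen.separation hD ![a, d, F] u
  refine ⟨c, fun x hx => ?_⟩
  have hc' : ∀ z, g.E z c ↔ g.E z u ∧ ∃ x, g.E x a ∧ g.E z x ∧ ∃ ξ, g.E ξ d ∧
      Rel g.E F ξ z ∧ ∀ η, g.E η ξ → ∀ z', Rel g.E F η z' → ¬ g.E z' x := by
    intro z
    have := hc z
    rw [ext_vec3] at this
    exact this
  have hne : ∃ ξ, g.E ξ d ∧ ∃ z, g.E z x ∧ Rel g.E F ξ z := by
    obtain ⟨z, hz⟩ := h1 x hx
    obtain ⟨ξ, hξ, hξz⟩ := hF2 z ((hu z).2 ⟨x, hx, hz⟩)
    exact ⟨ξ, hξ, z, hz, hξz⟩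
  obtain ⟨ξ, ⟨hξd, z, hzx, hξz⟩, hmin⟩ := g.wf_E.has_min
    {ξ | g.E ξ d ∧ ∃ z, g.E z x ∧ Rel g.E F ξ z} hne
  have hmin' : ∀ η, g.E η ξ → ∀ z', Rel g.E F η z' → ¬ g.E z' x := by
    intro η hη z' hz' hz'x
    exact hmin η ⟨hd2 ξ η hξd hη, z', hz'x, hz'⟩ hη
  refine ⟨z, ⟨hzx, (hc' z).2 ⟨(hu z).2 ⟨x, hx, hzx⟩, x, hx, hzx, ξ, hξd, hξz, hmin'⟩⟩, ?_⟩
  rintro z' ⟨hz'x, hz'c⟩
  obtain ⟨-, x', hx', hz'x', ξ', hξ'd, hξ'z', hmin''⟩ := (hc' z').1 hz'c
  have hxx : x = x' := by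
    by_contra hne
    exact h2 x x' hx hx' hne ⟨z', hz'x, hz'x'⟩
  subst hxx
  rcases hd1 ξ ξ' hξd hξ'd with h | h | h
  · subst h
    exact hF1 ξ z' z hξ'z' hξz
  · exact absurd hzx (hmin'' ξ h z hξz)
  · exact absurd hz'x (hmin' ξ' h z' hξ'z')

/-- The generic structure is a model of ZFC. -/
theorem Gen.zfc (g : Gen P) : ZFC g.E where
  extensionality _ _ h := Gen.extensional h
  foundation a h := by
    obtain ⟨z, hz, hmin⟩ := g.wf_E.has_min {z | g.E z a} h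
    exact ⟨z, hz, fun w hw hwa => hmin w hwa hw⟩
  pairing a b := Gen.exists_isPair a b
  union a := Gen.union a
  power a := Gen.power a
  infinity := g.infinity
  separation φ v a := Gen.separation (Dfn.of_fml φ) v a
  replacement {n} φ v a h := by
    obtain ⟨B, hB⟩ := Gen.collection (Dfn.of_fml φ) v a
    have hD : Dfn (n := n + 1 + 1) (fun M E w => ∃ x, E x (w (Fin.last n).castSucc) ∧
        Sat E φ (ext (ext (fun i => w i.castSucc.castSucc) x) (w (Fin.last _)))) := by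
      refine .ex (.and (.mem _ _) ((Dfn.of_fml φ).comp (ext (ext
        (fun i => i.castSucc.castSucc.castSucc) (Fin.last _)) (Fin.last _).castSucc) ?_))
      intro M E w
      rw [ext_comp, ext_comp]
    obtain ⟨b, hb⟩ := Gen.separation hD (ext v a) B
    refine ⟨b, fun y => ?_⟩
    rw [hb y]
    simp only [ext_last, ext_castSucc]
    constructor
    · rintro ⟨-, h⟩
      exact h
    · rintro ⟨x, hx, hy⟩
      refine ⟨?_, x, hx, hy⟩
      obtain ⟨y', hy'B, hy'⟩ := hB x hx ⟨y, hy⟩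
      rw [(h x hx).unique hy hy']
      exact hy'B
  choice a h1 h2 := Gen.choice a h1 h2

end Pool.Agent.H90.Frc
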