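import Pool.Agent.H90.Frc.Kit
import Pool.Agent.H90.Frc.Zfc

/-!
# Transfer principle and sizes of ordinals in generic structures
-/

set_option autoImplicit false

namespace Pool.Agent.H90.Frc

open Ordinal Cardinal

section general

variable {P : Type} [PartialOrder P]

/-- generic structures naming finitely many given names and a countable set of names -/
theorem exists_gen_set (p : P) {n : ℕ} (v : Fin n → Name P) {L : Set (Name P)}
    (hL : L.Countable) :
    ∃ g : Gen P, p ∈ g.G ∧ (∀ τ ∈ L, ∃ b, g.Den τ b) ∧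
      ∃ a : Fin n → g.M, ∀ i, g.Den (v i) (a i) := by
  have hc : (L ∪ Set.range v ∪ {emptyN P}).Countable :=
    (hL.union (Set.countable_range v)).union (Set.countable_singleton _)
  obtain ⟨y, hy⟩ := hc.exists_eq_range ⟨emptyN P, Or.inr rfl⟩
  obtain ⟨g, hp, hg, -⟩ := exists_gen p y (fun _ => Set.univ) (fun n q _ => ⟨q, le_rfl, trivial⟩)
  have key : ∀ τ ∈ L ∪ Set.range v ∪ {emptyN P}, ∃ b, g.Den τ b := by
    intro τ hτ
    rw [hy] at hτ
    obtain ⟨k, rfl⟩ := hτ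
    obtain ⟨m, hm⟩ := hg k
    exact ⟨g.el m, m, hm, rfl⟩
  refine ⟨g, hp, fun τ hτ => key τ (Or.inl (Or.inl hτ)), ?_⟩
  have : ∀ i, ∃ b, g.Den (v i) b := fun i => key _ (Or.inl (Or.inr ⟨i, rfl⟩))
  choose a ha using this
  exact ⟨a, ha⟩

/-- To prove that `q` forces `S` we may assume that countably many further names are used. -/
theorem Fc.with_names {n : ℕ} {v : Fin n → Name P} {S : Pred n} (hS : Dfn S) {q : P}
    {L : Set (Name P)} (hL : L.Countable)
    (H : ∀ g : Gen P, q ∈ g.G → (∀ τ ∈ L, ∃ b, g.Den τ b) → ∀ a : Fin n → g.M,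
      (∀ i, g.Den (v i) (a i)) → S g.M g.E a) : Fc q v S := by
  by_contra hcon
  obtain ⟨r, hr, hf⟩ := Fc.exists_not hS hcon
  obtain ⟨g, hg, hgL, a, ha⟩ := exists_gen_set r v hL
  exact hf g hg a ha (H g (g.up r hg q hr) hgL a ha)

/-- **Transfer principle.** -/
theorem Gen.tp {g : Gen P} {n : ℕ} {v : Fin n → Name P} {a : Fin n → g.M}
    (ha : ∀ i, g.Den (v i) (a i)) {R S : Pred n} (hR : Dfn R) (hS : Dfn S)
    (H : ∀ p : P, Fc p v R → ∃ q ≤ p, ∃ L : Set (Name P), L.Countable ∧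
      ∀ g : Gen P, q ∈ g.G → (∀ τ ∈ L, ∃ b, g.Den τ b) → ∀ a : Fin n → g.M,
      (∀ i, g.Den (v i) (a i)) → R g.M g.E a → S g.M g.E a) (h : R g.M g.E a) :
    S g.M g.E a := by
  refine Fc.transfer hR hS (fun p hp => ?_) ha h
  obtain ⟨q, hq, L, hL, H'⟩ := H p hp
  exact ⟨q, hq, Fc.with_names hS hL fun g hg hgL a ha =>
    H' g hg hgL a ha ((hp.mono hq) g hg a ha)⟩

/-- Transfer without a hypothesis, allowing more names. -/
theorem Gen.tn {g : Gen P} {n : ℕ} {v : Fin n → Name P} {a : Fin n → g.M}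
    (ha : ∀ i, g.Den (v i) (a i)) {R S : Pred n} (hR : Dfn R) (hS : Dfn S)
    {L : Set (Name P)} (hL : L.Countable)
    (H : ∀ g : Gen P, (∀ τ ∈ L, ∃ b, g.Den τ b) → ∀ a : Fin n → g.M,
      (∀ i, g.Den (v i) (a i)) → R g.M g.E a → S g.M g.E a) (h : R g.M g.E a) :
    S g.M g.E a :=
  Gen.tp ha hR hS (fun p _ => ⟨p, le_rfl, L, hL, fun g _ => H g⟩) h

end general

variable {P : Type} [PartialOrder P] [OrderTop P] {g : Gen P}

omit [OrderTop P] in
theorem den1 {σ : Name P} {a : g.M} (h : g.Den σ a) : ∀ i, g.Den (![σ] i) (![a] i) := by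
  intro i; fin_cases i; exact h

omit [OrderTop P] in
theorem den2 {σ τ : Name P} {a b : g.M} (h : g.Den σ a) (h' : g.Den τ b) :
    ∀ i, g.Den (![σ, τ] i) (![a, b] i) := by
  intro i; fin_cases i; exacts [h, h']

omit [OrderTop P] in
theorem den3 {σ τ ρ : Name P} {a b c : g.M} (h : g.Den σ a) (h' : g.Den τ b)
    (h'' : g.Den ρ c) : ∀ i, g.Den (![σ, τ, ρ] i) (![a, b, c] i) := by
  intro i; fin_cases i; exacts [h, h', h'']

omit [OrderTop P] in
theorem den4 {σ τ ρ π : Name P} {a b c d : g.M} (h : g.Den σ a) (h' : g.Den τ b)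
    (h'' : g.Den ρ c) (h3 : g.Den π d) : ∀ i, g.Den (![σ, τ, ρ, π] i) (![a, b, c, d] i) := by
  intro i; fin_cases i; exacts [h, h', h'', h3]

omit [OrderTop P] in
theorem den5 {σ τ ρ π θ : Name P} {a b c d e : g.M} (h : g.Den σ a) (h' : g.Den τ b)
    (h'' : g.Den ρ c) (h3 : g.Den π d) (h4 : g.Den θ e) :
    ∀ i, g.Den (![σ, τ, ρ, π, θ] i) (![a, b, c, d, e] i) := by
  intro i; fin_cases i; exacts [h, h', h'', h3, h4]

omit [OrderTop P] in
theorem den6 {σ τ ρ π θ κ : Name P} {a b c d e f : g.M} (h : g.Den σ a) (h' : g.Den τ b)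
    (h'' : g.Den ρ c) (h3 : g.Den π d) (h4 : g.Den θ e) (h5 : g.Den κ f) :
    ∀ i, g.Den (![σ, τ, ρ, π, θ, κ] i) (![a, b, c, d, e, f] i) := by
  intro i; fin_cases i; exacts [h, h', h'', h3, h4, h5]

/-- the image of an element under a named relation exists -/
theorem relN_exists {ι : Type} {A B : ι → Name P} {r : ι → P} {f a : g.M}
    (hf : g.Den (relN A B r) f) {i : ι} (hi : r i ∈ g.G) (ha : g.Den (A i) a) :
    ∃ b, Rel g.E f a b := by
  obtain ⟨b, hb⟩ := Gen.exists_of_fc (v := ![relN A B r, A i]) (a := ![f, a]) (den2 hf ha)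
    (dfn_rel 0 1 2) hi (B i) (fun g' hg' w hw => (den_relN (hw 0) _ _).2 ⟨i, hg', hw 1, hw 2⟩)
  rw [ext_vec2] at hb
  exact ⟨b, hb⟩

theorem relN_exists' {ι : Type} {A B : ι → Name P} {r : ι → P} {f b : g.M}
    (hf : g.Den (relN A B r) f) {i : ι} (hi : r i ∈ g.G) (hb : g.Den (B i) b) :
    ∃ a, Rel g.E f a b := by
  obtain ⟨a, ha⟩ := Gen.exists_of_fc (v := ![relN A B r, B i]) (a := ![f, b]) (den2 hf hb)
    (dfn_rel 0 2 1) hi (A i) (fun g' hg' w hw => (den_relN (hw 0) _ _).2 ⟨i, hg', hw 2, hw 1⟩)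
  rw [ext_vec2] at ha
  exact ⟨a, ha⟩

theorem onN_total {α : Ordinal.{0}} {a : g.M} (ha : g.Den (onN P α) a) (x y : g.M)
    (hx : g.E x a) (hy : g.E y a) : x = y ∨ g.E x y ∨ g.E y x := by
  obtain ⟨β, -, hβ⟩ := (den_onN ha x).1 hx
  obtain ⟨γ, -, hγ⟩ := (den_onN ha y).1 hy
  rcases lt_trichotomy β γ with h | h | h
  · exact Or.inr (Or.inl ((onN_mem_iff hβ hγ).2 h))
  · subst h
    exact Or.inl (hβ.unique hγ)
  · exact Or.inr (Or.inr ((onN_mem_iff hγ hβ).2 h))

theorem onN_trans {α : Ordinal.{0}} {a : g.M} (ha : g.Den (onN P α) a) (x y : g.M)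
    (hx : g.E x a) (hy : g.E y x) : g.E y a := (onN_isOrd ha).1 x hx y hy

/-- `toOrd` is injective -/
theorem toOrd_inj {α : Ordinal.{0}} {i j : α.ToType} (h : (i.toOrd : Ordinal) = j.toOrd) :
    i = j := ToType.mk.symm.injective (Subtype.ext h)

/-- ground model injections between ordinals give injections in the generic structure -/
theorem sizeLe_onN {α β : Ordinal.{0}} (h : α.card ≤ β.card) {a b : g.M}
    (ha : g.Den (onN P α) a) (hb : g.Den (onN P β) b) : SizeLe g.E a b := by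
  have he : Nonempty (α.ToType ↪ β.ToType) := by
    rw [← Cardinal.le_def, Cardinal.mk_toType, Cardinal.mk_toType]
    exact h
  obtain ⟨e⟩ := he
  refine Gen.tn (v := ![onN P α, onN P β]) (a := ![a, b]) (den2 ha hb) Dfn.true
    (dfn_sizeLe 0 1) (L := {relN (P := P) (fun i : α.ToType => onN P i.toOrd.1)
      (fun i => onN P (e i).toOrd.1) (fun _ => ⊤)}) (Set.countable_singleton _) ?_ trivial
  intro g' hL w hw _
  obtain ⟨f, hf⟩ := hL _ rfl
  have h0 : g'.Den (onN P α) (w 0) := hw 0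
  have h1 : g'.Den (onN P β) (w 1) := hw 1
  have hR := fun x y => den_relN hf x y
  refine ⟨f, fun x hx => ?_, fun x x' y hx hx' hy hy' => ?_⟩
  · obtain ⟨ξ, hξ, hxξ⟩ := (den_onN h0 x).1 hx
    have hx' : g'.Den (onN P (ToType.mk (⟨ξ, hξ⟩ : Set.Iio α)).toOrd.1) x := by
      simpa [ToType.toOrd] using hxξ
    obtain ⟨y, hy⟩ := relN_exists hf (i := ToType.mk (⟨ξ, hξ⟩ : Set.Iio α)) g'.top_mem hx'
    refine ⟨y, ?_, hy, fun z hz => ?_⟩
    · obtain ⟨i, -, -, h3⟩ := (hR x y).1 hy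
      exact (den_onN h1 y).2 ⟨_, (e i).toOrd.2, h3⟩
    · obtain ⟨i, -, h2, h3⟩ := (hR x y).1 hy
      obtain ⟨j, -, h4, h5⟩ := (hR x z).1 hz
      have : i = j := toOrd_inj (onN_inj h2 h4)
      subst this
      exact h5.unique h3
  · obtain ⟨i, -, h2, h3⟩ := (hR x y).1 hy
    obtain ⟨j, -, h4, h5⟩ := (hR x' y).1 hy'
    have : e i = e j := toOrd_inj (onN_inj h3 h5)
    have : i = j := e.injective this
    subst this
    exact h2.unique h4

/-- A set all of whose elements are named by a countable set of ordinals is countable in the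
generic structure. -/
theorem sizeLe_omega_of_countable {T : Set Ordinal.{0}} (hT : T.Countable) {n : ℕ}
    {v : Fin n → Name P} {R : Pred n} (hR : Dfn R) {u : Fin n → g.M}
    (hu : ∀ i, g.Den (v i) (u i)) (k w : Fin n) (hw : v w = onN P ω)
    (H : ∀ (g : Gen P) (u : Fin n → g.M), (∀ i, g.Den (v i) (u i)) → R g.M g.E u →
      ∀ x, g.E x (u k) → ∃ τ ∈ T, g.Den (onN P τ) x) (h : R g.M g.E u) :
    SizeLe g.E (u k) (u w) := by
  have hT' : (insert 0 T).Countable := hT.insert 0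
  obtain ⟨en, hen⟩ := hT'.exists_eq_range ⟨0, Set.mem_insert _ _⟩
  refine Gen.tn hu hR (dfn_sizeLe k w) (L := {relN (P := P) (fun i : ℕ => onN P i)
      (fun i => onN P (en i)) (fun _ => ⊤)}) (Set.countable_singleton _) ?_ h
  intro g' hL u' hu' hR'
  obtain ⟨F, hF⟩ := hL _ rfl
  have hω : g'.Den (onN P ω) (u' w) := by rw [← hw]; exact hu' w
  have hRel := fun x y => den_relN hF x y
  refine g'.zfc.sizeLe_of_surj g'.wf_E (F := F) (onN_total hω) (onN_trans hω) ?_ ?_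
  · intro x y y' _ _ _ h1 h2
    obtain ⟨i, -, h3, h4⟩ := (hRel x y).1 h1
    obtain ⟨j, -, h5, h6⟩ := (hRel x y').1 h2
    have : i = j := by exact_mod_cast onN_inj h3 h5
    subst this
    exact h4.unique h6
  · intro y hy
    obtain ⟨τ, hτ, hyτ⟩ := H g' u' hu' hR' y hy
    have : τ ∈ insert 0 T := Set.mem_insert_of_mem _ hτ
    rw [hen] at this
    obtain ⟨m, rfl⟩ := this
    obtain ⟨x, hx⟩ := exists_den_nat hω m
    exact ⟨x, (den_onN hω x).2 ⟨m, natCast_lt_omega0 m, hx⟩, (hRel x y).2 ⟨m, g'.top_mem, hx, hyτ⟩⟩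

end Pool.Agent.H90.Frc
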