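import Pool.Agent.H90.Frc.Cc

/-!
# Covering lemma: small covers of names of functions
-/

set_option autoImplicit false

namespace Pool.Agent.H90.Frc

open Cardinal Ordinal

/-- `r` extends the high part of `h`. -/
def HighLe (j : Ix) (r h : Cond) : Prop := ∀ i, j < i → Ext (h.c i) (r.c i)

open Classical in
/-- low part of `a` together with the high part of `h` -/
noncomputable def mix (j : Ix) (a h : Cond) : Cond where
  c i := if i ≤ j then a.c i else h.c i
  s := a.s
  hc i := by
    by_cases hi : i ≤ j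
    · simp only [hi, if_true]
      exact a.hc i
    · simp only [hi, if_false]
      exact h.hc i
  hs := a.hs
  hf := a.hf

theorem mix_c_low {j i : Ix} (a h : Cond) (hi : i ≤ j) : (mix j a h).c i = a.c i := if_pos hi

theorem mix_c_high {j i : Ix} (a h : Cond) (hi : j < i) : (mix j a h).c i = h.c i :=
  if_neg (not_le.2 hi)

theorem mix_self (j : Ix) (a : Cond) : mix j a a = a := by
  ext1
  · funext i
    by_cases hi : i ≤ j
    · exact mix_c_low a a hi
    · exact mix_c_high a a (not_le.1 hi)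
  · rfl

theorem mix_le {j : Ix} {a h p : Cond} (h1 : LowLe j a p) (h2 : HighLe j h p) : mix j a h ≤ p := by
  refine ⟨fun i => ?_, h1.2⟩
  by_cases hi : i ≤ j
  · rw [mix_c_low a h hi]; exact h1.1 i hi
  · rw [mix_c_high a h (not_le.1 hi)]; exact h2 i (not_le.1 hi)

theorem mix_le_mix {j : Ix} {a h a' h' : Cond} (h1 : LowLe j a a') (h2 : HighLe j h h') :
    mix j a h ≤ mix j a' h' := by
  refine ⟨fun i => ?_, h1.2⟩
  by_cases hi : i ≤ j
  · rw [mix_c_low a h hi, mix_c_low a' h' hi]; exact h1.1 i hi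
  · rw [mix_c_high a h (not_le.1 hi), mix_c_high a' h' (not_le.1 hi)]; exact h2 i (not_le.1 hi)

theorem lowLe_of_le {j : Ix} {r a : Cond} (h : r ≤ a) : LowLe j r a := ⟨fun i _ => h.1 i, h.2⟩

theorem highLe_of_le {j : Ix} {r a : Cond} (h : r ≤ a) : HighLe j r a := fun i _ => h.1 i

theorem LowLe.trans {j : Ix} {a b c : Cond} (h : LowLe j a b) (h' : LowLe j b c) : LowLe j a c :=
  ⟨fun i hi => (h'.1 i hi).trans (h.1 i hi), h'.2.trans h.2⟩

theorem HighLe.trans {j : Ix} {a b c : Cond} (h : HighLe j a b) (h' : HighLe j b c) :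
    HighLe j a c := fun i hi => (h' i hi).trans (h i hi)

theorem HighLe.refl (j : Ix) (a : Cond) : HighLe j a a := fun _ _ => Ext.refl _

theorem LowLe.refl (j : Ix) (a : Cond) : LowLe j a a := ⟨fun _ _ => Ext.refl _, Ext.refl _⟩

theorem le_mix_of {j : Ix} {b a h : Cond} (h1 : LowLe j b a) (h2 : HighLe j b h) :
    b ≤ mix j a h := by
  have := mix_le_mix h1 h2
  rwa [mix_self] at this

/-- The union of a small chain of high parts. -/
theorem exists_high_bound {j : Ix} {H : Type} (hH : #H ≤ 2 ^ kap j) (f : H → Cond)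
    (hch : ∀ x y, HighLe j (f x) (f y) ∨ HighLe j (f y) (f x)) :
    ∃ h : Cond, ∀ x, HighLe j h (f x) := by
  classical
  refine ⟨⟨fun i => if j < i then unionFun (fun x => (f x).c i) else fun _ => none,
    fun _ => none, fun i => ?_, by simp, fun ξ => by simpa using Set.infinite_univ⟩, ?_⟩
  · by_cases hi : j < i
    · simp only [hi, if_true]
      have h1 : {d | unionFun (fun x => (f x).c i) d ≠ none} ⊆
          ⋃ x : H, {d | (f x).c i d ≠ none} := by
        intro d hd
        obtain ⟨n, hn⟩ := unionFun_ne_none hd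
        exact Set.mem_iUnion.2 ⟨n, hn⟩
      calc #{d // unionFun (fun x => (f x).c i) d ≠ none}
          ≤ #(⋃ x : H, {d | (f x).c i d ≠ none} : Set _) := mk_le_mk_of_subset h1
        _ ≤ #H * ⨆ x : H, #({d | (f x).c i d ≠ none} : Set _) := mk_iUnion_le _
        _ ≤ kap i * kap i := by
            refine mul_le_mul' (hH.trans (two_power_kap_le hi)) ?_
            exact ciSup_le' fun x => (f x).hc i
        _ = kap i := mul_eq_self (aleph0_le_kap i)
    · simp [hi]
  · intro x i hi d v hv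
    change (if j < i then unionFun (fun x => (f x).c i) else fun _ => none) d = some v
    rw [if_pos hi]
    exact unionFun_eq (f := fun x => (f x).c i)
      (fun x y => (hch x y).symm.imp (fun h => h i hi) (fun h => h i hi)) hv

/-- **Covering lemma.**  A name of a function on a set of size at most `2^κ_j` is covered, below
some condition, by a function in the ground model whose values have size at most `2^κ_j`. -/
theorem cover (j : Ix) {ι W : Type} (hι : #ι ≤ 2 ^ kap j) {R : Cond → ι → W → Prop}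
    (hmono : ∀ q q' i w, R q i w → q' ≤ q → R q' i w)
    (hfun : ∀ q i w w', R q i w → R q i w' → w = w') (p : Cond) :
    ∃ q ≤ p, ∃ F : ι → Set W, (∀ i, #(F i) ≤ 2 ^ kap j) ∧ ∀ q' ≤ q, ∀ i w, R q' i w → w ∈ F i := by
  classical
  -- the family of good sets of triples
  let Good : Set (Set (ι × Cond × Cond)) := {T | (∀ x ∈ T, LowLe j x.2.1 p ∧ HighLe j x.2.2 p ∧
      ∃ w, R (mix j x.2.1 x.2.2) x.1 w) ∧
    (∀ x ∈ T, ∀ y ∈ T, HighLe j x.2.2 y.2.2 ∨ HighLe j y.2.2 x.2.2) ∧
    (∀ x ∈ T, ∀ y ∈ T, x.1 = y.1 → LowCompat j x.2.1 y.2.1 → x = y)}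
  obtain ⟨T, hT⟩ := zorn_subset Good (by
    intro c hc hchain
    refine ⟨⋃₀ c, ⟨?_, ?_, ?_⟩, fun s hs => Set.subset_sUnion_of_mem hs⟩
    · rintro x ⟨s, hs, hx⟩
      exact (hc hs).1 x hx
    · rintro x ⟨s, hs, hx⟩ y ⟨t, ht, hy⟩
      rcases hchain.total hs ht with h | h
      · exact (hc ht).2.1 x (h hx) y hy
      · exact (hc hs).2.1 x hx y (h hy)
    · rintro x ⟨s, hs, hx⟩ y ⟨t, ht, hy⟩
      rcases hchain.total hs ht with h | h
      · exact (hc ht).2.2 x (h hx) y hy
      · exact (hc hs).2.2 x hx y (h hy))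
  have hTG : T ∈ Good := hT.prop
  -- the size of `T`
  have hTi : ∀ i : ι, #{x : ι × Cond × Cond | x ∈ T ∧ x.1 = i} ≤ 2 ^ kap j := by
    intro i
    refine le_trans ?_ (low_cc j ((fun x : ι × Cond × Cond => x.2.1) ''
      {x : ι × Cond × Cond | x ∈ T ∧ x.1 = i}) ?_)
    · refine Cardinal.mk_le_of_injective (f := fun x => ⟨x.1.2.1, x.1, x.2, rfl⟩) ?_
      rintro ⟨x, hx⟩ ⟨y, hy⟩ h
      replace h : x.2.1 = y.2.1 := congrArg Subtype.val h
      have := hTG.2.2 x hx.1 y hy.1 (hx.2.trans hy.2.symm) ⟨x.2.1, LowLe.refl _ _, by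
        rw [h]; exact LowLe.refl _ _⟩
      exact Subtype.ext this
    · rintro _ ⟨x, hx, rfl⟩ _ ⟨y, hy, rfl⟩ h
      rw [hTG.2.2 x hx.1 y hy.1 (hx.2.trans hy.2.symm) h]
  have hTc : #T ≤ 2 ^ kap j := by
    have h1 : T ⊆ ⋃ i : ι, {x : ι × Cond × Cond | x ∈ T ∧ x.1 = i} :=
      fun x hx => Set.mem_iUnion.2 ⟨x.1, hx, rfl⟩
    refine (mk_le_mk_of_subset h1).trans ((mk_iUnion_le _).trans
      ((mul_le_mul' hι ?_).trans (tk_mul_self j).le))
    exact ciSup_le' hTi
  -- the bound of the high parts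
  have hopt : #(Option T) ≤ 2 ^ kap j := by
    rw [mk_option]
    exact (add_le_add hTc (one_le_aleph0.trans (aleph0_le_tk j))).trans
      (add_eq_self (aleph0_le_tk j)).le
  obtain ⟨h, hh⟩ := exists_high_bound (j := j) hopt
    (fun x => Option.elim x p (fun y => y.1.2.2)) (by
      rintro (_ | x) (_ | y)
      · exact Or.inl (HighLe.refl _ _)
      · exact Or.inr (hTG.1 y.1 y.2).2.1
      · exact Or.inl (hTG.1 x.1 x.2).2.1
      · exact hTG.2.1 x.1 x.2 y.1 y.2)
  have hhp : HighLe j h p := hh none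
  have hhx : ∀ x ∈ T, HighLe j h x.2.2 := fun x hx => hh (some ⟨x, hx⟩)
  refine ⟨mix j p h, mix_le (LowLe.refl _ _) hhp,
    fun i => {w | ∃ x ∈ T, x.1 = i ∧ R (mix j x.2.1 x.2.2) i w}, ?_, ?_⟩
  · intro i
    have h1 : ∀ w : {w | ∃ x ∈ T, x.1 = i ∧ R (mix j x.2.1 x.2.2) i w},
        ∃ x : T, x.1.1 = i ∧ R (mix j x.1.2.1 x.1.2.2) i w.1 := by
      rintro ⟨w, x, hx, h1, h2⟩
      exact ⟨⟨x, hx⟩, h1, h2⟩
    choose f hf1 hf2 using h1
    refine le_trans (Cardinal.mk_le_of_injective (f := f) ?_) hTc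
    intro w w' hww
    have h2 := hf2 w
    rw [hww] at h2
    exact Subtype.ext (hfun _ _ _ _ h2 (hf2 w'))
  · intro q' hq' i w hR
    have hq'h : HighLe j q' h := by
      intro k hk
      have := hq'.1 k
      rwa [mix_c_high _ _ hk] at this
    have hq'p : LowLe j q' p := by
      refine ⟨fun k hk => ?_, hq'.2⟩
      have := hq'.1 k
      rwa [mix_c_low _ _ hk] at this
    have hex : ∃ x ∈ T, x.1 = i ∧ LowCompat j x.2.1 q' := by
      by_contra hcon
      push Not at hcon
      have hins : insert (i, q', q') T ∈ Good := by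
        refine ⟨?_, ?_, ?_⟩
        · intro x hx
          rcases Set.mem_insert_iff.1 hx with rfl | hx
          · exact ⟨hq'p, hq'h.trans hhp, w, by rw [mix_self]; exact hR⟩
          · exact hTG.1 x hx
        · intro x hx y hy
          rcases Set.mem_insert_iff.1 hx with rfl | hx
          · rcases Set.mem_insert_iff.1 hy with rfl | hy
            · exact Or.inl (HighLe.refl _ _)
            · exact Or.inl (hq'h.trans (hhx y hy))
          · rcases Set.mem_insert_iff.1 hy with rfl | hy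
            · exact Or.inr (hq'h.trans (hhx x hx))
            · exact hTG.2.1 x hx y hy
        · intro x hx y hy hxy hcomp
          rcases Set.mem_insert_iff.1 hx with rfl | hx
          · rcases Set.mem_insert_iff.1 hy with rfl | hy
            · rfl
            · exfalso
              obtain ⟨r, h1, h2⟩ := hcomp
              exact hcon y hy hxy.symm ⟨r, h2, h1⟩
          · rcases Set.mem_insert_iff.1 hy with rfl | hy
            · exfalso
              exact hcon x hx hxy hcomp
            · exact hTG.2.2 x hx y hy hxy hcomp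
      have h1 : (i, q', q') ∈ T := hT.le_of_ge hins (Set.subset_insert _ _) (Set.mem_insert _ _)
      exact hcon _ h1 rfl ⟨q', LowLe.refl _ _, LowLe.refl _ _⟩
    obtain ⟨x, hx, hxi, r, hr1, hr2⟩ := hex
    obtain ⟨w', hw'⟩ := (hTG.1 x hx).2.2
    have h1 : mix j r q' ≤ q' := mix_le hr2 (HighLe.refl _ _)
    have h2 : mix j r q' ≤ mix j x.2.1 x.2.2 := mix_le_mix hr1 (hq'h.trans (hhx x hx))
    rw [hxi] at hw'
    have h3 := hfun _ _ _ _ (hmono _ _ _ _ hR h1) (hmono _ _ _ _ hw' h2)
    exact ⟨x, hx, hxi, by rw [h3]; exact hw'⟩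

end Pool.Agent.H90.Frc
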