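import Pool.Agent.H90.Frc.Poset

/-!
# Fusion for the countable support product of Silver forcing and the closed part
-/

set_option autoImplicit false

namespace Pool.Agent.H90.Frc

open Cardinal Ordinal

instance : Nonempty Lam := by
  have : (ℶ_ (ω_ 1) : Cardinal.{0}) ≠ 0 := beth_ne_zero _
  rw [← Cardinal.mk_ne_zero_iff, Cardinal.mk_ord_toType]
  exact this

/-- an enumeration of the support -/
theorem exists_en (q : Cond) : ∃ f : ℕ → Lam, ∀ ξ, (∃ n, q.s (ξ, n) ≠ none) → ∃ k, f k = ξ := by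
  rcases Set.eq_empty_or_nonempty {ξ | ∃ n, q.s (ξ, n) ≠ none} with h | h
  · refine ⟨fun _ => Classical.arbitrary _, fun ξ hξ => ?_⟩
    have : ξ ∈ ({ξ | ∃ n, q.s (ξ, n) ≠ none} : Set Lam) := hξ
    rw [h] at this
    exact this.elim
  · obtain ⟨f, hf⟩ := q.hs.exists_eq_range h
    refine ⟨f, fun ξ hξ => ?_⟩
    have : ξ ∈ ({ξ | ∃ n, q.s (ξ, n) ≠ none} : Set Lam) := hξ
    rw [hf] at this
    exact this

/-- states of the fusion construction -/
structure FSt (p : Cond) where
  /-- the condition -/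
  q : Cond
  /-- the positions kept free -/
  F : Finset Pos
  free : Free F q
  hle : q ≤ p

/-- the fusion sequence -/
def fseq {p : Cond} (x0 : FSt p) (N : FSt p → ℕ → Lam → FSt p) (en : Cond → ℕ → Lam) : ℕ → FSt p
  | 0 => x0
  | n + 1 => N (fseq x0 N en n) n
      (en (fseq x0 N en (Nat.unpair (Nat.unpair n).1).1).q (Nat.unpair (Nat.unpair n).1).2)
termination_by n => n
decreasing_by
  · omega
  · have h1 := Nat.unpair_left_le n
    have h2 := Nat.unpair_left_le (Nat.unpair n).1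
    omega

theorem fseq_succ {p : Cond} (x0 : FSt p) (N : FSt p → ℕ → Lam → FSt p) (en : Cond → ℕ → Lam) (n : ℕ) :
    fseq x0 N en (n + 1) = N (fseq x0 N en n) n
      (en (fseq x0 N en (Nat.unpair (Nat.unpair n).1).1).q (Nat.unpair (Nat.unpair n).1).2) := by
  rw [fseq]

theorem fusion {S : ℕ → Finset Pos → Cond → Prop} {p : Cond}
    (hmono : ∀ k F q q', S k F q → q' ≤ q → Free F q' → S k F q')
    (hdense : ∀ k F, ∀ q ≤ p, Free F q → ∃ q' ≤ q, Free F q' ∧ S k F q') :
    ∃ q ≤ p, ∀ k, ∃ F, Free F q ∧ S k F q := by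
  have hstep : ∀ (x : FSt p) (n : ℕ) (ξ : Lam), ∃ y : FSt p, y.q ≤ x.q ∧ x.F ⊆ y.F ∧
      S n x.F y.q ∧ ∃ m ≥ n, (ξ, m) ∈ y.F := by
    intro x n ξ
    obtain ⟨q', hq', hfree, hS⟩ := hdense n x.F x.q x.hle x.free
    obtain ⟨m, hm, hmn⟩ := (q'.hf ξ).exists_gt n
    refine ⟨⟨q', insert (ξ, m) x.F, ?_, hq'.trans x.hle⟩, hq', Finset.subset_insert _ _, hS, m, hmn.le,
      Finset.mem_insert_self _ _⟩
    intro y hy
    rcases Finset.mem_insert.1 hy with rfl | hy
    · exact hm
    · exact hfree y hy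
  choose N hN1 hN2 hN3 hN4 using hstep
  choose en hen using exists_en
  set x := fseq ⟨p, ∅, fun y hy => absurd hy (Finset.notMem_empty y), le_rfl⟩ N en with hx
  have hx0 : (x 0).q = p := by rw [hx, fseq]
  have hsucc : ∀ n, x (n + 1) = N (x n) n
      (en (x (Nat.unpair (Nat.unpair n).1).1).q (Nat.unpair (Nat.unpair n).1).2) :=
    fun n => fseq_succ _ _ _ n
  have hanti : Antitone (fun n => (x n).q) := antitone_nat_of_succ_le fun n => by
    rw [hsucc]; exact hN1 _ _ _
  have hFmono : Monotone (fun n => (x n).F) := monotone_nat_of_le_succ fun n => by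
    rw [hsucc]; exact hN2 _ _ _
  have hfree : ∀ n m, Free (x n).F (x m).q := by
    intro n m
    rcases le_total n m with h | h
    · exact (x m).free.mono (hFmono h)
    · exact (x n).free.of_le (hanti h)
  have hchain : ∀ n m, (∀ i, Ext ((x n).q.c i) ((x m).q.c i)) ∧ Ext (x n).q.s (x m).q.s ∨
      (∀ i, Ext ((x m).q.c i) ((x n).q.c i)) ∧ Ext (x m).q.s (x n).q.s := by
    intro n m
    rcases le_total n m with h | h
    · exact Or.inl (hanti h)
    · exact Or.inr (hanti h)
  have hchs : ∀ n m, Ext (x n).q.s (x m).q.s ∨ Ext (x m).q.s (x n).q.s :=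
    fun n m => (hchain n m).imp And.right And.right
  have hchc : ∀ i n m, Ext ((x n).q.c i) ((x m).q.c i) ∨ Ext ((x m).q.c i) ((x n).q.c i) :=
    fun i n m => (hchain n m).imp (fun h => h.1 i) (fun h => h.1 i)
  have hfreeU : ∀ n, ∀ y ∈ (x n).F, unionFun (fun m => (x m).q.s) y = none := by
    intro n y hy
    by_contra hcon
    obtain ⟨m, hm⟩ := unionFun_ne_none hcon
    exact hm (hfree n m y hy)
  let q : Cond :=
    { c := fun i => unionFun (fun n => (x n).q.c i)
      s := unionFun (fun n => (x n).q.s)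
      hc := by
        intro i
        have h1 : {d | unionFun (fun n => (x n).q.c i) d ≠ none} ⊆
            ⋃ n : ℕ, {d | (x n).q.c i d ≠ none} := by
          intro d hd
          obtain ⟨n, hn⟩ := unionFun_ne_none hd
          exact Set.mem_iUnion.2 ⟨n, hn⟩
        calc #{d // unionFun (fun n => (x n).q.c i) d ≠ none}
            ≤ #(⋃ n : ℕ, {d | (x n).q.c i d ≠ none} : Set _) := mk_le_mk_of_subset h1
          _ ≤ #ℕ * ⨆ n : ℕ, #({d | (x n).q.c i d ≠ none} : Set _) := mk_iUnion_le _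
          _ ≤ kap i * kap i := by
              refine mul_le_mul' ?_ ?_
              · rw [mk_nat]; exact aleph0_le_kap i
              · exact ciSup_le' fun n => (x n).q.hc i
          _ = kap i := mul_eq_self (aleph0_le_kap i)
      hs := by
        refine (Set.countable_iUnion fun n => (x n).q.hs).mono ?_
        rintro ξ ⟨m, hm⟩
        obtain ⟨n, hn⟩ := unionFun_ne_none hm
        exact Set.mem_iUnion.2 ⟨n, m, hn⟩
      hf := by
        intro ξ
        by_cases hξ : ∃ n m, (x n).q.s (ξ, m) ≠ none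
        · obtain ⟨a, m, hm⟩ := hξ
          obtain ⟨b, hb⟩ := hen (x a).q ξ ⟨m, hm⟩
          rw [Set.infinite_iff_exists_gt]
          intro j
          have h1 : j ≤ Nat.pair (Nat.pair a b) (j + 1) :=
            (Nat.le_succ j).trans (Nat.right_le_pair _ _)
          have h2 := hN4 (x (Nat.pair (Nat.pair a b) (j + 1))) (Nat.pair (Nat.pair a b) (j + 1))
            (en (x (Nat.unpair (Nat.unpair (Nat.pair (Nat.pair a b) (j + 1))).1).1).q
              (Nat.unpair (Nat.unpair (Nat.pair (Nat.pair a b) (j + 1))).1).2)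
          rw [← hsucc] at h2
          simp only [Nat.unpair_pair] at h2
          rw [hb] at h2
          obtain ⟨k, hk, hkF⟩ := h2
          refine ⟨k, hfreeU _ _ hkF, ?_⟩
          have : j + 1 ≤ Nat.pair (Nat.pair a b) (j + 1) := Nat.right_le_pair _ _
          omega
        · have : {n | unionFun (fun n => (x n).q.s) (ξ, n) = none} = Set.univ := by
            ext m
            simp only [Set.mem_ofPred_eq, Set.mem_univ, iff_true]
            by_contra hcon
            obtain ⟨n, hn⟩ := unionFun_ne_none hcon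
            exact hξ ⟨n, m, hn⟩
          rw [this]
          exact Set.infinite_univ }
  have hq : ∀ n, q ≤ (x n).q := fun n =>
    ⟨fun i d v h => unionFun_eq (f := fun n => (x n).q.c i) (hchc i) h,
      fun y b h => unionFun_eq (f := fun n => (x n).q.s) hchs h⟩
  refine ⟨q, hx0 ▸ hq 0, fun k => ⟨(x k).F, hfreeU k, ?_⟩⟩
  refine hmono k _ (x (k + 1)).q _ ?_ (hq (k + 1)) (hfreeU k)
  rw [hsucc]
  exact hN3 _ _ _

/-- Covering lemma for names of functions on `ω`. -/
theorem cover_omega {W : Type*} {R : Cond → ℕ → W → Prop}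
    (hmono : ∀ q q' k w, R q k w → q' ≤ q → R q' k w)
    (hfun : ∀ q k w w', R q k w → R q k w' → w = w') (p : Cond) :
    ∃ q ≤ p, ∃ F : ℕ → Set W, (∀ k, (F k).Finite) ∧ ∀ q' ≤ q, ∀ k w, R q' k w → w ∈ F k := by
  have hA : ∀ (k : ℕ) (r : Cond), ∃ r' ≤ r, (∃ w, R r' k w) ∨ ∀ r'' ≤ r', ∀ w, ¬ R r'' k w := by
    intro k r
    by_cases h : ∃ r' ≤ r, ∃ w, R r' k w
    · obtain ⟨r', hr', h⟩ := h
      exact ⟨r', hr', Or.inl h⟩
    · push Not at h
      exact ⟨r, le_rfl, Or.inr h⟩
  obtain ⟨q, hq, hS⟩ := fusion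
    (S := fun k F q => ∀ t ⊆ F, (∃ w, R (q.ex F t) k w) ∨ ∀ r ≤ q.ex F t, ∀ w, ¬ R r k w)
    (by
      intro k F q q' h hle _ t ht
      rcases h t ht with ⟨w, hw⟩ | h
      · exact Or.inl ⟨w, hmono _ _ _ _ hw (ex_mono F t hle)⟩
      · exact Or.inr fun r hr => h r (hr.trans (ex_mono F t hle)))
    (by
      intro k F q hqp hq
      exact exists_all_ex (A := fun t r => (∃ w, R r k w) ∨ ∀ r' ≤ r, ∀ w, ¬ R r' k w) (by
        rintro t r r' (⟨w, hw⟩ | h) hr
        · exact Or.inl ⟨w, hmono _ _ _ _ hw hr⟩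
        · exact Or.inr fun r'' hr'' => h r'' (hr''.trans hr)) (fun t r _ => hA k r) hqp hq)
  choose F hfree hF using hS
  refine ⟨q, hq, fun k => {w | ∃ t ∈ (F k).powerset, R (q.ex (F k) t) k w}, fun k => ?_, ?_⟩
  · have : {w | ∃ t ∈ (F k).powerset, R (q.ex (F k) t) k w} =
        ⋃ t ∈ (F k).powerset, {w | R (q.ex (F k) t) k w} := by
      ext w
      simp
    change ({w | ∃ t ∈ (F k).powerset, R (q.ex (F k) t) k w} : Set W).Finite
    rw [this]
    refine Set.Finite.biUnion (Finset.finite_toSet _) fun t _ => ?_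
    exact Set.Subsingleton.finite fun w hw w' hw' => hfun _ _ _ _ hw hw'
  · intro q' hq' k w hR
    obtain ⟨t, ht, r, hr, hr'⟩ := exists_ex_le (F k) hq'
    rcases hF k t ht with ⟨w', hw'⟩ | h
    · have := hfun _ _ _ _ (hmono _ _ _ _ hR hr) (hmono _ _ _ _ hw' hr')
      subst this
      exact ⟨t, Finset.mem_powerset.2 ht, hw'⟩
    · exact absurd (hmono _ _ _ _ hR hr) (h r hr' w)

end Pool.Agent.H90.Frc
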