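import Pool.Agent.H90.Frc.Tools
import Pool.Agent.H90.Frc.Cover
import Pool.Agent.H90.Frc.Fusion

/-!
# Cardinals in the generic extension
-/

set_option autoImplicit false

namespace Pool.Agent.H90.Frc

open Ordinal Cardinal

variable {g : Gen Cond}

theorem not_sizeLe_onN {α β : Ordinal.{0}} {j : Ix} (hβ : β.card ≤ 2 ^ kap j)
    (hα : 2 ^ kap j < α.card) {a b : g.M} (ha : g.Den (onN Cond α) a)
    (hb : g.Den (onN Cond β) b) : ¬ SizeLe g.E a b := by
  rintro ⟨f, hf⟩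
  obtain ⟨φ, hφ⟩ := g.exists_den f
  refine Gen.tp (v := ![onN Cond α, onN Cond β, φ]) (a := ![a, b, f]) (den3 ha hb hφ)
    (dfn_isInj 2 0 1) (Dfn.const False) (fun p hp => ?_) hf
  let R : Cond → β.ToType → α.ToType → Prop := fun q i w => q ≤ p ∧
    Fc q ![onN Cond i.toOrd.1, onN Cond w.toOrd.1, φ] (fun _ E v => Rel E (v 2) (v 1) (v 0))
  obtain ⟨q, hq, F, hF, hcov⟩ := cover j (ι := β.ToType) (W := α.ToType) (R := R)
    (by rw [Cardinal.mk_toType]; exact hβ)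
    (fun q q' i w h hle => ⟨hle.trans h.1, h.2.mono hle⟩) (by
      intro q i w w' h h'
      obtain ⟨g', hg', -, u, hu⟩ := exists_gen_set q ![onN Cond i.toOrd.1, onN Cond w.toOrd.1,
        onN Cond w'.toOrd.1, φ, onN Cond α, onN Cond β] (L := ∅) Set.countable_empty
      have h0 : g'.Den (onN Cond i.toOrd.1) (u 0) := hu 0
      have h1 : g'.Den (onN Cond w.toOrd.1) (u 1) := hu 1
      have h2 : g'.Den (onN Cond w'.toOrd.1) (u 2) := hu 2
      have h3 : g'.Den φ (u 3) := hu 3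
      have h4 : g'.Den (onN Cond α) (u 4) := hu 4
      have h5 : g'.Den (onN Cond β) (u 5) := hu 5
      have e1 : Rel g'.E (u 3) (u 1) (u 0) := h.2 g' hg' ![u 0, u 1, u 3] (den3 h0 h1 h3)
      have e2 : Rel g'.E (u 3) (u 2) (u 0) := h'.2 g' hg' ![u 0, u 2, u 3] (den3 h0 h2 h3)
      have e3 : IsInj g'.E (u 3) (u 4) (u 5) :=
        hp g' (g'.up q hg' p h.1) ![u 4, u 5, u 3] (den3 h4 h5 h3)
      have e4 : u 1 = u 2 := e3.2 _ _ _ ((den_onN h4 _).2 ⟨_, w.toOrd.2, h1⟩)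
        ((den_onN h4 _).2 ⟨_, w'.toOrd.2, h2⟩) e1 e2
      rw [e4] at h1
      exact toOrd_inj (onN_inj h1 h2)) p
  have hne : ∃ w : α.ToType, ∀ i, w ∉ F i := by
    by_contra hcon
    push Not at hcon
    have h1 : (Set.univ : Set α.ToType) ⊆ ⋃ i, F i := fun w _ => Set.mem_iUnion.2 (hcon w)
    have h2 : #α.ToType ≤ 2 ^ kap j := by
      rw [← mk_univ]
      refine (mk_le_mk_of_subset h1).trans ((mk_iUnion_le _).trans
        ((mul_le_mul' ?_ (ciSup_le' hF)).trans (tk_mul_self j).le))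
      rw [Cardinal.mk_toType]
      exact hβ
    rw [Cardinal.mk_toType] at h2
    exact absurd hα (not_lt.2 h2)
  obtain ⟨w, hw⟩ := hne
  refine ⟨q, hq, {onN Cond w.toOrd.1}, Set.countable_singleton _, ?_⟩
  intro g' hg' hL u hu hinj
  obtain ⟨x, hx⟩ := hL _ rfl
  have h0 : g'.Den (onN Cond α) (u 0) := hu 0
  have h1 : g'.Den (onN Cond β) (u 1) := hu 1
  have h2 : g'.Den φ (u 2) := hu 2
  obtain ⟨y, hy, hxy, -⟩ := hinj.1 x ((den_onN h0 x).2 ⟨_, w.toOrd.2, hx⟩)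
  obtain ⟨η, hη, hyη⟩ := (den_onN h1 y).1 hy
  let i : β.ToType := ToType.mk ⟨η, hη⟩
  have hi : g'.Den (onN Cond i.toOrd.1) y := by simpa [i, ToType.toOrd] using hyη
  obtain ⟨r, hr, hfr⟩ := (Fc.truth (v := ![onN Cond i.toOrd.1, onN Cond w.toOrd.1, φ])
    (a := ![y, x, u 2]) (dfn_rel 2 1 0) (den3 hi hx h2)).1 hxy
  obtain ⟨r', hr', h3, h4⟩ := g'.dir r hr q hg'
  exact hw i (hcov r' h4 i w ⟨h4.trans hq, hfr.mono h3⟩)

theorem not_sizeLe_omega {α : Ordinal.{0}} (hα : ℵ₀ < α.card) {a b : g.M}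
    (ha : g.Den (onN Cond α) a) (hb : g.Den (onN Cond ω) b) : ¬ SizeLe g.E a b := by
  rintro ⟨f, hf⟩
  obtain ⟨φ, hφ⟩ := g.exists_den f
  refine Gen.tp (v := ![onN Cond α, onN Cond ω, φ]) (a := ![a, b, f]) (den3 ha hb hφ)
    (dfn_isInj 2 0 1) (Dfn.const False) (fun p hp => ?_) hf
  let R : Cond → ℕ → α.ToType → Prop := fun q i w => q ≤ p ∧
    Fc q ![onN Cond i, onN Cond w.toOrd.1, φ] (fun _ E v => Rel E (v 2) (v 1) (v 0))
  obtain ⟨q, hq, F, hF, hcov⟩ := cover_omega (W := α.ToType) (R := R)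
    (fun q q' i w h hle => ⟨hle.trans h.1, h.2.mono hle⟩) (by
      intro q i w w' h h'
      obtain ⟨g', hg', -, u, hu⟩ := exists_gen_set q ![onN Cond i, onN Cond w.toOrd.1,
        onN Cond w'.toOrd.1, φ, onN Cond α, onN Cond ω] (L := ∅) Set.countable_empty
      have h0 : g'.Den (onN Cond i) (u 0) := hu 0
      have h1 : g'.Den (onN Cond w.toOrd.1) (u 1) := hu 1
      have h2 : g'.Den (onN Cond w'.toOrd.1) (u 2) := hu 2
      have h3 : g'.Den φ (u 3) := hu 3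
      have h4 : g'.Den (onN Cond α) (u 4) := hu 4
      have h5 : g'.Den (onN Cond ω) (u 5) := hu 5
      have e1 : Rel g'.E (u 3) (u 1) (u 0) := h.2 g' hg' ![u 0, u 1, u 3] (den3 h0 h1 h3)
      have e2 : Rel g'.E (u 3) (u 2) (u 0) := h'.2 g' hg' ![u 0, u 2, u 3] (den3 h0 h2 h3)
      have e3 : IsInj g'.E (u 3) (u 4) (u 5) :=
        hp g' (g'.up q hg' p h.1) ![u 4, u 5, u 3] (den3 h4 h5 h3)
      have e4 : u 1 = u 2 := e3.2 _ _ _ ((den_onN h4 _).2 ⟨_, w.toOrd.2, h1⟩)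
        ((den_onN h4 _).2 ⟨_, w'.toOrd.2, h2⟩) e1 e2
      rw [e4] at h1
      exact toOrd_inj (onN_inj h1 h2)) p
  have hne : ∃ w : α.ToType, ∀ i, w ∉ F i := by
    by_contra hcon
    push Not at hcon
    have h1 : (Set.univ : Set α.ToType) ⊆ ⋃ i, F i := fun w _ => Set.mem_iUnion.2 (hcon w)
    have h2 : #α.ToType ≤ ℵ₀ := by
      rw [← mk_univ, le_aleph0_iff_set_countable]
      exact (Set.countable_iUnion fun i => (hF i).countable).mono h1
    rw [Cardinal.mk_toType] at h2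
    exact absurd hα (not_lt.2 h2)
  obtain ⟨w, hw⟩ := hne
  refine ⟨q, hq, {onN Cond w.toOrd.1}, Set.countable_singleton _, ?_⟩
  intro g' hg' hL u hu hinj
  obtain ⟨x, hx⟩ := hL _ rfl
  have h0 : g'.Den (onN Cond α) (u 0) := hu 0
  have h1 : g'.Den (onN Cond ω) (u 1) := hu 1
  have h2 : g'.Den φ (u 2) := hu 2
  obtain ⟨y, hy, hxy, -⟩ := hinj.1 x ((den_onN h0 x).2 ⟨_, w.toOrd.2, hx⟩)
  obtain ⟨η, hη, hyη⟩ := (den_onN h1 y).1 hy
  obtain ⟨i, rfl⟩ := lt_omega0.1 hη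
  obtain ⟨r, hr, hfr⟩ := (Fc.truth (v := ![onN Cond i, onN Cond w.toOrd.1, φ])
    (a := ![y, x, u 2]) (dfn_rel 2 1 0) (den3 hyη hx h2)).1 hxy
  obtain ⟨r', hr', h3, h4⟩ := g'.dir r hr q hg'
  exact hw i (hcov r' h4 i w ⟨h4.trans hq, hfr.mono h3⟩)

/-- `ω₁` is preserved. -/
theorem isOmega1_onN {w o : g.M} (hw : g.Den (onN Cond ω) w) (ho : g.Den (onN Cond (ω_ 1)) o) :
    IsOmega1 g.E w o := by
  refine ⟨onN_isOrd ho, not_sizeLe_omega ?_ ho hw, fun b hb => ?_⟩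
  · rw [card_omega]
    exact aleph0_lt_aleph_one
  · obtain ⟨β, hβ, hbβ⟩ := (den_onN ho b).1 hb
    refine sizeLe_onN ?_ hbβ hw
    rw [card_omega0]
    have h1 : β < (ℵ₁ : Cardinal.{0}).ord := by
      simpa using hβ
    rw [lt_ord, ← succ_aleph0] at h1
    exact Order.lt_succ_iff.1 h1

theorem exists_kap_of_lt {c : Cardinal.{0}} (hc : c < ℶ_ (ω_ 1)) : ∃ i : Ix, c < kap i := by
  rw [beth_limit (isSuccLimit_omega 1)] at hc
  obtain ⟨i, hi⟩ := exists_lt_of_lt_ciSup' hc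
  exact ⟨ToType.mk i, by simpa [kap, ToType.toOrd] using hi⟩

theorem kap_lt_lam (i : Ix) : kap i < ℶ_ (ω_ 1) := beth_lt_beth.2 i.toOrd.2

theorem tk_lt_lam (i : Ix) : 2 ^ kap i < ℶ_ (ω_ 1) := by
  obtain ⟨j, hj, -⟩ := exists_gt_two i i
  exact (two_power_kap_le hj).trans_lt (kap_lt_lam j)

/-- `λ = ℶ_{ω₁}` is a cardinal in the extension. -/
theorem isCard_lam {l : g.M} (hl : g.Den (onN Cond (ℶ_ (ω_ 1)).ord) l) : IsCard g.E l := by
  refine ⟨onN_isOrd hl, fun b hb => ?_⟩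
  obtain ⟨β, hβ, hbβ⟩ := (den_onN hl b).1 hb
  rw [lt_ord] at hβ
  obtain ⟨j, hj⟩ := exists_kap_of_lt hβ
  refine not_sizeLe_onN (j := j) (hj.le.trans (kap_lt j).le) ?_ hl hbβ
  rw [card_ord]
  exact tk_lt_lam j

/-- `(2^κ_i)⁺` is preserved. -/
theorem isCard_succ (i : Ix) {k : g.M}
    (hk : g.Den (onN Cond (Order.succ ((2 : Cardinal.{0}) ^ kap i)).ord) k) :
    IsCard g.E k := by
  refine ⟨onN_isOrd hk, fun b hb => ?_⟩
  obtain ⟨β, hβ, hbβ⟩ := (den_onN hk b).1 hb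
  rw [lt_ord] at hβ
  refine not_sizeLe_onN (j := i) (Order.lt_succ_iff.1 hβ) ?_ hk hbβ
  rw [card_ord]
  exact Order.lt_succ _

/-! ### The collapses -/

theorem exists_free_dm (p : Cond) (i : Ix) : ∃ d, p.c i d = none := by
  by_contra hcon
  push Not at hcon
  have h1 : #(Dm i) ≤ #{d // p.c i d ≠ none} :=
    Cardinal.mk_le_of_injective (f := fun d => ⟨d, hcon d⟩) (fun a b h => by
      simpa using h)
  have h2 := h1.trans (p.hc i)
  rw [mk_ord_toType] at h2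
  exact absurd (Order.lt_succ (kap i)) (not_lt.2 h2)

open Classical in
/-- set one value of the collapsing part -/
noncomputable def Cond.setC (p : Cond) (i : Ix) (d : Dm i) (v : Vl i) : Cond where
  c := Function.update p.c i (Function.update (p.c i) d (some v))
  s := p.s
  hc k := by
    by_cases hk : k = i
    · subst hk
      have h1 : {e | Function.update p.c k (Function.update (p.c k) d (some v)) k e ≠ none} ⊆
          insert d {e | p.c k e ≠ none} := by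
        intro e he
        by_cases hed : e = d
        · exact Or.inl hed
        · right
          simpa [Function.update_self, Function.update_of_ne hed] using he
      refine (mk_le_mk_of_subset h1).trans ?_
      refine (mk_insert_le).trans ?_
      exact (add_le_add (p.hc k) (one_le_aleph0.trans (aleph0_le_kap k))).trans
        (add_eq_self (aleph0_le_kap k)).le
    · rw [Function.update_of_ne hk]
      exact p.hc k
  hs := p.hs
  hf := p.hf

theorem setC_le {p : Cond} {i : Ix} {d : Dm i} {v : Vl i} (h : p.c i d = none) :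
    p.setC i d v ≤ p := by
  classical
  refine ⟨fun k e w he => ?_, Ext.refl _⟩
  change Function.update p.c i (Function.update (p.c i) d (some v)) k e = some w
  by_cases hk : k = i
  · subst hk
    have hed : e ≠ d := by
      rintro rfl
      rw [h] at he
      cases he
    rw [Function.update_self, Function.update_of_ne hed]
    exact he
  · rw [Function.update_of_ne hk]
    exact he

theorem setC_c {p : Cond} {i : Ix} {d : Dm i} {v : Vl i} : (p.setC i d v).c i d = some v := by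
  classical
  change Function.update p.c i (Function.update (p.c i) d (some v)) i d = some v
  rw [Function.update_self, Function.update_self]

/-- the name of the generic collapsing map -/
noncomputable def colN (i : Ix) : Name Cond :=
  relN (ι := {z : (Dm i × Vl i) × Cond // z.2.c i z.1.1 = some z.1.2})
    (fun z => onN Cond z.1.1.1.toOrd.1) (fun z => onN Cond z.1.1.2.toOrd.1) (fun z => z.1.2)

theorem sizeLe_collapse {i : Ix} {c : Cardinal.{0}} (hc : c ≤ 2 ^ kap i) {k b : g.M}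
    (hk : g.Den (onN Cond c.ord) k) (hb : g.Den (onN Cond (Order.succ (kap i)).ord) b) :
    SizeLe g.E k b := by
  refine Gen.tn (v := ![onN Cond c.ord, onN Cond (Order.succ (kap i)).ord]) (a := ![k, b])
    (den2 hk hb) Dfn.true (dfn_sizeLe 0 1) (L := {colN i}) (Set.countable_singleton _) ?_ trivial
  intro g' hL u hu _
  obtain ⟨F, hF⟩ := hL _ rfl
  have h0 : g'.Den (onN Cond c.ord) (u 0) := hu 0
  have h1 : g'.Den (onN Cond (Order.succ (kap i)).ord) (u 1) := hu 1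
  have hR := fun x y => den_relN hF x y
  refine g'.zfc.sizeLe_of_surj g'.wf_E (F := F) (onN_total h1) (onN_trans h1) ?_ ?_
  · intro x y y' _ _ _ h2 h3
    obtain ⟨⟨⟨⟨d, v⟩, q⟩, hz⟩, hq, h4, h5⟩ := (hR x y).1 h2
    obtain ⟨⟨⟨⟨d', v'⟩, q'⟩, hz'⟩, hq', h4', h5'⟩ := (hR x y').1 h3
    have : d = d' := toOrd_inj (onN_inj h4 h4')
    subst this
    obtain ⟨r, hr, h6, h7⟩ := g'.dir q hq q' hq'
    have h8 := h6.1 i d v hz
    have h9 := h7.1 i d v' hz'
    rw [h8] at h9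
    cases h9
    exact h5.unique h5'
  · intro y hy
    obtain ⟨η, hη, hyη⟩ := (den_onN h0 y).1 hy
    refine Gen.tp (v := ![onN Cond (Order.succ (kap i)).ord, colN i, onN Cond η])
      (a := ![u 1, F, y]) (den3 h1 hF hyη) Dfn.true
      (S := fun _ E v => ∃ x, E x (v 0) ∧ Rel E (v 1) x (v 2))
      (.ex (.and (.mem _ _) (dfn_rel _ _ _))) (fun p _ => ?_) trivial
    obtain ⟨d, hd⟩ := exists_free_dm p i
    have hη' : η < (2 ^ kap i : Cardinal.{0}).ord := hη.trans_le (ord_le_ord.2 hc)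
    let v : Vl i := ToType.mk ⟨η, hη'⟩
    refine ⟨p.setC i d v, setC_le hd, {onN Cond d.toOrd.1}, Set.countable_singleton _, ?_⟩
    intro g3 hg3 hL3 u3 hu3 _
    obtain ⟨x, hx⟩ := hL3 _ rfl
    have e0 : g3.Den (onN Cond (Order.succ (kap i)).ord) (u3 0) := hu3 0
    have e1 : g3.Den (colN i) (u3 1) := hu3 1
    have e2 : g3.Den (onN Cond η) (u3 2) := hu3 2
    refine ⟨x, (den_onN e0 x).2 ⟨_, d.toOrd.2, hx⟩, ?_⟩
    refine (den_relN e1 x _).2 ⟨⟨((d, v), p.setC i d v), setC_c⟩, hg3, hx, ?_⟩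
    simpa [v, ToType.toOrd] using e2

theorem exists_tk_of_lt_kap {c : Cardinal.{0}} {i : Ix} (h0 : ℵ₀ ≤ c) (h : c < kap i) :
    ∃ k < i, c < 2 ^ kap k := by
  have key : ∀ o : Ordinal.{0}, c < ℶ_ o → ∃ a < o, c < 2 ^ ℶ_ a := by
    intro o ho
    induction o using Ordinal.limitRecOn with
    | zero => rw [beth_zero] at ho; exact absurd h0 (not_le.2 ho)
    | add_one a _ => exact ⟨a, lt_add_one a, by rwa [beth_add_one] at ho⟩
    | limit o hl _ =>
      rw [beth_limit hl] at ho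
      obtain ⟨a, ha⟩ := exists_lt_of_lt_ciSup' ho
      exact ⟨a, a.2, ha.trans (cantor _)⟩
  obtain ⟨a, ha, hca⟩ := key _ h
  refine ⟨ToType.mk ⟨a, ha.trans i.toOrd.2⟩, ?_, ?_⟩
  · rw [← ToType.mk.symm.lt_iff_lt, OrderIso.symm_apply_apply]
    exact ha
  · simpa [kap, ToType.toOrd] using hca

/-- the possible infinite cardinals below `κ_j` -/
noncomputable def Tc (j : Ix) : Set Ordinal.{0} :=
  ((fun i => (kap i).ord) '' Set.Iic j) ∪ ((fun i => (Order.succ (kap i)).ord) '' Set.Iic j)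

theorem countable_Tc (j : Ix) : (Tc j).Countable :=
  ((countable_le j).image _).union ((countable_le j).image _)

theorem mem_Tc {κ : Ordinal.{0}} {j : Ix} (hj : κ.card < kap j) {k w : g.M}
    (hk : g.Den (onN Cond κ) k) (hw : g.Den (onN Cond ω) w) (h : IsInfCard g.E w k) :
    κ ∈ Tc j := by
  by_contra hcon
  have hω : ω ≤ κ := by
    by_contra hlt
    exact h.2 ((onN_mem_iff hk hw).2 (not_le.1 hlt))
  have hinit : κ = κ.card.ord := by
    by_contra hne
    have hlt : κ.card.ord < κ := lt_of_le_of_ne (ord_card_le κ) (Ne.symm hne)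
    refine Gen.tn (v := ![onN Cond κ]) (a := ![k]) (den1 hk) (R := fun _ E v => IsCard E (v 0))
      (dfn_isCard 0) (Dfn.const False) (L := {onN Cond κ.card.ord})
      (Set.countable_singleton _) ?_ h.1
    intro g' hL u hu hcard
    obtain ⟨b, hb⟩ := hL _ rfl
    have h0 : g'.Den (onN Cond κ) (u 0) := hu 0
    exact hcard.2 b ((onN_mem_iff hb h0).2 hlt) (sizeLe_onN (by rw [card_ord]) h0 hb)
  have hc0 : ℵ₀ ≤ κ.card := by
    rw [← ord_le_ord, ord_aleph0, ← hinit]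
    exact hω
  -- the least `i` with `κ.card ≤ 2 ^ kap i`
  obtain ⟨i, hi, hmin⟩ := (wellFounded_lt (α := Ix)).has_min {i | κ.card ≤ 2 ^ kap i}
    ⟨j, hj.le.trans (kap_lt j).le⟩
  have hij : i ≤ j := by
    by_contra hlt
    exact hmin j (hj.le.trans (kap_lt j).le) (not_le.1 hlt)
  rcases lt_trichotomy κ.card (kap i) with h1 | h1 | h1
  · obtain ⟨k', hk', hck⟩ := exists_tk_of_lt_kap hc0 h1
    exact hmin k' hck.le hk'
  · exact hcon (Or.inl ⟨i, hij, by rw [hinit, h1]⟩)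
  · rcases (Order.succ_le_of_lt h1).lt_or_eq with h2 | h2
    · have hk' : g.Den (onN Cond κ.card.ord) k := by rw [← hinit]; exact hk
      refine Gen.tn (v := ![onN Cond κ.card.ord]) (a := ![k]) (den1 hk')
        (R := fun _ E v => IsCard E (v 0))
        (dfn_isCard 0) (Dfn.const False) (L := {onN Cond (Order.succ (kap i)).ord})
        (Set.countable_singleton _) ?_ h.1
      intro g' hL u hu hcard
      obtain ⟨b, hb⟩ := hL _ rfl
      have h0 : g'.Den (onN Cond κ.card.ord) (u 0) := hu 0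
      exact hcard.2 b ((onN_mem_iff hb h0).2 (ord_lt_ord.2 h2)) (sizeLe_collapse hi h0 hb)
    · exact hcon (Or.inr ⟨i, hij, by rw [hinit, ← h2]⟩)

theorem omega_le_ord {c : Cardinal.{0}} (h : ℵ₀ ≤ c) : ω ≤ c.ord := by
  rw [← ord_aleph0]
  exact ord_le_ord.2 h

/-- In the extension `λ = ℶ_{ω₁}` of the ground model is `ℵ_{ω₁}`. -/
theorem isAlephOmega1_lam {w l : g.M} (hw : g.Den (onN Cond ω) w)
    (hl : g.Den (onN Cond (ℶ_ (ω_ 1)).ord) l) : IsAlephOmega1 g.E w l := by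
  have hex : ∀ y : g.M, ∃ C, IsCardsBelow g.E w y C := by
    intro y
    obtain ⟨C, hC⟩ := g.zfc.sep (n := 1) (R := fun _ E v => IsInfCard E (v 0) (v 1))
      (dfn_isInfCard 0 1) ![w] y
    exact ⟨C, hC⟩
  refine ⟨isCard_lam hl, ?_, ?_⟩
  · obtain ⟨C, hC⟩ := hex l
    refine ⟨C, hC, ?_⟩
    rintro ⟨f, hf⟩
    obtain ⟨φ, hφ⟩ := g.exists_den f
    obtain ⟨ζ, hζ⟩ := g.exists_den C
    refine Gen.tp (v := ![onN Cond ω, onN Cond (ℶ_ (ω_ 1)).ord, ζ, φ]) (a := ![w, l, C, f])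
      (den4 hw hl hζ hφ)
      (R := fun _ E v => IsCardsBelow E (v 0) (v 1) (v 2) ∧ IsInj E (v 3) (v 2) (v 0))
      (.and (dfn_isCardsBelow _ _ _) (dfn_isInj _ _ _)) (Dfn.const False) (fun p hp => ?_)
      ⟨hC, hf⟩
    let R : Cond → ℕ → Lam → Prop := fun q n ξ => q ≤ p ∧
      Fc q ![onN Cond n, onN Cond ξ.toOrd.1, ζ, φ]
        (fun _ E v => E (v 1) (v 2) ∧ Rel E (v 3) (v 1) (v 0))
    obtain ⟨q, hq, F, hF, hcov⟩ := cover_omega (W := Lam) (R := R)
      (fun q q' i w h hle => ⟨hle.trans h.1, h.2.mono hle⟩) (by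
        intro q i w w' h h'
        obtain ⟨g', hg', -, u, hu⟩ := exists_gen_set q ![onN Cond i, onN Cond w.toOrd.1,
          onN Cond w'.toOrd.1, φ, ζ, onN Cond ω, onN Cond (ℶ_ (ω_ 1)).ord] (L := ∅)
          Set.countable_empty
        have h0 : g'.Den (onN Cond i) (u 0) := hu 0
        have h1 : g'.Den (onN Cond w.toOrd.1) (u 1) := hu 1
        have h2 : g'.Den (onN Cond w'.toOrd.1) (u 2) := hu 2
        have h3 : g'.Den φ (u 3) := hu 3
        have h4 : g'.Den ζ (u 4) := hu 4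
        have h5 : g'.Den (onN Cond ω) (u 5) := hu 5
        have h6 : g'.Den (onN Cond (ℶ_ (ω_ 1)).ord) (u 6) := hu 6
        have e1 : g'.E (u 1) (u 4) ∧ Rel g'.E (u 3) (u 1) (u 0) :=
          h.2 g' hg' ![u 0, u 1, u 4, u 3] (den4 h0 h1 h4 h3)
        have e2 : g'.E (u 2) (u 4) ∧ Rel g'.E (u 3) (u 2) (u 0) :=
          h'.2 g' hg' ![u 0, u 2, u 4, u 3] (den4 h0 h2 h4 h3)
        have e3 : IsInj g'.E (u 3) (u 4) (u 5) :=
          (hp g' (g'.up q hg' p h.1) ![u 5, u 6, u 4, u 3] (den4 h5 h6 h4 h3)).2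
        have e4 : u 1 = u 2 := e3.2 _ _ _ e1.1 e2.1 e1.2 e2.2
        rw [e4] at h1
        exact toOrd_inj (onN_inj h1 h2)) p
    have hlt : ∀ i : Ix, (Order.succ ((2 : Cardinal.{0}) ^ kap i)).ord < (ℶ_ (ω_ 1)).ord := by
      intro i
      rw [ord_lt_ord]
      obtain ⟨j, hj, -⟩ := exists_gt_two i i
      exact (Order.succ_le_of_lt ((two_power_kap_le hj).trans_lt (kap_lt j))).trans_lt
        (tk_lt_lam j)
    have hne : ∃ i : Ix, ∀ n,
        ToType.mk ⟨(Order.succ ((2 : Cardinal.{0}) ^ kap i)).ord, hlt i⟩ ∉ F n := by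
      by_contra hcon
      push Not at hcon
      have hinj : Function.Injective (fun i : Ix => (ToType.mk
          ⟨(Order.succ ((2 : Cardinal.{0}) ^ kap i)).ord, hlt i⟩ : Lam)) := by
        refine StrictMono.injective fun i j hij => ?_
        rw [ToType.mk.lt_iff_lt]
        change (Order.succ ((2 : Cardinal.{0}) ^ kap i)).ord <
          (Order.succ ((2 : Cardinal.{0}) ^ kap j)).ord
        rw [ord_lt_ord, Order.succ_lt_succ_iff]
        exact (two_power_kap_le hij).trans_lt (kap_lt j)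
      have h1 : (Set.univ : Set Ix) ⊆ (fun i : Ix => (ToType.mk
          ⟨(Order.succ ((2 : Cardinal.{0}) ^ kap i)).ord, hlt i⟩ : Lam)) ⁻¹' (⋃ n, F n) :=
        fun i _ => Set.mem_iUnion.2 (hcon i)
      have h2 : (Set.univ : Set Ix).Countable :=
        ((Set.countable_iUnion fun i => (hF i).countable).preimage_of_injOn
          hinj.injOn).mono h1
      rw [← le_aleph0_iff_set_countable, mk_univ, mk_ix] at h2
      exact absurd aleph0_lt_aleph_one (not_lt.2 h2)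
    obtain ⟨i, hi⟩ := hne
    refine ⟨q, hq, {onN Cond (Order.succ ((2 : Cardinal.{0}) ^ kap i)).ord},
      Set.countable_singleton _, ?_⟩
    intro g' hg' hL u hu hR
    obtain ⟨x, hx⟩ := hL _ rfl
    have h0 : g'.Den (onN Cond ω) (u 0) := hu 0
    have h1 : g'.Den (onN Cond (ℶ_ (ω_ 1)).ord) (u 1) := hu 1
    have h2 : g'.Den ζ (u 2) := hu 2
    have h3 : g'.Den φ (u 3) := hu 3
    have hxC : g'.E x (u 2) := by
      refine (hR.1 x).2 ⟨(onN_mem_iff hx h1).2 (hlt i), isCard_succ i hx, fun h => ?_⟩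
      have := (onN_mem_iff hx h0).1 h
      exact absurd this (not_lt.2 (omega_le_ord ((aleph0_le_tk i).trans (Order.le_succ _))))
    obtain ⟨y, hy, hxy, -⟩ := hR.2.1 x hxC
    obtain ⟨η, hη, hyη⟩ := (den_onN h0 y).1 hy
    obtain ⟨n, rfl⟩ := lt_omega0.1 hη
    have hx' : g'.Den (onN Cond (ToType.mk
        (⟨(Order.succ ((2 : Cardinal.{0}) ^ kap i)).ord, hlt i⟩ :
          Set.Iio (ℶ_ (ω_ 1) : Cardinal.{0}).ord)).toOrd.1) x := by
      simpa [ToType.toOrd] using hx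
    obtain ⟨r, hr, hfr⟩ := (Fc.truth (v := ![onN Cond n, _, ζ, φ])
      (a := ![y, x, u 2, u 3]) (R := fun _ E v => E (v 1) (v 2) ∧ Rel E (v 3) (v 1) (v 0))
      ((Dfn.mem 1 2).and (dfn_rel 3 1 0)) (den4 hyη hx' h2 h3)).1 ⟨hxC, hxy⟩
    obtain ⟨r', hr', h4, h5⟩ := g'.dir r hr q hg'
    exact hi n (hcov r' h5 n _ ⟨h5.trans hq, hfr.mono h4⟩)
  · intro y hy
    obtain ⟨C, hC⟩ := hex y
    refine ⟨C, hC, ?_⟩
    obtain ⟨ζ, hζ⟩ := g.exists_den C
    obtain ⟨γ, hγ, hyγ⟩ := (den_onN hl y).1 hy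
    obtain ⟨j, hj⟩ := exists_kap_of_lt (lt_ord.1 hγ)
    refine sizeLe_omega_of_countable (countable_Tc j) (v := ![onN Cond ω, onN Cond γ, ζ])
      (u := ![w, y, C]) (R := fun _ E v => IsCardsBelow E (v 0) (v 1) (v 2))
      (dfn_isCardsBelow 0 1 2) (den3 hw hyγ hζ) 2 0 rfl ?_ hC
    intro g' u hu hR x hx
    have h0 : g'.Den (onN Cond ω) (u 0) := hu 0
    have h1 : g'.Den (onN Cond γ) (u 1) := hu 1
    obtain ⟨hxy, hxc⟩ := (hR x).1 hx
    obtain ⟨κ, hκ, hxκ⟩ := (den_onN h1 x).1 hxy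
    exact ⟨κ, mem_Tc ((Ordinal.card_le_card hκ.le).trans_lt hj) hxκ h0 hxc, hxκ⟩

end Pool.Agent.H90.Frc
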