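import Pool.Agent.H90.Frc.Poset

/-!
# Chain condition of the low part
-/

set_option autoImplicit false

namespace Pool.Agent.H90.Frc

open Cardinal Ordinal

/-! ### Facts on `ω₁` and the cardinals `ℶ_i` -/

theorem exists_gt_all (f : ℕ → Ix) : ∃ a : Ix, ∀ n, f n < a := by
  have h : (⨆ n, ((f n).toOrd : Ordinal.{0}) + 1) < ω_ 1 := by
    refine iSup_add_one_lt_of_lt_cof ?_ (fun n => (f n).toOrd.2)
    rw [mk_nat, cof_omega_one]
    exact aleph0_lt_aleph_one
  refine ⟨ToType.mk ⟨_, h⟩, fun n => ?_⟩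
  rw [← ToType.mk.symm.lt_iff_lt]
  simp only [OrderIso.symm_apply_apply]
  change ((f n).toOrd : Ordinal.{0}) < _
  refine lt_of_lt_of_le (lt_add_one _) ?_
  exact le_ciSup (f := fun n => ((f n).toOrd : Ordinal.{0}) + 1) (bddAbove_of_small) n

theorem exists_gt_set {s : Set Ix} (hs : s.Countable) : ∃ a : Ix, ∀ b ∈ s, b < a := by
  rcases s.eq_empty_or_nonempty with rfl | hne
  · obtain ⟨a, -⟩ := exists_gt_all (fun _ => ToType.mk ⟨0, omega_pos 1⟩)
    exact ⟨a, by simp⟩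
  · obtain ⟨f, rfl⟩ := hs.exists_eq_range hne
    obtain ⟨a, ha⟩ := exists_gt_all f
    exact ⟨a, by rintro _ ⟨n, rfl⟩; exact ha n⟩

theorem exists_gt_two (a b : Ix) : ∃ c, a < c ∧ b < c := by
  obtain ⟨c, hc⟩ := exists_gt_set (s := {a, b}) (by simp)
  exact ⟨c, hc a (by simp), hc b (by simp)⟩

theorem mk_ix : #Ix = ℵ₁ := by
  rw [Cardinal.mk_toType]
  simp

theorem countable_lt (j : Ix) : (Set.Iio j).Countable := by
  rw [← le_aleph0_iff_set_countable]
  have h : #(Set.Iio j) < #Ix := Cardinal.mk_Iio_lt j (by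
    rw [mk_ix, type_toType]
    simp)
  rw [mk_ix, ← succ_aleph0] at h
  exact Order.lt_succ_iff.1 h

theorem countable_le (j : Ix) : (Set.Iic j).Countable := by
  obtain ⟨a, ha, -⟩ := exists_gt_two j j
  exact (countable_lt a).mono (fun i hi => lt_of_le_of_lt hi ha)

theorem kap_mono {i j : Ix} (h : i ≤ j) : kap i ≤ kap j :=
  beth_mono (by exact_mod_cast ToType.mk.symm.le_iff_le.2 h)

theorem two_power_kap_le {i j : Ix} (h : i < j) : 2 ^ kap i ≤ kap j := by
  rw [kap, kap, ← beth_succ]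
  refine beth_mono (Order.succ_le_of_lt ?_)
  exact_mod_cast ToType.mk.symm.lt_iff_lt.2 h

theorem two_power_kap_mono {i j : Ix} (h : i ≤ j) : (2 : Cardinal.{0}) ^ kap i ≤ 2 ^ kap j :=
  power_le_power_left two_ne_zero (kap_mono h)

theorem kap_lt (i : Ix) : kap i < 2 ^ kap i := cantor _

theorem aleph0_le_tk (i : Ix) : ℵ₀ ≤ (2 : Cardinal.{0}) ^ kap i :=
  (aleph0_le_kap i).trans (kap_lt i).le

theorem tk_mul_self (i : Ix) : (2 : Cardinal.{0}) ^ kap i * 2 ^ kap i = 2 ^ kap i :=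
  mul_eq_self (aleph0_le_tk i)

theorem tk_power {i j : Ix} (h : i ≤ j) : ((2 : Cardinal.{0}) ^ kap j) ^ kap i = 2 ^ kap j := by
  rw [← power_mul, mul_eq_left (aleph0_le_kap j) (kap_mono h)
    (ne_of_gt (lt_of_lt_of_le aleph0_pos (aleph0_le_kap i)))]

theorem tk_power_aleph0 (j : Ix) : ((2 : Cardinal.{0}) ^ kap j) ^ ℵ₀ = 2 ^ kap j := by
  rw [← power_mul, mul_eq_left (aleph0_le_kap j) (aleph0_le_kap j) aleph0_ne_zero]

theorem aleph1_le_tk (j : Ix) : ℵ₁ ≤ (2 : Cardinal.{0}) ^ kap j := by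
  rw [← succ_aleph0]
  exact Order.succ_le_of_lt ((aleph0_le_kap j).trans_lt (kap_lt j))

/-! ### The chain condition -/

/-- `r` extends the low part of `a`. -/
def LowLe (j : Ix) (r a : Cond) : Prop := (∀ i ≤ j, Ext (a.c i) (r.c i)) ∧ Ext a.s r.s

/-- the low parts of `a` and `b` are compatible -/
def LowCompat (j : Ix) (a b : Cond) : Prop := ∃ r, LowLe j r a ∧ LowLe j r b

/-- the support of the Silver part -/
def supp (a : Cond) : Set Lam := {ξ | ∃ n, a.s (ξ, n) ≠ none}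

/-- the type of traces -/
abbrev Tr (j : Ix) (D : Set Lam) : Type :=
  (∀ i : Set.Iic j, {g : Set (Dm i × Vl i) // #g ≤ kap j}) ×
    {g : Set ((D × ℕ) × Bool) // #g ≤ ℵ₀}

theorem mk_tr_le (j : Ix) (D : Set Lam) (hD : #D ≤ 2 ^ kap j) : #(Tr j D) ≤ 2 ^ kap j := by
  rw [Cardinal.mk_prod, Cardinal.lift_id, Cardinal.lift_id, Cardinal.mk_pi]
  refine (mul_le_mul' ?_ ?_).trans (tk_mul_self j).le
  · have h1 : ∀ i : Set.Iic j, #{g : Set (Dm i × Vl i) // #g ≤ kap j} ≤ 2 ^ kap j := by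
      intro i
      refine (mk_bounded_set_le _ _).trans ?_
      have h2 : max #(Dm i × Vl i) ℵ₀ ≤ 2 ^ kap j := by
        refine max_le ?_ (aleph0_le_tk j)
        rw [Cardinal.mk_prod, Cardinal.lift_id, Cardinal.lift_id, mk_ord_toType, mk_ord_toType]
        refine (mul_le_mul' ?_ (two_power_kap_mono i.2)).trans (tk_mul_self j).le
        exact (Order.succ_le_of_lt (kap_lt i)).trans (two_power_kap_mono i.2)
      exact (power_le_power_right h2).trans (tk_power le_rfl).le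
    refine (Cardinal.prod_le_prod _ _ h1).trans ?_
    rw [Cardinal.prod_const, Cardinal.lift_id, Cardinal.lift_id]
    have h3 : #(Set.Iic j) ≤ ℵ₀ := le_aleph0_iff_set_countable.2 (countable_le j)
    refine (power_le_power_left (ne_of_gt (lt_of_lt_of_le aleph0_pos (aleph0_le_tk j))) h3).trans ?_
    exact (tk_power_aleph0 j).le
  · refine (mk_bounded_set_le _ _).trans ?_
    have h2 : max #((D × ℕ) × Bool) ℵ₀ ≤ 2 ^ kap j := by
      refine max_le ?_ (aleph0_le_tk j)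
      simp only [Cardinal.mk_prod, Cardinal.lift_id]
      refine (mul_le_mul' ((mul_le_mul' hD ?_).trans (tk_mul_self j).le) ?_).trans
        (tk_mul_self j).le
      · rw [mk_nat]; exact aleph0_le_tk j
      · exact (mk_le_aleph0 (α := Bool)).trans (aleph0_le_tk j)
    exact (power_le_power_right h2).trans (tk_power_aleph0 j).le

theorem mk_graph_le {α β : Type} (f : α → Option β) :
    #{x : α × β | f x.1 = some x.2} ≤ #{a // f a ≠ none} := by
  refine Cardinal.mk_le_of_injective (f := fun x => ⟨x.1.1, ?_⟩) ?_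
  · have h : f x.1.1 = some x.1.2 := x.2
    rw [h]
    simp
  · rintro ⟨⟨a, b⟩, h⟩ ⟨⟨a', b'⟩, h'⟩ he
    simp only [Subtype.mk.injEq] at he
    subst he
    have h1 : f a = some b := h
    have h2 : f a = some b' := h'
    rw [h1] at h2
    cases h2
    rfl

/-- the trace of a condition on `D` -/
noncomputable def tr (j : Ix) (D : Set Lam) (a : Cond) : Tr j D :=
  (fun i => ⟨{x | a.c i x.1 = some x.2}, (mk_graph_le _).trans ((a.hc i).trans (kap_mono i.2))⟩,
   ⟨{x | a.s (x.1.1, x.1.2) = some x.2}, by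
      rw [le_aleph0_iff_set_countable]
      have h1 : Set.Countable {x : Lam × ℕ × Bool | x.1 ∈ supp a} := by
        have := a.hs.prod (Set.countable_univ (α := ℕ × Bool))
        refine this.mono ?_
        rintro ⟨ξ, n, b⟩ h
        exact ⟨h, trivial⟩
      refine Set.Countable.mono ?_ (h1.preimage_of_injOn
        (f := fun x : (D × ℕ) × Bool => ((x.1.1 : Lam), x.1.2, x.2)) ?_)
      · rintro ⟨⟨ξ, n⟩, b⟩ h
        exact ⟨n, by rw [show a.s (ξ.1, n) = some b from h]; simp⟩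
      · rintro ⟨⟨ξ, n⟩, b⟩ - ⟨⟨ξ', n'⟩, b'⟩ - h
        simp only [Prod.mk.injEq] at h
        obtain ⟨h1, rfl, rfl⟩ := h
        rw [Subtype.ext h1]⟩)

theorem tr_eq_c {j : Ix} {D : Set Lam} {a b : Cond} (h : tr j D a = tr j D b) {i : Ix}
    (hi : i ≤ j) : a.c i = b.c i := by
  have h1 := congrFun (congrArg Prod.fst h) ⟨i, hi⟩
  have h2 : ({x | a.c i x.1 = some x.2} : Set (Dm i × Vl i)) = {x | b.c i x.1 = some x.2} :=
    congrArg Subtype.val h1
  refine Ext.antisymm (fun d v hv => ?_) (fun d v hv => ?_)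
  · have : (d, v) ∈ ({x | a.c i x.1 = some x.2} : Set (Dm i × Vl i)) := hv
    rw [h2] at this
    exact this
  · have : (d, v) ∈ ({x | b.c i x.1 = some x.2} : Set (Dm i × Vl i)) := hv
    rw [← h2] at this
    exact this

theorem tr_eq_s {j : Ix} {D : Set Lam} {a b : Cond} (h : tr j D a = tr j D b) {ξ : Lam}
    (hξ : ξ ∈ D) (n : ℕ) : a.s (ξ, n) = b.s (ξ, n) := by
  have h1 := congrArg Prod.snd h
  have h2 : ({x | a.s (x.1.1, x.1.2) = some x.2} : Set ((D × ℕ) × Bool)) =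
      {x | b.s (x.1.1, x.1.2) = some x.2} := congrArg Subtype.val h1
  have key : ∀ v : Bool, a.s (ξ, n) = some v ↔ b.s (ξ, n) = some v := by
    intro v
    have := Set.ext_iff.1 h2 ((⟨ξ, hξ⟩, n), v)
    exact this
  rcases ha : a.s (ξ, n) with _ | v
  · rcases hb : b.s (ξ, n) with _ | v
    · rfl
    · rw [(key v).2 hb] at ha
      cases ha
  · exact ((key v).1 ha).symm

/-- If two conditions have the same trace on `D` and live on disjoint sets outside `D`, then
their low parts are compatible. -/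
theorem lowCompat_of_tr {j : Ix} {D : Set Lam} {a b : Cond} (h : tr j D a = tr j D b)
    (hab : ∀ ξ ∈ supp a, ξ ∈ supp b → ξ ∈ D) : LowCompat j a b := by
  classical
  have key : ∀ ξ, (∀ n, a.s (ξ, n) = b.s (ξ, n)) ∨ (∀ n, a.s (ξ, n) = none) ∨
      (∀ n, b.s (ξ, n) = none) := by
    intro ξ
    by_cases hξ : ξ ∈ D
    · exact Or.inl fun n => tr_eq_s h hξ n
    · by_cases ha : ξ ∈ supp a
      · right; right
        intro n
        by_contra hcon
        exact hξ (hab ξ ha ⟨n, hcon⟩)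
      · right; left
        intro n
        by_contra hcon
        exact ha ⟨n, hcon⟩
  refine ⟨⟨a.c, fun x => (a.s x).or (b.s x), a.hc, ?_, ?_⟩, ?_, ?_⟩
  · refine (a.hs.union b.hs).mono ?_
    rintro ξ ⟨n, hn⟩
    by_cases h1 : a.s (ξ, n) = none
    · right
      refine ⟨n, ?_⟩
      rw [h1, Option.none_or] at hn
      exact hn
    · exact Or.inl ⟨n, h1⟩
  · intro ξ
    rcases key ξ with h1 | h1 | h1
    · refine (a.hf ξ).mono ?_
      intro n hn
      have hn' : a.s (ξ, n) = none := hn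
      change (a.s (ξ, n)).or (b.s (ξ, n)) = none
      rw [← h1 n, hn']
      rfl
    · refine (b.hf ξ).mono ?_
      intro n hn
      have hn' : b.s (ξ, n) = none := hn
      change (a.s (ξ, n)).or (b.s (ξ, n)) = none
      rw [h1 n, hn']
      rfl
    · refine (a.hf ξ).mono ?_
      intro n hn
      have hn' : a.s (ξ, n) = none := hn
      change (a.s (ξ, n)).or (b.s (ξ, n)) = none
      rw [h1 n, hn']
      rfl
  · exact ⟨fun i _ => Ext.refl _, fun x v hv => by
      change (a.s x).or (b.s x) = some v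
      rw [hv]
      rfl⟩
  · refine ⟨fun i hi => ?_, fun x v hv => ?_⟩
    · change Ext (b.c i) (a.c i)
      rw [tr_eq_c h hi]
      exact Ext.refl _
    · change (a.s x).or (b.s x) = some v
      obtain ⟨ξ, n⟩ := x
      rcases key ξ with h1 | h1 | h1
      · rw [h1 n, hv]
        rfl
      · rw [h1 n, hv]
        rfl
      · rw [h1 n] at hv
        cases hv

theorem mk_supp_le {j : Ix} {B : Set Cond} (hB : #B ≤ 2 ^ kap j) :
    #(⋃ b ∈ B, supp b : Set Lam) ≤ 2 ^ kap j := by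
  have h1 : #(⋃ b : B, supp (b : Cond) : Set Lam) ≤ #B * ⨆ b : B, #(supp (b : Cond)) :=
    mk_iUnion_le _
  have h2 : (⋃ b ∈ B, supp b : Set Lam) = ⋃ b : B, supp (b : Cond) := by
    rw [Set.iUnion_coe_set]
  rw [h2]
  refine h1.trans ((mul_le_mul' hB ?_).trans (tk_mul_self j).le)
  exact ciSup_le' fun b => (le_aleph0_iff_set_countable.2 b.1.hs).trans (aleph0_le_tk j)

/-- The low part has the `(2^κ_j)⁺`-chain condition. -/
theorem low_cc (j : Ix) (A : Set Cond) (hA : ∀ a ∈ A, ∀ b ∈ A, LowCompat j a b → a = b) :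
    #A ≤ 2 ^ kap j := by
  classical
  -- representatives of the traces
  have hB : ∀ D : Set Lam, ∃ B ⊆ A, (#D ≤ 2 ^ kap j → #B ≤ 2 ^ kap j) ∧
      ∀ a ∈ A, ∃ b ∈ B, tr j D a = tr j D b := by
    intro D
    have h1 : ∀ t : {t : Tr j D // ∃ a ∈ A, tr j D a = t}, ∃ a ∈ A, tr j D a = t := fun t => t.2
    choose f hf hf' using h1
    refine ⟨Set.range f, ?_, fun hD => ?_, fun a ha => ?_⟩
    · rintro _ ⟨t, rfl⟩
      exact hf t
    · exact mk_range_le.trans ((mk_subtype_le _).trans (mk_tr_le j D hD))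
    · exact ⟨f ⟨tr j D a, a, ha, rfl⟩, ⟨_, rfl⟩, (hf' ⟨tr j D a, a, ha, rfl⟩).symm⟩
  choose B hBA hBc hBt using hB
  -- the closing off
  have hDex : ∃ D : Ix → Set Lam, ∀ α, D α = ⋃ β : Set.Iio α, ⋃ b ∈ B (D β), supp b := by
    let D : Ix → Set Lam := (wellFounded_lt (α := Ix)).fix
      (fun α D => ⋃ β : Set.Iio α, ⋃ b ∈ B (D β β.2), supp b)
    exact ⟨D, fun α => (wellFounded_lt (α := Ix)).fix_eq _ α⟩
  obtain ⟨D, hD⟩ := hDex
  have hDc : ∀ α, #(D α) ≤ 2 ^ kap j := by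
    intro α
    induction α using (wellFounded_lt (α := Ix)).induction with
    | _ α ih =>
      rw [hD]
      refine (mk_iUnion_le _).trans ((mul_le_mul' ?_ ?_).trans (tk_mul_self j).le)
      · exact (le_aleph0_iff_set_countable.2 (countable_lt α)).trans (aleph0_le_tk j)
      · exact ciSup_le' fun β => mk_supp_le (hBc _ (ih β.1 β.2))
  have hDm : ∀ α β, α ≤ β → D α ⊆ D β := by
    intro α β h ξ hξ
    rw [hD] at hξ ⊢
    obtain ⟨γ, hγ⟩ := Set.mem_iUnion.1 hξ
    exact Set.mem_iUnion.2 ⟨⟨γ.1, lt_of_lt_of_le γ.2 h⟩, hγ⟩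
  have hcov : A ⊆ ⋃ α : Ix, B (D α) := by
    intro a ha
    -- find `α`
    have h1 : ∀ ξ : {ξ // ξ ∈ supp a ∧ ∃ α, ξ ∈ D α}, ∃ α, ξ.1 ∈ D α := fun ξ => ξ.2.2
    choose f hf using h1
    have hc : (Set.range f).Countable := by
      have : Countable {ξ // ξ ∈ supp a ∧ ∃ α, ξ ∈ D α} :=
        (a.hs.mono (fun ξ (h : ξ ∈ supp a ∧ ∃ α, ξ ∈ D α) => h.1)).to_subtype
      exact Set.countable_range f
    obtain ⟨α, hα⟩ := exists_gt_set hc
    have h2 : ∀ ξ ∈ supp a, (∃ β, ξ ∈ D β) → ξ ∈ D α := by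
      intro ξ hξ hβ
      exact hDm _ _ (hα _ ⟨⟨ξ, hξ, hβ⟩, rfl⟩).le (hf ⟨ξ, hξ, hβ⟩)
    obtain ⟨b, hb, htr⟩ := hBt (D α) a ha
    have h3 : LowCompat j a b := by
      refine lowCompat_of_tr htr fun ξ hξa hξb => h2 ξ hξa ?_
      obtain ⟨β, hβ, -⟩ := exists_gt_two α α
      refine ⟨β, ?_⟩
      rw [hD]
      exact Set.mem_iUnion.2 ⟨⟨α, hβ⟩, Set.mem_biUnion hb hξb⟩
    have h4 := hA a ha b (hBA _ hb) h3
    rw [h4]
    exact Set.mem_iUnion.2 ⟨α, hb⟩
  refine (mk_le_mk_of_subset hcov).trans ((mk_iUnion_le _).trans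
    ((mul_le_mul' ?_ ?_).trans (tk_mul_self j).le))
  · rw [mk_ix]; exact aleph1_le_tk j
  · exact ciSup_le' fun α => hBc _ (hDc α)

end Pool.Agent.H90.Frc
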