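import Pool.Agent.H90.Frc.Meager

/-!
# `cov(M) = ℵ₁` in the extension
-/

set_option autoImplicit false

namespace Pool.Agent.H90.Frc

open Ordinal Cardinal

variable {g : Gen Cond}

/-- the first index -/
noncomputable def i0 : Ix := ToType.mk ⟨0, omega_pos 1⟩

theorem kap_i0 : kap i0 = ℵ₀ := by
  simp [kap, i0, ToType.toOrd]

theorem succ_kap_i0 : (Order.succ (kap i0)).ord = ω_ 1 := by
  rw [kap_i0, succ_aleph0]
  simp

theorem exists_decM : ∃ f : Vl i0 → MCode, Function.Surjective f := by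
  have h : #MCode ≤ #(Vl i0) := by
    rw [mk_ord_toType, kap_i0]
    exact mk_mcode_le
  obtain ⟨e⟩ := h
  exact ⟨Function.invFun e, Function.invFun_surjective e.injective⟩

/-- decoding of the values of the first collapse as codes of meager sets -/
noncomputable def decM : Vl i0 → MCode := exists_decM.choose

theorem decM_surj : Function.Surjective decM := exists_decM.choose_spec

/-- the name of the family of all meager sets coded in the ground model -/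
noncomputable def famN : Name Cond := .mk MCode mN (fun _ => ⊤)

/-- the name of the generic enumeration of this family in type `ω₁` -/
noncomputable def f1N : Name Cond :=
  relN (ι := {z : (Dm i0 × Vl i0) × Cond // z.2.c i0 z.1.1 = some z.1.2})
    (fun z => onN Cond z.1.1.1.toOrd.1) (fun z => mN (decM z.1.1.2)) (fun z => z.1.2)

theorem mem_famN {F X : g.M} (hF : g.Den famN F) : g.E X F ↔ ∃ H, g.Den (mN H) X := by
  rw [Gen.mem_iff hF]
  constructor
  · rintro ⟨H, -, h⟩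
    exact ⟨H, h⟩
  · rintro ⟨H, h⟩
    exact ⟨H, g.top_mem, h⟩

/-- every meager set is a subset of a member of the family -/
theorem exists_fam {w l R F X : g.M} (hw : g.Den (onN Cond ω) w) (hl : g.Den (ltN Cond) l)
    (hR : g.Den rN R) (hF : g.Den famN F) (hX : IsMeager g.E w w l R X) :
    ∃ Y, g.E Y F ∧ IsSub g.E X Y := by
  obtain ⟨χ, hχ⟩ := g.exists_den X
  refine Gen.tp (v := ![onN Cond ω, ltN Cond, rN, χ, famN]) (a := ![w, l, R, X, F])
    (den5 hw hl hR hχ hF) (R := fun _ E v => IsMeager E (v 0) (v 0) (v 1) (v 2) (v 3))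
    (S := fun _ E v => ∃ Y, E Y (v 4) ∧ IsSub E (v 3) Y) (dfn_isMeager 0 0 1 2 3)
    (.ex (.and (.mem _ _) (dfn_isSub _ _))) (fun p hp => ?_) hX
  have hp' : Fc p ![onN Cond ω, ltN Cond, rN, χ]
      (fun _ E v => IsMeager E (v 0) (v 0) (v 1) (v 2) (v 3)) := by
    refine Fc.with_names (dfn_isMeager 0 0 1 2 3) (L := {famN}) (by simp) ?_
    intro g hg hL u hu
    obtain ⟨F, hF⟩ := hL _ rfl
    exact hp g hg ![u 0, u 1, u 2, u 3, F] (den5 (hu 0) (hu 1) (hu 2) (hu 3) hF)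
  obtain ⟨q, hq, H, hH⟩ := meager_cover hp'
  refine ⟨q, hq, {mN H}, by simp, ?_⟩
  intro g' hg' hL u hu _
  obtain ⟨Y, hY⟩ := hL _ rfl
  exact ⟨Y, (mem_famN (hu 4)).2 ⟨H, hY⟩, hH g' hg' ![u 3, Y] (den2 (hu 3) hY)⟩

/-- `|F| ≤ ℵ₁` -/
theorem sizeLe_fam {F o : g.M} (hF : g.Den famN F) (ho : g.Den (onN Cond (ω_ 1)) o) :
    SizeLe g.E F o := by
  refine Gen.tn (v := ![famN, onN Cond (ω_ 1)]) (a := ![F, o]) (den2 hF ho) Dfn.true
    (dfn_sizeLe 0 1) (L := {f1N}) (Set.countable_singleton _) ?_ trivial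
  intro g' hL u hu _
  obtain ⟨f, hf⟩ := hL _ rfl
  have e0 : g'.Den famN (u 0) := hu 0
  have e1 : g'.Den (onN Cond (ω_ 1)) (u 1) := hu 1
  have hRel := fun x y => den_relN hf x y
  refine g'.zfc.sizeLe_of_surj g'.wf_E (F := f) (onN_total e1) (onN_trans e1) ?_ ?_
  · intro x y y' _ _ _ h2 h3
    obtain ⟨⟨⟨⟨d, v⟩, q⟩, hz⟩, hq, h4, h5⟩ := (hRel x y).1 h2
    obtain ⟨⟨⟨⟨d', v'⟩, q'⟩, hz'⟩, hq', h4', h5'⟩ := (hRel x y').1 h3
    have : d = d' := toOrd_inj (onN_inj h4 h4')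
    subst this
    obtain ⟨r, hr, h6, h7⟩ := g'.dir q hq q' hq'
    have h8 := h6.1 i0 d v hz
    have h9 := h7.1 i0 d v' hz'
    rw [h8] at h9
    cases h9
    exact h5.unique h5'
  · intro y hy
    obtain ⟨H, hH⟩ := (mem_famN e0).1 hy
    refine Gen.tp (v := ![onN Cond (ω_ 1), f1N, mN H]) (a := ![u 1, f, y])
      (den3 e1 hf hH) Dfn.true (S := fun _ E v => ∃ x, E x (v 0) ∧ Rel E (v 1) x (v 2))
      (.ex (.and (.mem _ _) (dfn_rel _ _ _))) (fun p _ => ?_) trivial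
    obtain ⟨d, hd⟩ := exists_free_dm p i0
    obtain ⟨v, hv⟩ := decM_surj H
    refine ⟨p.setC i0 d v, setC_le hd, {onN Cond d.toOrd.1}, Set.countable_singleton _, ?_⟩
    intro g3 hg3 hL3 u3 hu3 _
    obtain ⟨x, hx⟩ := hL3 _ rfl
    have e0 : g3.Den (onN Cond (ω_ 1)) (u3 0) := hu3 0
    have e1 : g3.Den f1N (u3 1) := hu3 1
    have e2 : g3.Den (mN H) (u3 2) := hu3 2
    refine ⟨x, (den_onN e0 x).2 ⟨_, ?_, hx⟩, ?_⟩
    · rw [← succ_kap_i0]
      exact d.toOrd.2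
    · refine (den_relN e1 x _).2 ⟨⟨((d, v), p.setC i0 d v), setC_c⟩, hg3, hx, ?_⟩
      dsimp only
      rw [hv]
      exact e2

/-- the family covers the reals -/
theorem fam_covers {w l R F x : g.M} (hw : g.Den (onN Cond ω) w) (hl : g.Den (ltN Cond) l)
    (hR : g.Den rN R) (hF : g.Den famN F) (hx : g.E x R) : ∃ X, g.E X F ∧ g.E x X := by
  obtain ⟨X, hX⟩ := g.zfc.pairing x x
  obtain ⟨Y, hY, hsub⟩ := exists_fam hw hl hR hF (isMeager_singleton hw hl hx hX)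
  exact ⟨Y, hY, hsub x ((hX x).2 (Or.inl rfl))⟩

/-- `cov(M) ≤ ℵ₁` -/
theorem covLe_omega1 {w l R o : g.M} (hw : g.Den (onN Cond ω) w) (hl : g.Den (ltN Cond) l)
    (hR : g.Den rN R) (ho : g.Den (onN Cond (ω_ 1)) o) : CovLe g.E w w l R o := by
  refine Gen.tn (v := ![onN Cond ω, ltN Cond, rN, onN Cond (ω_ 1)]) (a := ![w, l, R, o])
    (den4 hw hl hR ho) Dfn.true (S := fun _ E v => CovLe E (v 0) (v 0) (v 1) (v 2) (v 3))
    (dfn_covLe 0 0 1 2 3) (L := {famN}) (Set.countable_singleton _) ?_ trivial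
  intro g' hL u hu _
  obtain ⟨F, hF⟩ := hL _ rfl
  have e0 : g'.Den (onN Cond ω) (u 0) := hu 0
  have e1 : g'.Den (ltN Cond) (u 1) := hu 1
  have e2 : g'.Den rN (u 2) := hu 2
  have e3 : g'.Den (onN Cond (ω_ 1)) (u 3) := hu 3
  refine ⟨F, sizeLe_fam hF e3, fun X hX => ?_, fun x hx => fam_covers e0 e1 e2 hF hx⟩
  obtain ⟨H, hH⟩ := (mem_famN hF).1 hX
  exact isMeager_mN e0 e1 e2 hH

/-- the statement that the `k`-th member of the family is covered by a given set -/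
def CvB : Pred 4 := fun _ E v => ∀ X, E X (v 0) → Rel E (v 1) X (v 2) → IsSub E X (v 3)

theorem dfn_cvB : Dfn CvB := .all (.imp (.mem _ _) (.imp (dfn_rel _ _ _) (dfn_isSub _ _)))

/-- the hypothesis of the Baire category theorem -/
def CvH : Pred 5 := fun _ E v => IsInj E (v 4) (v 3) (v 0) ∧
  (∀ X, E X (v 3) → IsMeager E (v 0) (v 0) (v 1) (v 2) X) ∧
  ∀ x, E x (v 2) → ∃ X, E X (v 3) ∧ E x X

theorem dfn_cvH : Dfn CvH :=
  .and (dfn_isInj _ _ _) (.and (.all (.imp (.mem _ _) (dfn_isMeager _ _ _ _ _)))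
    (.all (.imp (.mem _ _) (.ex (.and (.mem _ _) (.mem _ _))))))

/-- **Baire category theorem** in the extension -/
theorem not_covLe_omega {w l R : g.M} (hw : g.Den (onN Cond ω) w) (hl : g.Den (ltN Cond) l)
    (hR : g.Den rN R) : ¬ CovLe g.E w w l R w := by
  rintro ⟨G, ⟨f, hf⟩, hG, hcov⟩
  obtain ⟨Γ, hΓ⟩ := g.exists_den G
  obtain ⟨φ, hφ⟩ := g.exists_den f
  refine Gen.tp (v := ![onN Cond ω, ltN Cond, rN, Γ, φ]) (a := ![w, l, R, G, f])
    (den5 hw hl hR hΓ hφ) (R := CvH) dfn_cvH (Dfn.const False) (fun p hp => ?_)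
    ⟨hf, hG, hcov⟩
  -- monotonicity in the code
  have hmonoH : ∀ (q : Cond) (k : ℕ) (H H' : MCode), (∀ X, InM H X → InM H' X) →
      Fc q ![Γ, φ, onN Cond k, mN H] CvB → Fc q ![Γ, φ, onN Cond k, mN H'] CvB := by
    intro q k H H' hHH h
    refine Fc.with_names dfn_cvB
      (L := {onN Cond ω, ltN Cond, rN, mN H, HN Cond H, HN Cond H'}) (by simp) ?_
    intro g hg hL u hu X hX hXk x hx
    obtain ⟨w, hw⟩ := hL (onN Cond ω) (by simp)
    obtain ⟨l, hl⟩ := hL (ltN Cond) (by simp)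
    obtain ⟨R, hR⟩ := hL rN (by simp)
    obtain ⟨Y, hY⟩ := hL (mN H) (by simp)
    obtain ⟨h1, hh1⟩ := hL (HN Cond H) (by simp)
    obtain ⟨h2, hh2⟩ := hL (HN Cond H') (by simp)
    have e3 : g.Den (mN H') (u 3) := hu 3
    have h3 : g.E x Y := h g hg ![u 0, u 1, u 2, Y] (den4 (hu 0) (hu 1) (hu 2) hY) X hX hXk x hx
    rw [mem_mN hw hl hR hh1 hY] at h3
    exact (mem_mN hw hl hR hh2 e3).2 ⟨h3.1, hHH _ h3.2⟩
  -- density
  have hd : ∀ (k : ℕ), ∀ r ≤ p, ∃ r' ≤ r, ∃ H, Fc r' ![Γ, φ, onN Cond k, mN H] CvB := by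
    intro k r hr
    obtain ⟨g, hg, -, a, ha⟩ := exists_gen_set r ![onN Cond ω, ltN Cond, rN, Γ, φ] (L := ∅)
      Set.countable_empty
    obtain ⟨hf, hG, -⟩ := hp g (g.up r hg p hr) a ha
    have e0 : g.Den (onN Cond ω) (a 0) := ha 0
    have e1 : g.Den (ltN Cond) (a 1) := ha 1
    have e2 : g.Den rN (a 2) := ha 2
    have e3 : g.Den Γ (a 3) := ha 3
    have e4 : g.Den φ (a 4) := ha 4
    obtain ⟨m, hm⟩ := exists_den_nat e0 k
    by_cases hex : ∃ X, g.E X (a 3) ∧ Rel g.E (a 4) X m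
    · obtain ⟨X, hX, hXm⟩ := hex
      obtain ⟨χ, hχ⟩ := g.exists_den X
      obtain ⟨r1, hr1, hf1⟩ := (Fc.truth (v := ![onN Cond ω, ltN Cond, rN, χ])
        (a := ![a 0, a 1, a 2, X])
        (R := fun _ E v => IsMeager E (v 0) (v 0) (v 1) (v 2) (v 3))
        (dfn_isMeager 0 0 1 2 3) (den4 e0 e1 e2 hχ)).1 (hG X hX)
      obtain ⟨r2, hr2, hf2⟩ := (Fc.truth (v := ![Γ, φ, onN Cond k, χ])
        (a := ![a 3, a 4, m, X]) (R := fun _ E v => E (v 3) (v 0) ∧ Rel E (v 1) (v 3) (v 2))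
        ((Dfn.mem 3 0).and (dfn_rel 1 3 2)) (den4 e3 e4 hm hχ)).1 ⟨hX, hXm⟩
      obtain ⟨r3, hr3, h1, h2⟩ := g.dir r hg r1 hr1
      obtain ⟨r4, hr4, h3, h4⟩ := g.dir r3 hr3 r2 hr2
      obtain ⟨q, hq, H, hH⟩ := meager_cover (hf1.mono (h3.trans h2))
      refine ⟨q, hq.trans (h3.trans h1), H, ?_⟩
      refine Fc.with_names dfn_cvB (L := {onN Cond ω, ltN Cond, rN, χ}) (by simp) ?_
      intro g' hg' hL u hu X' hX' hX'k
      obtain ⟨w', hw'⟩ := hL (onN Cond ω) (by simp)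
      obtain ⟨l', hl'⟩ := hL (ltN Cond) (by simp)
      obtain ⟨R', hR'⟩ := hL rN (by simp)
      obtain ⟨X0, hX0⟩ := hL χ (by simp)
      have u3 : g'.Den (mN H) (u 3) := hu 3
      have h5 : g'.E X0 (u 0) ∧ Rel g'.E (u 1) X0 (u 2) :=
        hf2 g' (g'.up q hg' r2 (hq.trans h4)) ![u 0, u 1, u 2, X0]
          (den4 (hu 0) (hu 1) (hu 2) hX0)
      obtain ⟨hf', -, -⟩ := hp g' (g'.up q hg' p (hq.trans (h3.trans (h1.trans hr))))
        ![w', l', R', u 0, u 1] (den5 hw' hl' hR' (hu 0) (hu 1))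
      have h6 : X' = X0 := hf'.2 _ _ _ hX' h5.1 hX'k h5.2
      rw [h6]
      exact hH g' hg' ![X0, u 3] (den2 hX0 u3)
    · obtain ⟨r1, hr1, hf1⟩ := (Fc.truth (v := ![Γ, φ, onN Cond k])
        (a := ![a 3, a 4, m]) (R := fun _ E v => ¬ ∃ X, E X (v 0) ∧ Rel E (v 1) X (v 2))
        (.not (.ex (.and (.mem _ _) (dfn_rel _ _ _)))) (den3 e3 e4 hm)).1 hex
      obtain ⟨r2, hr2, h1, h2⟩ := g.dir r hg r1 hr1
      refine ⟨r2, h1, Classical.arbitrary _, ?_⟩
      intro g' hg' u hu X hX hXk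
      exact absurd ⟨X, hX, hXk⟩ (hf1 g' (g'.up _ hg' _ h2) ![u 0, u 1, u 2]
        (den3 (hu 0) (hu 1) (hu 2)))
  -- fusion
  obtain ⟨q, hq, hS⟩ := fusion (p := p)
    (S := fun k _ q => ∃ H, Fc q ![Γ, φ, onN Cond k, mN H] CvB)
    (by
      rintro k F q q' ⟨H, hH⟩ hle -
      exact ⟨H, hH.mono hle⟩)
    (by
      intro k F q hqp hq
      have key : ∀ T : Finset (Finset Pos), ∃ q' ≤ q, Free F q' ∧ ∃ H, ∀ t ∈ T,
          Fc (q'.ex F t) ![Γ, φ, onN Cond k, mN H] CvB := by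
        intro T
        induction T using Finset.induction_on with
        | empty => exact ⟨q, le_rfl, hq, Classical.arbitrary _, by simp⟩
        | insert t T _ ih =>
          obtain ⟨q', hq', hfree, H, h4⟩ := ih
          obtain ⟨r, hr, H', h8⟩ := hd k (q'.ex F t) ((ex_le hfree).trans (hq'.trans hqp))
          have hj0 : ∀ X, InM H X → InM (joinM (fun n => if n = 0 then H else H')) X :=
            fun X hX => InM.join (n := 0) (by simpa using hX)
          have hj1 : ∀ X, InM H' X → InM (joinM (fun n => if n = 0 then H else H')) X :=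
            fun X hX => InM.join (n := 1) (by simpa using hX)
          refine ⟨r.erase F, (erase_le hfree hr).trans hq', free_erase _ _,
            joinM (fun n => if n = 0 then H else H'), ?_⟩
          intro u hu
          rcases Finset.mem_insert.1 hu with rfl | hu
          · rw [erase_ex hr]
            exact hmonoH _ _ _ _ hj1 h8
          · exact hmonoH _ _ _ _ hj0 ((h4 u hu).mono (ex_mono _ _ (erase_le hfree hr)))
      obtain ⟨q', hq', hfree, H, h4⟩ := key F.powerset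
      exact ⟨q', hq', hfree, H, fc_of_ex dfn_cvB fun t ht => h4 t (Finset.mem_powerset.2 ht)⟩)
  have hS' : ∀ k : ℕ, ∃ H, Fc q ![Γ, φ, onN Cond k, mN H] CvB := fun k => by
    obtain ⟨-, -, h⟩ := hS k
    exact h
  choose H hH using hS'
  obtain ⟨X0, hX0a, hX0b, hX0c, hX0d, hX0⟩ := exists_cut_not_inM (joinM H)
  refine ⟨q, hq, {gN Cond X0} ∪ Set.range (fun k => mN (H k)) ∪
    Set.range (fun k => HN Cond (H k)), ?_, ?_⟩
  · exact ((Set.countable_singleton _).union (Set.countable_range _)).union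
      (Set.countable_range _)
  · intro g' hg' hL u hu hR'
    obtain ⟨hf', -, hcov'⟩ := hR'
    obtain ⟨x, hx⟩ := hL (gN Cond X0) (by simp)
    have u0 : g'.Den (onN Cond ω) (u 0) := hu 0
    have u1 : g'.Den (ltN Cond) (u 1) := hu 1
    have u2 : g'.Den rN (u 2) := hu 2
    have hxs := gN_spec u0 hx
    have hxR : g'.E x (u 2) := (isReals_rN u0 u1 u2 x).2
      ((isCut_iff u0 u1 x).2 ⟨hxs.1, by rw [hxs.2]; exact ⟨hX0a, hX0b, hX0c, hX0d⟩⟩)
    obtain ⟨X, hX, hxX⟩ := hcov' x hxR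
    obtain ⟨m, hm, hXm, -⟩ := hf'.1 X hX
    obtain ⟨β, hβ, hmβ⟩ := (den_onN u0 m).1 hm
    obtain ⟨k, rfl⟩ := lt_omega0.1 hβ
    obtain ⟨Y, hY⟩ := hL (mN (H k)) (by simp)
    obtain ⟨h, hh⟩ := hL (HN Cond (H k)) (by simp)
    have h1 : g'.E x Y := hH k g' hg' ![u 3, u 4, m, Y] (den4 (hu 3) (hu 4) hmβ hY) X hX hXm x hxX
    rw [mem_mN u0 u1 u2 hh hY, hxs.2] at h1
    exact hX0 h1.2.join

end Pool.Agent.H90.Frc
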