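import Mathlib

/-!
# First-order set theory: formulas, models of ZFC, and the statement about Luzin sets

Everything here is about an arbitrary structure `(M, E)` with one binary relation `E`, read as
membership.  All quantifiers of the predicates below range over the elements of `M`.
-/

set_option autoImplicit false

namespace Pool.Agent.H90.Frc

/-- Append one value to an assignment of `n` variables. -/
def ext {α : Type*} {n : ℕ} (v : Fin n → α) (a : α) : Fin (n + 1) → α :=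
  fun i => if h : i.1 < n then v ⟨i.1, h⟩ else a

/-- First-order formulas in the language of set theory (one binary relation symbol, equality)
with free variables indexed by `Fin n`.  A quantifier binds the last variable. -/
inductive Fml : ℕ → Type
  | mem {n : ℕ} (i j : Fin n) : Fml n
  | eq {n : ℕ} (i j : Fin n) : Fml n
  | neg {n : ℕ} (φ : Fml n) : Fml n
  | and {n : ℕ} (φ ψ : Fml n) : Fml n
  | all {n : ℕ} (φ : Fml (n + 1)) : Fml n

/-- Satisfaction of a formula in a structure `(M, E)` (Tarski). -/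
def Sat {M : Type} (E : M → M → Prop) : {n : ℕ} → Fml n → (Fin n → M) → Prop
  | _, .mem i j, v => E (v i) (v j)
  | _, .eq i j, v => v i = v j
  | _, .neg φ, v => ¬ Sat E φ v
  | _, .and φ ψ, v => Sat E φ v ∧ Sat E ψ v
  | _, .all φ, v => ∀ a, Sat E φ (ext v a)

/-- `(M, E)` is a model of ZFC: extensionality, foundation, pairing, union, power set, infinity,
the separation and replacement schemes (for all first-order formulas with parameters), choice. -/
structure ZFC {M : Type} (E : M → M → Prop) : Prop where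
  extensionality : ∀ a b, (∀ z, E z a ↔ E z b) → a = b
  foundation : ∀ a, (∃ z, E z a) → ∃ z, E z a ∧ ∀ w, E w z → ¬ E w a
  pairing : ∀ a b, ∃ c, ∀ z, E z c ↔ z = a ∨ z = b
  union : ∀ a, ∃ b, ∀ z, E z b ↔ ∃ y, E y a ∧ E z y
  power : ∀ a, ∃ b, ∀ z, E z b ↔ ∀ w, E w z → E w a
  infinity : ∃ a, (∃ z, E z a ∧ ∀ w, ¬ E w z) ∧
    ∀ z, E z a → ∃ s, E s a ∧ ∀ w, E w s ↔ E w z ∨ w = z
  separation : ∀ {n : ℕ} (φ : Fml (n + 1)) (v : Fin n → M) (a : M),
    ∃ b, ∀ z, E z b ↔ E z a ∧ Sat E φ (ext v z)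
  replacement : ∀ {n : ℕ} (φ : Fml (n + 2)) (v : Fin n → M) (a : M),
    (∀ x, E x a → ∃! y, Sat E φ (ext (ext v x) y)) →
      ∃ b, ∀ y, E y b ↔ ∃ x, E x a ∧ Sat E φ (ext (ext v x) y)
  choice : ∀ a, (∀ x, E x a → ∃ z, E z x) →
    (∀ x y, E x a → E y a → x ≠ y → ¬ ∃ z, E z x ∧ E z y) →
      ∃ c, ∀ x, E x a → ∃! z, E z x ∧ E z c

section Vocabulary

variable {M : Type} (E : M → M → Prop)

/-- `a ⊆ b` -/
def IsSub (a b : M) : Prop := ∀ z, E z a → E z b

/-- `c = {a, b}` -/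
def IsPair (a b c : M) : Prop := ∀ z, E z c ↔ z = a ∨ z = b

/-- `c = (a, b) = {{a}, {a, b}}` -/
def IsOPair (a b c : M) : Prop := ∃ s t, IsPair E a a s ∧ IsPair E a b t ∧ IsPair E s t c

/-- `(a, b) ∈ f` -/
def Rel (f a b : M) : Prop := ∃ c, IsOPair E a b c ∧ E c f

/-- `f` restricted to `a` is an injective function from `a` to `b`. -/
def IsInj (f a b : M) : Prop :=
  (∀ x, E x a → ∃ y, E y b ∧ Rel E f x y ∧ ∀ z, Rel E f x z → z = y) ∧
    ∀ x x' y, E x a → E x' a → Rel E f x y → Rel E f x' y → x = x'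

/-- `|a| ≤ |b|` -/
def SizeLe (a b : M) : Prop := ∃ f, IsInj E f a b

/-- `|a| < |b|` -/
def SizeLt (a b : M) : Prop := SizeLe E a b ∧ ¬ SizeLe E b a

/-- `|a| = |b|` (Cantor-Bernstein) -/
def SizeEq (a b : M) : Prop := SizeLe E a b ∧ SizeLe E b a

/-- `a` is an ordinal: a transitive set of transitive sets. -/
def IsOrd (a : M) : Prop := (∀ x, E x a → IsSub E x a) ∧ ∀ x, E x a → ∀ y, E y x → IsSub E y x

/-- `b = a ∪ {a}` -/
def IsSucc (a b : M) : Prop := ∀ z, E z b ↔ E z a ∨ z = a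

/-- `w = ω`: a nonempty ordinal without last element all of whose elements are `0` or successors. -/
def IsOmega (w : M) : Prop :=
  IsOrd E w ∧ (∃ x, E x w) ∧ (∀ x, E x w → ∃ y, E y w ∧ E x y) ∧
    ∀ x, E x w → (∀ z, ¬ E z x) ∨ ∃ y, IsSucc E y x

/-- `k` is a cardinal (an initial ordinal) -/
def IsCard (k : M) : Prop := IsOrd E k ∧ ∀ b, E b k → ¬ SizeLe E k b

/-- `k` is an infinite cardinal; `w` stands for `ω`. -/
def IsInfCard (w k : M) : Prop := IsCard E k ∧ ¬ E k w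

/-- `o = ω₁`: an uncountable ordinal all of whose elements are countable; `w` stands for `ω`. -/
def IsOmega1 (w o : M) : Prop := IsOrd E o ∧ ¬ SizeLe E o w ∧ ∀ b, E b o → SizeLe E b w

/-- `C` is the set of the infinite cardinals below the ordinal `l`. -/
def IsCardsBelow (w l C : M) : Prop := ∀ k, E k C ↔ E k l ∧ IsInfCard E w k

/-- `l = ℵ_{ω₁}`: `l` is a cardinal, there are uncountably many infinite cardinals below `l`, and
for every `g < l` there are only countably many infinite cardinals below `g` (so that the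
infinite cardinals below `l` have order type `ω₁`). -/
def IsAlephOmega1 (w l : M) : Prop :=
  IsCard E l ∧ (∃ C, IsCardsBelow E w l C ∧ ¬ SizeLe E C w) ∧
    ∀ g, E g l → ∃ C, IsCardsBelow E w g C ∧ SizeLe E C w

/-- `(Q, lt)` is a countable dense linear order without endpoints (so it is isomorphic to the
rationals); `w` stands for `ω`. -/
def IsRat (w Q lt : M) : Prop :=
  SizeLe E Q w ∧ (∃ a, E a Q) ∧ (∀ a, E a Q → ¬ Rel E lt a a) ∧
  (∀ a b c, E a Q → E b Q → E c Q → Rel E lt a b → Rel E lt b c → Rel E lt a c) ∧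
  (∀ a b, E a Q → E b Q → a = b ∨ Rel E lt a b ∨ Rel E lt b a) ∧
  (∀ a b, E a Q → E b Q → Rel E lt a b → ∃ c, E c Q ∧ Rel E lt a c ∧ Rel E lt c b) ∧
  (∀ a, E a Q → ∃ b, E b Q ∧ Rel E lt a b) ∧
  (∀ a, E a Q → ∃ b, E b Q ∧ Rel E lt b a)

/-- `x` is a Dedekind cut of `(Q, lt)`: a nonempty proper initial segment without maximum. -/
def IsCut (Q lt x : M) : Prop :=
  IsSub E x Q ∧ (∃ a, E a x) ∧ (∃ a, E a Q ∧ ¬ E a x) ∧
  (∀ a b, E a x → E b Q → Rel E lt b a → E b x) ∧
  (∀ a, E a x → ∃ b, E b x ∧ Rel E lt a b)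

/-- `R` is the set of all Dedekind cuts of `(Q, lt)`, that is, the set of real numbers. -/
def IsReals (Q lt R : M) : Prop := ∀ x, E x R ↔ IsCut E Q lt x

/-- `X` (a set of cuts) is nowhere dense: between any two `a < b` in `Q` there are `c < d` in `Q`
such that no `x ∈ X` lies in the interval `{x | c ∈ x, d ∉ x}`, that is, in `(c, d]`. -/
def IsNwd (Q lt X : M) : Prop :=
  ∀ a b, E a Q → E b Q → Rel E lt a b → ∃ c d, E c Q ∧ E d Q ∧ Rel E lt a c ∧ Rel E lt c d ∧
    Rel E lt d b ∧ ∀ x, E x X → ¬ (E c x ∧ ¬ E d x)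

/-- `X` is a meager subset of `R`: the union of a countable set `N` of nowhere dense subsets
of `R`. -/
def IsMeager (w Q lt R X : M) : Prop :=
  ∃ N, SizeLe E N w ∧ (∀ y, E y N → IsSub E y R ∧ IsNwd E Q lt y) ∧
    ∀ x, E x X ↔ ∃ y, E y N ∧ E x y

/-- A family of at most `|k|` meager sets covers the real line, that is, `cov(M) ≤ |k|`. -/
def CovLe (w Q lt R k : M) : Prop :=
  ∃ F, SizeLe E F k ∧ (∀ X, E X F → IsMeager E w Q lt R X) ∧ ∀ x, E x R → ∃ X, E X F ∧ E x X

/-- `L` is a `c`-Luzin set: `L ⊆ R`, `|L| = |R|` and `|L ∩ X| < |R|` for all meager `X`. -/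
def IsLuzin (w Q lt R L : M) : Prop :=
  IsSub E L R ∧ SizeEq E L R ∧
    ∀ X, IsMeager E w Q lt R X → ∀ Y, (∀ z, E z Y ↔ E z L ∧ E z X) → SizeLt E Y R

/-- The statement `cov(M) = ℵ₁ < c = ℵ_{ω₁}` and there is a `c`-Luzin set, in `(M, E)`. -/
def LuzinStatement : Prop :=
  ∃ w o l Q lt R, IsOmega E w ∧ IsOmega1 E w o ∧ IsAlephOmega1 E w l ∧ IsRat E w Q lt ∧
    IsReals E Q lt R ∧ (CovLe E w Q lt R o ∧ ¬ CovLe E w Q lt R w) ∧ SizeLt E o R ∧
    SizeEq E R l ∧ ∃ L, IsLuzin E w Q lt R L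

end Vocabulary

end Pool.Agent.H90.Frc
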