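import Pool.Agent.H90.Frc.Name
import Pool.Agent.H90.Frc.Stmt

/-!
# First-order formulas of set theory, satisfaction, definable predicates, forcing of formulas
-/

set_option autoImplicit false

namespace Pool.Agent.H90.Frc

@[simp] theorem ext_castSucc {α : Type*} {n : ℕ} (v : Fin n → α) (a : α) (i : Fin n) :
    ext v a i.castSucc = v i := by simp [ext]

@[simp] theorem ext_last {α : Type*} {n : ℕ} (v : Fin n → α) (a : α) :
    ext v a (Fin.last n) = a := by simp [ext]

theorem ext_vec0 {α : Type*} (v : Fin 0 → α) (b : α) : ext v b = ![b] := by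
  funext i; fin_cases i; rfl

theorem ext_vec1 {α : Type*} (a b : α) : ext ![a] b = ![a, b] := by
  funext i; fin_cases i <;> rfl

theorem ext_vec2 {α : Type*} (a b c : α) : ext ![a, b] c = ![a, b, c] := by
  funext i; fin_cases i <;> rfl

theorem ext_vec3 {α : Type*} (a b c d : α) : ext ![a, b, c] d = ![a, b, c, d] := by
  funext i; fin_cases i <;> rfl

theorem ext_vec4 {α : Type*} (a b c d e : α) : ext ![a, b, c, d] e = ![a, b, c, d, e] := by
  funext i; fin_cases i <;> rfl

theorem ext_vec5 {α : Type*} (a b c d e f : α) :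
    ext ![a, b, c, d, e] f = ![a, b, c, d, e, f] := by
  funext i; fin_cases i <;> rfl

theorem ext_vec6 {α : Type*} (a b c d e f g : α) :
    ext ![a, b, c, d, e, f] g = ![a, b, c, d, e, f, g] := by
  funext i; fin_cases i <;> rfl

theorem ext_comp {α β : Type*} {n : ℕ} (f : α → β) (v : Fin n → α) (a : α) :
    (fun i => f (ext v a i)) = ext (fun i => f (v i)) (f a) := by
  funext i
  refine Fin.lastCases ?_ (fun j => ?_) i <;> simp

theorem ext_forall {α : Type*} {n : ℕ} {v : Fin n → α} {a : α} {p : Fin (n + 1) → α → Prop}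
    (h : ∀ i : Fin n, p i.castSucc (v i)) (h' : p (Fin.last n) a) : ∀ i, p i (ext v a i) := by
  intro i
  refine Fin.lastCases ?_ (fun j => ?_) i
  · simpa using h'
  · simpa using h j

theorem ext_self {α : Type*} {n : ℕ} (w : Fin (n + 1) → α) :
    ext (fun i : Fin n => w i.castSucc) (w (Fin.last n)) = w := by
  funext i
  refine Fin.lastCases ?_ (fun j => ?_) i <;> simp

/-- Renaming of variables. -/
def Fml.rename : {n m : ℕ} → (Fin n → Fin m) → Fml n → Fml m
  | _, _, f, .mem i j => .mem (f i) (f j)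
  | _, _, f, .eq i j => .eq (f i) (f j)
  | _, _, f, .neg φ => .neg (φ.rename f)
  | _, _, f, .and φ ψ => .and (φ.rename f) (ψ.rename f)
  | _, m, f, .all φ => .all (φ.rename (ext (fun i => (f i).castSucc) (Fin.last m)))

theorem sat_rename {M : Type} (E : M → M → Prop) {n m : ℕ} (f : Fin n → Fin m) (φ : Fml n)
    (v : Fin m → M) : Sat E (φ.rename f) v ↔ Sat E φ (fun i => v (f i)) := by
  induction φ generalizing m with
  | mem i j => rfl
  | eq i j => rfl
  | neg φ ih => simp [Fml.rename, Sat, ih]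
  | and φ ψ ih ih' => simp [Fml.rename, Sat, ih, ih']
  | all φ ih =>
    simp only [Fml.rename, Sat, ih]
    refine forall_congr' fun a => ?_
    have : (fun i => ext v a (ext (fun i => (f i).castSucc) (Fin.last m) i)) =
        ext (fun i => v (f i)) a := by
      funext i
      refine Fin.lastCases ?_ (fun j => ?_) i <;> simp
    rw [this]

/-- a code for formulas, used only to see that there are countably many of them -/
def Fml.enc : {n : ℕ} → Fml n → ℕ
  | _, .mem i j => 5 * Nat.pair i j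
  | _, .eq i j => 5 * Nat.pair i j + 1
  | _, .neg φ => 5 * φ.enc + 2
  | _, .and φ ψ => 5 * Nat.pair φ.enc ψ.enc + 3
  | _, .all φ => 5 * φ.enc + 4

theorem Fml.enc_inj {n : ℕ} (φ ψ : Fml n) (h : φ.enc = ψ.enc) : φ = ψ := by
  induction φ with
  | mem i j =>
    cases ψ <;> simp only [Fml.enc] at h <;> first | omega | skip
    next k l =>
      have : Nat.pair i j = Nat.pair k l := by omega
      rw [Nat.pair_eq_pair] at this
      rw [Fin.ext this.1, Fin.ext this.2]
  | eq i j =>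
    cases ψ <;> simp only [Fml.enc] at h <;> first | omega | skip
    next k l =>
      have : Nat.pair i j = Nat.pair k l := by omega
      rw [Nat.pair_eq_pair] at this
      rw [Fin.ext this.1, Fin.ext this.2]
  | neg φ ih =>
    cases ψ <;> simp only [Fml.enc] at h <;> first | omega | skip
    next k => rw [ih k (by omega)]
  | and φ φ' ih ih' =>
    cases ψ <;> simp only [Fml.enc] at h <;> first | omega | skip
    next k l =>
      have : Nat.pair φ.enc φ'.enc = Nat.pair k.enc l.enc := by omega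
      rw [Nat.pair_eq_pair] at this
      rw [ih k this.1, ih' l this.2]
  | all φ ih =>
    cases ψ <;> simp only [Fml.enc] at h <;> first | omega | skip
    next k => rw [ih k (by omega)]

instance {n : ℕ} : Countable (Fml n) :=
  Function.Injective.countable (f := Fml.enc) (fun φ ψ => Fml.enc_inj φ ψ)

/-! ### Definable predicates -/

/-- A predicate on structures with `n` arguments. -/
abbrev Pred (n : ℕ) := ∀ (M : Type) (_ : M → M → Prop), (Fin n → M) → Prop

/-- A predicate is definable if it is given by a first-order formula. -/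
def Dfn {n : ℕ} (R : Pred n) : Prop :=
  ∃ φ : Fml n, ∀ (M : Type) (E : M → M → Prop) (v : Fin n → M), Sat E φ v ↔ R M E v

namespace Dfn

variable {n m : ℕ} {R S : Pred n}

theorem of_fml (φ : Fml n) : Dfn (fun M E v => Sat (M := M) E φ v) := ⟨φ, fun _ _ _ => Iff.rfl⟩

theorem mem (i j : Fin n) : Dfn (fun _ E v => E (v i) (v j)) :=
  ⟨.mem i j, fun _ _ _ => Iff.rfl⟩

theorem eq (i j : Fin n) : Dfn (fun _ _ v => v i = v j) :=
  ⟨.eq i j, fun _ _ _ => Iff.rfl⟩

theorem not (h : Dfn R) : Dfn (fun M E v => ¬ R M E v) := by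
  obtain ⟨φ, hφ⟩ := h
  exact ⟨.neg φ, fun M E v => by simp [Sat, hφ]⟩

theorem and (h : Dfn R) (h' : Dfn S) : Dfn (fun M E v => R M E v ∧ S M E v) := by
  obtain ⟨φ, hφ⟩ := h
  obtain ⟨ψ, hψ⟩ := h'
  exact ⟨.and φ ψ, fun M E v => by simp [Sat, hφ, hψ]⟩

theorem congr (h : Dfn R) (h' : ∀ M E v, S M E v ↔ R M E v) : Dfn S := by
  obtain ⟨φ, hφ⟩ := h
  exact ⟨φ, fun M E v => by rw [hφ, h']⟩

theorem or (h : Dfn R) (h' : Dfn S) : Dfn (fun M E v => R M E v ∨ S M E v) :=
  (h.not.and h'.not).not.congr fun M E v => by tauto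

theorem imp (h : Dfn R) (h' : Dfn S) : Dfn (fun M E v => R M E v → S M E v) :=
  (h.and h'.not).not.congr fun M E v => by tauto

theorem iff (h : Dfn R) (h' : Dfn S) : Dfn (fun M E v => R M E v ↔ S M E v) :=
  ((h.imp h').and (h'.imp h)).congr fun M E v => by tauto

theorem all {R : ∀ (M : Type) (_ : M → M → Prop), (Fin n → M) → M → Prop}
    (h : Dfn (n := n + 1) (fun M E w => R M E (fun i => w i.castSucc) (w (Fin.last n)))) :
    Dfn (fun M E v => ∀ z, R M E v z) := by
  obtain ⟨φ, hφ⟩ := h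
  exact ⟨.all φ, fun M E v => by simp [Sat, hφ]⟩

theorem ex {R : ∀ (M : Type) (_ : M → M → Prop), (Fin n → M) → M → Prop}
    (h : Dfn (n := n + 1) (fun M E w => R M E (fun i => w i.castSucc) (w (Fin.last n)))) :
    Dfn (fun M E v => ∃ z, R M E v z) :=
  (all (R := fun M E v z => ¬ R M E v z) h.not).not.congr fun M E v => by push Not; rfl

theorem rename (h : Dfn R) (f : Fin n → Fin m) : Dfn (fun M E v => R M E (fun i => v (f i))) := by
  obtain ⟨φ, hφ⟩ := h
  exact ⟨φ.rename f, fun M E v => by rw [sat_rename, hφ]⟩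

theorem true : Dfn (n := n) (fun _ _ _ => True) :=
  (all (R := fun _ _ _ _ => True) ((eq (Fin.last n) (Fin.last n)).congr (by simp))).congr
    (by simp)

theorem const (p : Prop) : Dfn (n := n) (fun _ _ _ => p) := by
  by_cases h : p
  · exact true.congr (by simp [h])
  · exact true.not.congr (by simp [h])

end Dfn

/-! ### The vocabulary is definable -/

section

variable {n : ℕ}

theorem dfn_isSub (i j : Fin n) : Dfn (fun _ E v => IsSub E (v i) (v j)) :=
  .all (.imp (.mem _ _) (.mem _ _))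

theorem dfn_isPair (i j k : Fin n) : Dfn (fun _ E v => IsPair E (v i) (v j) (v k)) :=
  .all (.iff (.mem _ _) (.or (.eq _ _) (.eq _ _)))

theorem dfn_isOPair (i j k : Fin n) : Dfn (fun _ E v => IsOPair E (v i) (v j) (v k)) :=
  .ex (.ex (.and (dfn_isPair _ _ _) (.and (dfn_isPair _ _ _) (dfn_isPair _ _ _))))

theorem dfn_rel (i j k : Fin n) : Dfn (fun _ E v => Rel E (v i) (v j) (v k)) :=
  .ex (.and (dfn_isOPair _ _ _) (.mem _ _))

theorem dfn_isInj (i j k : Fin n) : Dfn (fun _ E v => IsInj E (v i) (v j) (v k)) :=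
  .and (.all (.imp (.mem _ _) (.ex (.and (.mem _ _) (.and (dfn_rel _ _ _)
    (.all (.imp (dfn_rel _ _ _) (.eq _ _))))))))
    (.all (.all (.all (.imp (.mem _ _) (.imp (.mem _ _) (.imp (dfn_rel _ _ _)
      (.imp (dfn_rel _ _ _) (.eq _ _))))))))

theorem dfn_sizeLe (i j : Fin n) : Dfn (fun _ E v => SizeLe E (v i) (v j)) :=
  .ex (dfn_isInj _ _ _)

theorem dfn_sizeLt (i j : Fin n) : Dfn (fun _ E v => SizeLt E (v i) (v j)) :=
  .and (dfn_sizeLe _ _) (.not (dfn_sizeLe _ _))

theorem dfn_sizeEq (i j : Fin n) : Dfn (fun _ E v => SizeEq E (v i) (v j)) :=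
  .and (dfn_sizeLe _ _) (dfn_sizeLe _ _)

theorem dfn_isOrd (i : Fin n) : Dfn (fun _ E v => IsOrd E (v i)) :=
  .and (.all (.imp (.mem _ _) (dfn_isSub _ _)))
    (.all (.imp (.mem _ _) (.all (.imp (.mem _ _) (dfn_isSub _ _)))))

theorem dfn_isSucc (i j : Fin n) : Dfn (fun _ E v => IsSucc E (v i) (v j)) :=
  .all (.iff (.mem _ _) (.or (.mem _ _) (.eq _ _)))

theorem dfn_isOmega (i : Fin n) : Dfn (fun _ E v => IsOmega E (v i)) :=
  .and (dfn_isOrd _) (.and (.ex (.mem _ _)) (.and (.all (.imp (.mem _ _)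
    (.ex (.and (.mem _ _) (.mem _ _))))) (.all (.imp (.mem _ _) (.or (.all (.not (.mem _ _)))
    (.ex (dfn_isSucc _ _)))))))

theorem dfn_isCard (i : Fin n) : Dfn (fun _ E v => IsCard E (v i)) :=
  .and (dfn_isOrd _) (.all (.imp (.mem _ _) (.not (dfn_sizeLe _ _))))

theorem dfn_isInfCard (i j : Fin n) : Dfn (fun _ E v => IsInfCard E (v i) (v j)) :=
  .and (dfn_isCard _) (.not (.mem _ _))

theorem dfn_isOmega1 (i j : Fin n) : Dfn (fun _ E v => IsOmega1 E (v i) (v j)) :=
  .and (dfn_isOrd _) (.and (.not (dfn_sizeLe _ _)) (.all (.imp (.mem _ _) (dfn_sizeLe _ _))))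

theorem dfn_isCardsBelow (i j k : Fin n) :
    Dfn (fun _ E v => IsCardsBelow E (v i) (v j) (v k)) :=
  .all (.iff (.mem _ _) (.and (.mem _ _) (dfn_isInfCard _ _)))

theorem dfn_isAlephOmega1 (i j : Fin n) : Dfn (fun _ E v => IsAlephOmega1 E (v i) (v j)) :=
  .and (dfn_isCard _) (.and (.ex (.and (dfn_isCardsBelow _ _ _) (.not (dfn_sizeLe _ _))))
    (.all (.imp (.mem _ _) (.ex (.and (dfn_isCardsBelow _ _ _) (dfn_sizeLe _ _))))))

theorem dfn_isRat (i j k : Fin n) : Dfn (fun _ E v => IsRat E (v i) (v j) (v k)) :=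
  .and (dfn_sizeLe _ _) (.and (.ex (.mem _ _)) (.and
    (.all (.imp (.mem _ _) (.not (dfn_rel _ _ _))))
    (.and (.all (.all (.all (.imp (.mem _ _) (.imp (.mem _ _) (.imp (.mem _ _)
      (.imp (dfn_rel _ _ _) (.imp (dfn_rel _ _ _) (dfn_rel _ _ _)))))))))
    (.and (.all (.all (.imp (.mem _ _) (.imp (.mem _ _) (.or (.eq _ _)
      (.or (dfn_rel _ _ _) (dfn_rel _ _ _)))))))
    (.and (.all (.all (.imp (.mem _ _) (.imp (.mem _ _) (.imp (dfn_rel _ _ _)
      (.ex (.and (.mem _ _) (.and (dfn_rel _ _ _) (dfn_rel _ _ _)))))))))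
    (.and (.all (.imp (.mem _ _) (.ex (.and (.mem _ _) (dfn_rel _ _ _)))))
      (.all (.imp (.mem _ _) (.ex (.and (.mem _ _) (dfn_rel _ _ _)))))))))))

theorem dfn_isCut (i j k : Fin n) : Dfn (fun _ E v => IsCut E (v i) (v j) (v k)) :=
  .and (dfn_isSub _ _) (.and (.ex (.mem _ _)) (.and (.ex (.and (.mem _ _) (.not (.mem _ _))))
    (.and (.all (.all (.imp (.mem _ _) (.imp (.mem _ _) (.imp (dfn_rel _ _ _) (.mem _ _))))))
    (.all (.imp (.mem _ _) (.ex (.and (.mem _ _) (dfn_rel _ _ _))))))))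

theorem dfn_isReals (i j k : Fin n) : Dfn (fun _ E v => IsReals E (v i) (v j) (v k)) :=
  .all (.iff (.mem _ _) (dfn_isCut _ _ _))

theorem dfn_isNwd (i j k : Fin n) : Dfn (fun _ E v => IsNwd E (v i) (v j) (v k)) :=
  .all (.all (.imp (.mem _ _) (.imp (.mem _ _) (.imp (dfn_rel _ _ _) (.ex (.ex
    (.and (.mem _ _) (.and (.mem _ _) (.and (dfn_rel _ _ _) (.and (dfn_rel _ _ _)
    (.and (dfn_rel _ _ _)
      (.all (.imp (.mem _ _) (.not (.and (.mem _ _) (.not (.mem _ _)))))))))))))))))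

theorem dfn_isMeager (i j k l m : Fin n) :
    Dfn (fun _ E v => IsMeager E (v i) (v j) (v k) (v l) (v m)) :=
  .ex (.and (dfn_sizeLe _ _) (.and (.all (.imp (.mem _ _) (.and (dfn_isSub _ _)
    (dfn_isNwd _ _ _)))) (.all (.iff (.mem _ _) (.ex (.and (.mem _ _) (.mem _ _)))))))

theorem dfn_covLe (i j k l m : Fin n) :
    Dfn (fun _ E v => CovLe E (v i) (v j) (v k) (v l) (v m)) :=
  .ex (.and (dfn_sizeLe _ _) (.and (.all (.imp (.mem _ _) (dfn_isMeager _ _ _ _ _)))
    (.all (.imp (.mem _ _) (.ex (.and (.mem _ _) (.mem _ _)))))))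

theorem dfn_isLuzin (i j k l m : Fin n) :
    Dfn (fun _ E v => IsLuzin E (v i) (v j) (v k) (v l) (v m)) :=
  .and (dfn_isSub _ _) (.and (dfn_sizeEq _ _) (.all (.imp (dfn_isMeager _ _ _ _ _)
    (.all (.imp (.all (.iff (.mem _ _) (.and (.mem _ _) (.mem _ _)))) (dfn_sizeLt _ _))))))

theorem dfn_luzinStatement : Dfn (n := n) (fun _ E _ => LuzinStatement E) :=
  .ex (.ex (.ex (.ex (.ex (.ex (.and (dfn_isOmega _) (.and (dfn_isOmega1 _ _)
    (.and (dfn_isAlephOmega1 _ _) (.and (dfn_isRat _ _ _) (.and (dfn_isReals _ _ _)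
    (.and (.and (dfn_covLe _ _ _ _ _) (.not (dfn_covLe _ _ _ _ _))) (.and (dfn_sizeLt _ _)
    (.and (dfn_sizeEq _ _) (.ex (dfn_isLuzin _ _ _ _ _)))))))))))))))

end

/-! ### Forcing of formulas -/

variable {P : Type} [PartialOrder P]

/-- The forcing relation for formulas. -/
def Force : {n : ℕ} → Fml n → (Fin n → Name P) → P → Prop
  | _, .mem i j, v, p => Fmem (v i) (v j) p
  | _, .eq i j, v, p => Feq (v i) (v j) p
  | _, .neg φ, v, p => ∀ q ≤ p, ¬ Force φ v q
  | _, .and φ ψ, v, p => Force φ v p ∧ Force ψ v p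
  | _, .all φ, v, p => ∀ τ, Force φ (ext v τ) p

theorem Force.mono {n : ℕ} {φ : Fml n} {v : Fin n → Name P} {p q : P} (h : Force φ v p)
    (hq : q ≤ p) : Force φ v q := by
  induction φ with
  | mem i j => exact Fmem.mono h hq
  | eq i j => exact Feq.mono h hq
  | neg φ ih => exact fun r hr => h r (hr.trans hq)
  | and φ ψ ih ih' => exact ⟨ih h.1, ih' h.2⟩
  | all φ ih => exact fun τ => ih (h τ)

theorem Force.stable {n : ℕ} {φ : Fml n} {v : Fin n → Name P} {p : P}
    (h : ∀ q ≤ p, ∃ r ≤ q, Force φ v r) : Force φ v p := by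
  induction φ generalizing p with
  | mem i j => exact Fmem.stable h
  | eq i j => exact Feq.stable h
  | neg φ ih =>
    intro q hq hf
    obtain ⟨r, hr, h'⟩ := h q hq
    exact h' r le_rfl (hf.mono hr)
  | and φ ψ ih ih' =>
    refine ⟨ih fun q hq => ?_, ih' fun q hq => ?_⟩
    · obtain ⟨r, hr, h'⟩ := h q hq
      exact ⟨r, hr, h'.1⟩
    · obtain ⟨r, hr, h'⟩ := h q hq
      exact ⟨r, hr, h'.2⟩
  | all φ ih =>
    intro τ
    refine ih fun q hq => ?_
    obtain ⟨r, hr, h'⟩ := h q hq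
    exact ⟨r, hr, h' τ⟩

theorem Force.not_not {n : ℕ} {φ : Fml n} {v : Fin n → Name P} {p : P}
    (h : Force φ.neg.neg v p) : Force φ v p := by
  apply Force.stable
  intro q hq
  have := h q hq
  simp only [Force] at this
  push Not at this
  obtain ⟨r, hr, h'⟩ := this
  exact ⟨r, hr, h'⟩

theorem force_decide {n : ℕ} (φ : Fml n) (v : Fin n → Name P) (p : P) :
    ∃ q ≤ p, Force φ v q ∨ Force φ.neg v q := by
  by_cases h : Force φ.neg v p
  · exact ⟨p, le_rfl, Or.inr h⟩
  · simp only [Force] at h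
    push Not at h
    obtain ⟨q, hq, h⟩ := h
    exact ⟨q, hq, Or.inl h⟩

theorem not_force_neg {n : ℕ} {φ : Fml n} {v : Fin n → Name P} {p : P}
    (h : Force φ v p) (h' : Force φ.neg v p) : False := h' p le_rfl h

theorem force_all_or {n : ℕ} (φ : Fml (n + 1)) (v : Fin n → Name P) (p : P) :
    ∃ q ≤ p, Force φ.all v q ∨ ∃ τ, Force φ.neg (ext v τ) q := by
  by_cases h : Force φ.all v p
  · exact ⟨p, le_rfl, Or.inl h⟩
  · simp only [Force] at h
    push Not at h
    obtain ⟨τ, hτ⟩ := h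
    by_contra hcon
    push Not at hcon
    apply hτ
    apply Force.stable
    intro q hq
    obtain ⟨r, hr, h1 | h1⟩ := force_decide φ (ext v τ) q
    · exact ⟨r, hr, h1⟩
    · exact absurd h1 ((hcon r (hr.trans hq)).2 τ)

end Pool.Agent.H90.Frc
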