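import Pool.Agent.H90.Frc.Fml

/-!
# Generic filters for countably many dense sets and the countable generic structure

`Gen P` consists of a filter `G` on `P` and a sequence `x` of names, closed under all witnesses,
such that `G` decides every formula with parameters in `x`.
-/

set_option autoImplicit false

namespace Pool.Agent.H90.Frc

variable {P : Type} [PartialOrder P]

/-- A sequence of names together with a sufficiently generic filter. -/
structure Gen (P : Type) [PartialOrder P] where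
  /-- the names -/
  x : ℕ → Name P
  /-- the filter -/
  G : Set P
  up : ∀ p ∈ G, ∀ q, p ≤ q → q ∈ G
  dir : ∀ p ∈ G, ∀ q ∈ G, ∃ r ∈ G, r ≤ p ∧ r ≤ q
  ne : G.Nonempty
  dec : ∀ {n : ℕ} (φ : Fml n) (v : Fin n → ℕ),
    ∃ p ∈ G, Force φ (fun i => x (v i)) p ∨ Force φ.neg (fun i => x (v i)) p
  wit : ∀ {n : ℕ} (φ : Fml (n + 1)) (v : Fin n → ℕ),
    (∃ p ∈ G, Force φ.all (fun i => x (v i)) p) ∨
      ∃ k, ∃ p ∈ G, Force φ.neg (ext (fun i => x (v i)) (x k)) p
  mem : ∀ k l, (∃ p ∈ G, Fmem (x k) (x l) p) →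
    ∃ i m, x m = (x l).A i ∧ (x l).r i ∈ G ∧ ∃ p ∈ G, Feq (x k) (x m) p
  cl : ∀ l, Countable (x l).idx → ∀ i, ∃ m, x m = (x l).A i

/-! ### Existence -/

/-- States of the construction: a condition and a finite list of names. -/
structure St (P : Type) where
  /-- the condition -/
  q : P
  /-- the list of names -/
  L : List (Name P)

instance : Preorder (St P) where
  le s t := t.q ≤ s.q ∧ s.L <+: t.L
  le_refl s := ⟨le_rfl, List.prefix_rfl⟩
  le_trans s t u h h' := ⟨h'.1.trans h.1, h.2.trans h'.2⟩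

/-- the `k`-th name of the state is `τ` -/
def At (s : St P) (k : ℕ) (τ : Name P) : Prop := s.L[k]? = some τ

theorem At.mono {s t : St P} {k : ℕ} {τ : Name P} (h : At s k τ) (hst : s ≤ t) : At t k τ := by
  obtain ⟨_, l, hl⟩ := hst
  unfold At at h ⊢
  have hk : k < s.L.length := by
    by_contra hcon
    rw [List.getElem?_eq_none (by omega)] at h
    cases h
  rw [← hl, List.getElem?_append_left hk, h]

omit [PartialOrder P] in
theorem At.unique {s : St P} {k : ℕ} {τ τ' : Name P} (h : At s k τ) (h' : At s k τ') : τ = τ' := by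
  unfold At at h h'
  rw [h] at h'
  exact Option.some.inj h'

theorem exists_append (s : St P) (τ : Name P) : ∃ t : St P, s ≤ t ∧ t.q = s.q ∧ ∃ k, At t k τ := by
  refine ⟨⟨s.q, s.L ++ [τ]⟩, ⟨le_rfl, List.prefix_append _ _⟩, rfl, s.L.length, ?_⟩
  simp [At]

theorem exists_len (s : St P) (m : ℕ) : ∃ t : St P, s ≤ t ∧ t.q = s.q ∧ m ≤ t.L.length := by
  induction m with
  | zero => exact ⟨s, le_rfl, rfl, Nat.zero_le _⟩
  | succ m ih =>
    obtain ⟨t, ht, hq, hm⟩ := ih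
    refine ⟨⟨t.q, t.L ++ [Name.mk Empty Empty.elim Empty.elim]⟩,
      ht.trans ⟨le_rfl, List.prefix_append _ _⟩, hq, ?_⟩
    simp only [List.length_append, List.length_cons, List.length_nil]
    omega

theorem exists_at (s : St P) {n : ℕ} (v : Fin n → ℕ) :
    ∃ t : St P, s ≤ t ∧ t.q = s.q ∧ ∃ w : Fin n → Name P, ∀ i, At t (v i) (w i) := by
  obtain ⟨t, ht, hq, hm⟩ := exists_len s (Finset.univ.sup v + 1)
  refine ⟨t, ht, hq, fun i => t.L[v i]'?_, fun i => ?_⟩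
  · have : v i ≤ Finset.univ.sup v := Finset.le_sup (Finset.mem_univ i)
    omega
  · simp [At]

theorem st_le_of_le (s : St P) {q : P} (h : q ≤ s.q) : s ≤ ⟨q, s.L⟩ := ⟨h, List.prefix_rfl⟩

theorem exists_seq (s0 : St P) {ι : Type} [Countable ι] (D : ι → Set (St P))
    (h : ∀ i s, ∃ t ∈ D i, s ≤ t) :
    ∃ s : ℕ → St P, s 0 = s0 ∧ Monotone s ∧ ∀ i, ∃ n, s n ∈ D i := by
  have := Encodable.ofCountable ι
  let C : ι → Order.Cofinal (St P) := fun i => ⟨D i, fun s => h i s⟩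
  exact ⟨Order.sequenceOfCofinals s0 C, rfl, Order.sequenceOfCofinals.monotone s0 C,
    fun i => ⟨_, Order.sequenceOfCofinals.encode_mem s0 C i⟩⟩

open Classical in
/-- an enumeration of the members of a name with countable index type -/
noncomputable def enumA (τ : Name P) (n : ℕ) : Name P :=
  if h : Nonempty τ.idx ∧ Countable τ.idx then
    τ.A (Classical.choose (@exists_surjective_nat τ.idx h.1 h.2) n) else τ

omit [PartialOrder P] in
theorem exists_enumA (τ : Name P) (h : Countable τ.idx) (i : τ.idx) : ∃ n, enumA τ n = τ.A i := by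
  have h' : Nonempty τ.idx ∧ Countable τ.idx := ⟨⟨i⟩, h⟩
  obtain ⟨n, hn⟩ := Classical.choose_spec (@exists_surjective_nat τ.idx h'.1 h'.2) i
  refine ⟨n, ?_⟩
  rw [enumA, dif_pos h', hn]

theorem exists_gen (p : P) (y : ℕ → Name P) (D : ℕ → Set P)
    (hD : ∀ n, ∀ q ≤ p, ∃ r ≤ q, r ∈ D n) :
    ∃ g : Gen P, p ∈ g.G ∧ (∀ n, ∃ k, g.x k = y n) ∧ ∀ n, ∃ q ∈ g.G, q ∈ D n := by
  classical
  obtain ⟨s, hs0, hmono, hs⟩ := exists_seq (⟨p, []⟩ : St P)
    (ι := (Σ n, Fml n × (Fin n → ℕ)) ⊕ (Σ n, Fml (n + 1) × (Fin n → ℕ)) ⊕ (ℕ × ℕ) ⊕ (ℕ × ℕ) ⊕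
      ℕ ⊕ ℕ ⊕ ℕ)
    (Sum.elim
      (fun z => {s | ∃ w, (∀ i, At s (z.2.2 i) (w i)) ∧
        (Force z.2.1 w s.q ∨ Force z.2.1.neg w s.q)})
      (Sum.elim
        (fun z => {s | ∃ w, (∀ i, At s (z.2.2 i) (w i)) ∧
          (Force z.2.1.all w s.q ∨ ∃ k τ, At s k τ ∧ Force z.2.1.neg (ext w τ) s.q)})
        (Sum.elim
          (fun z => {s | ∃ σ τ, At s z.1 σ ∧ At s z.2 τ ∧ ((∀ q ≤ s.q, ¬ Fmem σ τ q) ∨
            ∃ i m, At s m (τ.A i) ∧ s.q ≤ τ.r i ∧ Feq σ (τ.A i) s.q)})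
          (Sum.elim
            (fun z => {s | ∃ τ, At s z.1 τ ∧ ∃ m, At s m (enumA τ z.2)})
            (Sum.elim
              (fun n => {s | ∃ m, At s m (y n)})
              (Sum.elim
                (fun n => {s | s.q ∈ D n ∨ ∀ r ≤ s.q, ¬ r ≤ p})
                (fun n => {s | ∃ τ, At s n τ})))))))
    (by
      rintro (z | z | z | z | n | n | n) s
      · obtain ⟨t, ht, -, w, hw⟩ := exists_at s z.2.2
        obtain ⟨q, hq, hf⟩ := force_decide z.2.1 w t.q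
        exact ⟨⟨q, t.L⟩, ⟨w, fun i => (hw i).mono (st_le_of_le t hq), hf⟩,
          ht.trans (st_le_of_le t hq)⟩
      · obtain ⟨t, ht, -, w, hw⟩ := exists_at s z.2.2
        obtain ⟨q, hq, hf | ⟨τ, hτ⟩⟩ := force_all_or z.2.1 w t.q
        · exact ⟨⟨q, t.L⟩, ⟨w, fun i => (hw i).mono (st_le_of_le t hq), Or.inl hf⟩,
            ht.trans (st_le_of_le t hq)⟩
        · obtain ⟨u, hu, huq, k, hk⟩ := exists_append (⟨q, t.L⟩ : St P) τ
          refine ⟨u, ⟨w, fun i => (hw i).mono ((st_le_of_le t hq).trans hu),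
            Or.inr ⟨k, τ, hk, ?_⟩⟩, (ht.trans (st_le_of_le t hq)).trans hu⟩
          rw [huq]; exact hτ
      · obtain ⟨t, ht, -, w, hw⟩ := exists_at s ![z.1, z.2]
        by_cases hcon : ∀ q ≤ t.q, ¬ Fmem (w 0) (w 1) q
        · exact ⟨t, ⟨w 0, w 1, hw 0, hw 1, Or.inl hcon⟩, ht⟩
        · push Not at hcon
          obtain ⟨q, hq, hf⟩ := hcon
          obtain ⟨q', hq', i, hi, hf'⟩ := hf q le_rfl
          obtain ⟨u, hu, huq, m, hm⟩ := exists_append (⟨q', t.L⟩ : St P) ((w 1).A i)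
          have htu : t ≤ u := (st_le_of_le t (hq'.trans hq)).trans hu
          refine ⟨u, ⟨w 0, w 1, (hw 0).mono htu, (hw 1).mono htu, Or.inr ⟨i, m, hm, ?_, ?_⟩⟩,
            ht.trans htu⟩
          · rw [huq]; exact hi
          · rw [huq]; exact hf'
      · obtain ⟨t, ht, -, w, hw⟩ := exists_at s ![z.1]
        obtain ⟨u, hu, -, m, hm⟩ := exists_append t (enumA (w 0) z.2)
        exact ⟨u, ⟨w 0, (hw 0).mono hu, m, hm⟩, ht.trans hu⟩
      · obtain ⟨u, hu, -, m, hm⟩ := exists_append s (y n)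
        exact ⟨u, ⟨m, hm⟩, hu⟩
      · by_cases h : ∀ r ≤ s.q, ¬ r ≤ p
        · exact ⟨s, Or.inr h, le_rfl⟩
        · push Not at h
          obtain ⟨r, hr, hrp⟩ := h
          obtain ⟨r', hr', hd⟩ := hD n r hrp
          exact ⟨⟨r', s.L⟩, Or.inl hd, st_le_of_le s (hr'.trans hr)⟩
      · obtain ⟨t, ht, -, w, hw⟩ := exists_at s ![n]
        exact ⟨t, ⟨w 0, hw 0⟩, ht⟩)
  have hlen : ∀ k, ∃ τ, ∃ n, At (s n) k τ := by
    intro k
    obtain ⟨n, τ, h⟩ := hs (Sum.inr (Sum.inr (Sum.inr (Sum.inr (Sum.inr (Sum.inr k))))))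
    exact ⟨τ, n, h⟩
  choose x nx hx using hlen
  have huniq : ∀ n k τ, At (s n) k τ → x k = τ := by
    intro n k τ h
    have h1 := h.mono (hmono (le_max_left n (nx k)))
    have h2 := (hx k).mono (hmono (le_max_right n (nx k)))
    exact h2.unique h1
  have hG : ∀ n, (s n).q ∈ {q | ∃ n, (s n).q ≤ q} := fun n => ⟨n, le_rfl⟩
  refine ⟨{ x := x
            G := {q | ∃ n, (s n).q ≤ q}
            up := ?_, dir := ?_, ne := ⟨_, hG 0⟩, dec := ?_, wit := ?_, mem := ?_, cl := ?_ },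
    ?_, ?_, ?_⟩
  · rintro a ⟨n, hn⟩ b hab
    exact ⟨n, hn.trans hab⟩
  · rintro a ⟨n, hn⟩ b ⟨m, hm⟩
    exact ⟨_, hG (max n m), (hmono (le_max_left n m)).1.trans hn,
      (hmono (le_max_right n m)).1.trans hm⟩
  · intro n φ v
    obtain ⟨k, w, hw, hf⟩ := hs (Sum.inl ⟨n, φ, v⟩)
    refine ⟨_, hG k, ?_⟩
    have : (fun i => x (v i)) = w := funext fun i => huniq k _ _ (hw i)
    rw [this]; exact hf
  · intro n φ v
    obtain ⟨k, w, hw, hf⟩ := hs (Sum.inr (Sum.inl ⟨n, φ, v⟩))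
    have : (fun i => x (v i)) = w := funext fun i => huniq k _ _ (hw i)
    rw [this]
    rcases hf with hf | ⟨m, τ, hm, hf⟩
    · exact Or.inl ⟨_, hG k, hf⟩
    · refine Or.inr ⟨m, _, hG k, ?_⟩
      rw [huniq k _ _ hm]; exact hf
  · rintro k l ⟨a, ⟨n, hn⟩, hmem⟩
    obtain ⟨j, σ, τ, hσ, hτ, hf⟩ := hs (Sum.inr (Sum.inr (Sum.inl ⟨k, l⟩)))
    have hk : x k = σ := huniq _ _ _ hσ
    have hl : x l = τ := huniq _ _ _ hτ
    subst hk hl
    rcases hf with hf | ⟨i, m, hm, hr, hf⟩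
    · exfalso
      exact hf (s (max n j)).q (hmono (le_max_right n j)).1
        (hmem.mono ((hmono (le_max_left n j)).1.trans hn))
    · have hm' := huniq _ _ _ hm
      refine ⟨i, m, hm', ⟨j, hr⟩, _, hG j, ?_⟩
      rw [hm']; exact hf
  · intro l hc i
    obtain ⟨n, hn⟩ := exists_enumA (x l) hc i
    obtain ⟨j, τ, hτ, m, hm⟩ := hs (Sum.inr (Sum.inr (Sum.inr (Sum.inl ⟨l, n⟩))))
    have hl : x l = τ := huniq _ _ _ hτ
    subst hl
    exact ⟨m, (huniq _ _ _ hm).trans hn⟩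
  · refine ⟨0, ?_⟩
    rw [hs0]
  · intro n
    obtain ⟨j, m, hm⟩ := hs (Sum.inr (Sum.inr (Sum.inr (Sum.inr (Sum.inl n)))))
    exact ⟨m, huniq _ _ _ hm⟩
  · intro n
    obtain ⟨j, hj | hj⟩ := hs (Sum.inr (Sum.inr (Sum.inr (Sum.inr (Sum.inr (Sum.inl n))))))
    · exact ⟨_, hG j, hj⟩
    · exfalso
      refine hj (s (max 0 j)).q (hmono (le_max_right 0 j)).1 ?_
      have := (hmono (le_max_left 0 j)).1
      rw [hs0] at this
      exact this

/-! ### The structure -/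

namespace Gen

variable (g : Gen P)

/-- forced equality as a setoid on the indices -/
def setoid : Setoid ℕ where
  r k l := ∃ p ∈ g.G, Feq (g.x k) (g.x l) p
  iseqv :=
    { refl := fun k => by obtain ⟨p, hp⟩ := g.ne; exact ⟨p, hp, Feq.refl _ _⟩
      symm := by rintro k l ⟨p, hp, h⟩; exact ⟨p, hp, h.symm⟩
      trans := by
        rintro k l m ⟨p, hp, h⟩ ⟨q, hq, h'⟩
        obtain ⟨r, hr, h1, h2⟩ := g.dir p hp q hq
        exact ⟨r, hr, (h.mono h1).trans (h'.mono h2)⟩ }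

/-- The universe of the generic structure. -/
def M : Type := Quotient g.setoid

/-- the element given by the `k`-th name -/
def el (k : ℕ) : g.M := Quotient.mk g.setoid k

theorem el_eq_iff (k l : ℕ) : g.el k = g.el l ↔ ∃ p ∈ g.G, Feq (g.x k) (g.x l) p :=
  ⟨fun h => Quotient.exact h, fun h => Quotient.sound h⟩

theorem exists_el (a : g.M) : ∃ k, g.el k = a := Quotient.exists_rep a

/-- Membership of the generic structure. -/
def E : g.M → g.M → Prop :=
  Quotient.lift₂ (fun k l => ∃ p ∈ g.G, Fmem (g.x k) (g.x l) p) (by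
    have key : ∀ a b a' b', (∃ p ∈ g.G, Feq (g.x a) (g.x a') p) →
        (∃ p ∈ g.G, Feq (g.x b) (g.x b') p) →
        (∃ p ∈ g.G, Fmem (g.x a) (g.x b) p) → (∃ p ∈ g.G, Fmem (g.x a') (g.x b') p) := by
      rintro a b a' b' ⟨p, hp, h⟩ ⟨q, hq, h'⟩ ⟨r, hr, h''⟩
      obtain ⟨s, hs, h1, h2⟩ := g.dir p hp q hq
      obtain ⟨t, ht, h3, h4⟩ := g.dir s hs r hr
      exact ⟨t, ht, ((h''.mono h4).congr_left (h.mono (h3.trans h1))).congr_right
        (h'.mono (h3.trans h2))⟩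
    intro a b a' b' h h'
    refine propext ⟨key a b a' b' h h', key a' b' a b (g.setoid.symm h) (g.setoid.symm h')⟩)

theorem E_el (k l : ℕ) : g.E (g.el k) (g.el l) ↔ ∃ p ∈ g.G, Fmem (g.x k) (g.x l) p := Iff.rfl

theorem truth {n : ℕ} (φ : Fml n) (v : Fin n → ℕ) :
    Sat g.E φ (fun i => g.el (v i)) ↔ ∃ p ∈ g.G, Force φ (fun i => g.x (v i)) p := by
  induction φ with
  | mem i j => exact Iff.rfl
  | eq i j => exact g.el_eq_iff _ _
  | neg φ ih =>
    simp only [Sat, ih]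
    constructor
    · intro h
      obtain ⟨p, hp, h1 | h1⟩ := g.dec φ v
      · exact absurd ⟨p, hp, h1⟩ h
      · exact ⟨p, hp, h1⟩
    · rintro ⟨p, hp, h⟩ ⟨q, hq, h'⟩
      obtain ⟨r, hr, h1, h2⟩ := g.dir p hp q hq
      exact not_force_neg (h'.mono h2) (Force.mono (φ := φ.neg) h h1)
  | and φ ψ ih ih' =>
    simp only [Sat, ih, ih']
    constructor
    · rintro ⟨⟨p, hp, h⟩, ⟨q, hq, h'⟩⟩
      obtain ⟨r, hr, h1, h2⟩ := g.dir p hp q hq
      exact ⟨r, hr, h.mono h1, h'.mono h2⟩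
    · rintro ⟨p, hp, h⟩
      exact ⟨⟨p, hp, h.1⟩, ⟨p, hp, h.2⟩⟩
  | all φ ih =>
    have key : ∀ k, ext (fun i => g.el (v i)) (g.el k) = fun i => g.el (ext v k i) := by
      intro k
      exact (ext_comp g.el v k).symm
    have key' : ∀ k, (fun i => g.x (ext v k i)) = ext (fun i => g.x (v i)) (g.x k) :=
      fun k => ext_comp g.x v k
    simp only [Sat]
    constructor
    · intro h
      rcases g.wit φ v with h1 | ⟨k, p, hp, hf⟩
      · exact h1
      · exfalso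
        have h2 := h (g.el k)
        rw [key, ih, key'] at h2
        obtain ⟨q, hq, hf'⟩ := h2
        obtain ⟨r, hr, h1, h2⟩ := g.dir p hp q hq
        exact not_force_neg (hf'.mono h2) (Force.mono (φ := φ.neg) hf h1)
    · rintro ⟨p, hp, h⟩ a
      obtain ⟨k, rfl⟩ := g.exists_el a
      rw [key, ih, key']
      exact ⟨p, hp, h _⟩

/-! ### Denotation -/

/-- The name `τ` belongs to the chosen names and denotes `a`. -/
def Den (τ : Name P) (a : g.M) : Prop := ∃ k, g.x k = τ ∧ g.el k = a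

variable {g}

theorem Den.unique {τ : Name P} {a b : g.M} (h : g.Den τ a) (h' : g.Den τ b) : a = b := by
  obtain ⟨k, hk, rfl⟩ := h
  obtain ⟨l, hl, rfl⟩ := h'
  rw [el_eq_iff, hk, hl]
  obtain ⟨p, hp⟩ := g.ne
  exact ⟨p, hp, Feq.refl _ _⟩

variable (g)

theorem exists_den (a : g.M) : ∃ τ, g.Den τ a := by
  obtain ⟨k, rfl⟩ := g.exists_el a
  exact ⟨g.x k, k, rfl, rfl⟩

variable {g}

theorem den_iff {n : ℕ} {v : Fin n → Name P} {a : Fin n → g.M} :
    (∀ i, g.Den (v i) (a i)) ↔ ∃ k : Fin n → ℕ, v = (fun i => g.x (k i)) ∧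
      a = fun i => g.el (k i) := by
  constructor
  · intro h
    choose k hk hk' using h
    exact ⟨k, funext fun i => (hk i).symm, funext fun i => (hk' i).symm⟩
  · rintro ⟨k, rfl, rfl⟩ i
    exact ⟨k i, rfl, rfl⟩

theorem sat_iff {n : ℕ} {φ : Fml n} {v : Fin n → Name P} {a : Fin n → g.M}
    (h : ∀ i, g.Den (v i) (a i)) : Sat g.E φ a ↔ ∃ p ∈ g.G, Force φ v p := by
  obtain ⟨k, rfl, rfl⟩ := den_iff.1 h
  exact g.truth φ k

theorem mem_iff {τ : Name P} {a b : g.M} (h : g.Den τ b) :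
    g.E a b ↔ ∃ i, τ.r i ∈ g.G ∧ g.Den (τ.A i) a := by
  obtain ⟨l, rfl, rfl⟩ := h
  obtain ⟨k, rfl⟩ := g.exists_el a
  constructor
  · intro h
    obtain ⟨i, m, hm, hr, h'⟩ := g.mem k l h
    exact ⟨i, hr, m, hm, ((g.el_eq_iff k m).2 h').symm⟩
  · rintro ⟨i, hr, m, hm, hmk⟩
    rw [← hmk, E_el, hm]
    exact ⟨_, hr, fmem_of _ i le_rfl⟩

theorem Den.of_countable {τ : Name P} {b : g.M} (h : g.Den τ b) (hc : Countable τ.idx)
    (i : τ.idx) : ∃ a, g.Den (τ.A i) a := by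
  obtain ⟨l, rfl, rfl⟩ := h
  obtain ⟨m, hm⟩ := g.cl l hc i
  exact ⟨g.el m, m, hm, rfl⟩

theorem eq_iff {σ τ : Name P} {a b : g.M} (h : g.Den σ a) (h' : g.Den τ b) :
    a = b ↔ ∃ p ∈ g.G, Feq σ τ p := by
  obtain ⟨k, rfl, rfl⟩ := h
  obtain ⟨l, rfl, rfl⟩ := h'
  exact g.el_eq_iff k l

/-- The membership relation of the generic structure is well founded. -/
theorem wf_E (g : Gen P) : WellFounded g.E := by
  constructor
  intro b
  obtain ⟨τ, hτ⟩ := g.exists_den b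
  induction τ using Name.wf_sub.induction generalizing b with
  | _ τ ih =>
    constructor
    intro a hab
    rw [mem_iff hτ] at hab
    obtain ⟨i, -, hi⟩ := hab
    exact ih _ ⟨i, rfl⟩ a hi

end Gen

/-! ### Comparison with the forcing relation -/

/-- existence of a generic structure naming finitely many given names -/
theorem exists_gen_fin (p : P) {n : ℕ} (v : Fin n → Name P) :
    ∃ g : Gen P, p ∈ g.G ∧ ∃ a : Fin n → g.M, ∀ i, g.Den (v i) (a i) := by
  obtain ⟨g, hp, hy, -⟩ := exists_gen p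
    (fun k => if h : k < n then v ⟨k, h⟩ else Name.mk Empty Empty.elim Empty.elim)
    (fun _ => Set.univ) (fun n q _ => ⟨q, le_rfl, trivial⟩)
  refine ⟨g, hp, ?_⟩
  have : ∀ i : Fin n, ∃ a, g.Den (v i) a := by
    intro i
    obtain ⟨k, hk⟩ := hy i
    refine ⟨g.el k, k, ?_, rfl⟩
    rw [hk]; simp
  choose a ha using this
  exact ⟨a, ha⟩

theorem force_iff {n : ℕ} (φ : Fml n) (v : Fin n → Name P) (p : P) :
    Force φ v p ↔ ∀ g : Gen P, p ∈ g.G → ∀ a : Fin n → g.M, (∀ i, g.Den (v i) (a i)) →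
      Sat g.E φ a := by
  constructor
  · intro h g hp a ha
    rw [Gen.sat_iff ha]
    exact ⟨p, hp, h⟩
  · intro h
    by_contra hcon
    have : ∃ q ≤ p, Force φ.neg v q := by
      by_contra hcon'
      push Not at hcon'
      apply hcon
      apply Force.stable
      intro q hq
      obtain ⟨r, hr, h1 | h1⟩ := force_decide φ v q
      · exact ⟨r, hr, h1⟩
      · exact absurd h1 (hcon' r (hr.trans hq))
    obtain ⟨q, hq, hf⟩ := this
    obtain ⟨g, hg, a, ha⟩ := exists_gen_fin q v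
    have h1 := h g (g.up q hg p hq) a ha
    have h2 : Sat g.E φ.neg a := (Gen.sat_iff ha).2 ⟨q, hg, hf⟩
    exact h2 h1

/-- Semantic forcing of a predicate. -/
def Fc (p : P) {n : ℕ} (v : Fin n → Name P) (R : Pred n) : Prop :=
  ∀ g : Gen P, p ∈ g.G → ∀ a : Fin n → g.M, (∀ i, g.Den (v i) (a i)) → R g.M g.E a

namespace Fc

variable {p q : P} {n : ℕ} {v : Fin n → Name P} {R S : Pred n}

theorem mono (h : Fc p v R) (hq : q ≤ p) : Fc q v R :=
  fun g hg a ha => h g (g.up q hg p hq) a ha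

theorem iff_force (φ : Fml n) : Fc p v (fun _ E a => Sat E φ a) ↔ Force φ v p :=
  (force_iff φ v p).symm

theorem imp (h : Fc p v R) (h' : ∀ M E a, R M E a → S M E a) : Fc p v S :=
  fun g hg a ha => h' _ _ _ (h g hg a ha)

theorem exists_force (hR : Dfn R) : ∃ φ : Fml n, (∀ p : P, Fc p v R ↔ Force φ v p) ∧
    ∀ M E a, R M E a ↔ Sat E φ a := by
  obtain ⟨φ, hφ⟩ := hR
  refine ⟨φ, fun p => ?_, fun M E a => (hφ M E a).symm⟩
  rw [← iff_force]
  exact ⟨fun h => h.imp fun M E a => (hφ M E a).2, fun h => h.imp fun M E a => (hφ M E a).1⟩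

theorem stable (hR : Dfn R) (h : ∀ q ≤ p, ∃ r ≤ q, Fc r v R) : Fc p v R := by
  obtain ⟨φ, hφ, -⟩ := exists_force (v := v) hR
  rw [hφ]
  exact Force.stable fun q hq => by
    obtain ⟨r, hr, h'⟩ := h q hq
    exact ⟨r, hr, (hφ r).1 h'⟩

theorem decide (hR : Dfn R) (v : Fin n → Name P) (p : P) :
    ∃ q ≤ p, Fc q v R ∨ Fc q v (fun M E a => ¬ R M E a) := by
  obtain ⟨φ, hφ, hφ'⟩ := exists_force (v := v) hR
  obtain ⟨q, hq, h | h⟩ := force_decide φ v p
  · exact ⟨q, hq, Or.inl ((hφ q).2 h)⟩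
  · refine ⟨q, hq, Or.inr ?_⟩
    have := (iff_force (p := q) (v := v) φ.neg).2 h
    exact this.imp fun M E a h => by rw [hφ']; exact h

theorem absurd (h : Fc p v R) (h' : Fc p v (fun M E a => ¬ R M E a)) : False := by
  obtain ⟨g, hg, a, ha⟩ := exists_gen_fin p v
  exact h' g hg a ha (h g hg a ha)

/-- if `p` does not force `R` then some stronger condition forces its negation -/
theorem exists_not (hR : Dfn R) (h : ¬ Fc p v R) : ∃ q ≤ p, Fc q v (fun M E a => ¬ R M E a) := by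
  by_contra hcon
  push Not at hcon
  apply h
  apply stable hR
  intro q hq
  obtain ⟨r, hr, h1 | h1⟩ := decide hR v q
  · exact ⟨r, hr, h1⟩
  · exact (hcon r (hr.trans hq) h1).elim

/-- truth lemma -/
theorem truth (hR : Dfn R) {g : Gen P} {a : Fin n → g.M} (ha : ∀ i, g.Den (v i) (a i)) :
    R g.M g.E a ↔ ∃ p ∈ g.G, Fc p v R := by
  obtain ⟨φ, hφ, hφ'⟩ := exists_force (v := v) hR
  rw [hφ', Gen.sat_iff ha]
  simp [hφ]

/-- a density argument transfers an implication to the generic structure -/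
theorem transfer (hR : Dfn R) (hS : Dfn S)
    (h : ∀ p : P, Fc p v R → ∃ q ≤ p, Fc q v S) {g : Gen P} {a : Fin n → g.M}
    (ha : ∀ i, g.Den (v i) (a i)) (hRa : R g.M g.E a) : S g.M g.E a := by
  by_contra hcon
  obtain ⟨p, hp, hf⟩ := (truth (hR.and hS.not) ha).1 ⟨hRa, hcon⟩
  obtain ⟨q, hq, hf'⟩ := h p (hf.imp fun _ _ _ h => h.1)
  exact hf'.absurd ((hf.imp fun _ _ _ h => h.2).mono hq)

end Fc

theorem Gen.eq_of_dense {σ τ : Name P} {g : Gen P} {a b : g.M} (h : g.Den σ a) (h' : g.Den τ b)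
    {p : P} (hp : p ∈ g.G) (hf : Feq σ τ p) : a = b := (Gen.eq_iff h h').2 ⟨p, hp, hf⟩

end Pool.Agent.H90.Frc
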