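import Pool.Agent.H90.Frc.Names

/-!
# Elementary set theory in an arbitrary model of ZFC
-/

set_option autoImplicit false

namespace Pool.Agent.H90.Frc

variable {M : Type} {E : M → M → Prop}

theorem Dfn.comp' {n m : ℕ} {R : Pred n} (hR : Dfn R) (f : Fin n → Fin m) {S : Pred m}
    (h : ∀ (M : Type) (E : M → M → Prop) w, S M E w ↔ R M E (fun i => w (f i))) : Dfn S :=
  (hR.rename f).congr fun M E w => h M E w

namespace ZFC

theorem sep (h : ZFC E) {n : ℕ} {R : Pred (n + 1)} (hR : Dfn R) (c : Fin n → M) (a : M) :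
    ∃ b, ∀ z, E z b ↔ E z a ∧ R M E (ext c z) := by
  obtain ⟨φ, hφ⟩ := hR
  obtain ⟨b, hb⟩ := h.separation φ c a
  exact ⟨b, fun z => by rw [hb, hφ]⟩

theorem exists_union₂ (h : ZFC E) (a b : M) : ∃ c, ∀ z, E z c ↔ E z a ∨ E z b := by
  obtain ⟨p, hp⟩ := h.pairing a b
  obtain ⟨c, hc⟩ := h.union p
  refine ⟨c, fun z => ?_⟩
  rw [hc]
  constructor
  · rintro ⟨y, hy, hz⟩
    rcases (hp y).1 hy with rfl | rfl
    · exact Or.inl hz
    · exact Or.inr hz
  · rintro (hz | hz)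
    · exact ⟨a, (hp a).2 (Or.inl rfl), hz⟩
    · exact ⟨b, (hp b).2 (Or.inr rfl), hz⟩

theorem exists_opair (h : ZFC E) (a b : M) : ∃ c, IsOPair E a b c := by
  obtain ⟨s, hs⟩ := h.pairing a a
  obtain ⟨t, ht⟩ := h.pairing a b
  obtain ⟨c, hc⟩ := h.pairing s t
  exact ⟨c, s, t, hs, ht, hc⟩

/-- relation comprehension -/
theorem exists_rel (h : ZFC E) {n : ℕ} {R : Pred (n + 2)} (hR : Dfn R) (c : Fin n → M)
    (a b : M) :
    ∃ f, ∀ x y, Rel E f x y ↔ E x a ∧ E y b ∧ R M E (ext (ext c x) y) := by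
  obtain ⟨u, hu⟩ := h.exists_union₂ a b
  obtain ⟨pu, hpu⟩ := h.power u
  obtain ⟨ppu, hppu⟩ := h.power pu
  have hmem : ∀ x y z, E x a → E y b → IsOPair E x y z → E z ppu := by
    rintro x y z hx hy ⟨s, t, hs, ht, hz⟩
    rw [hppu]
    intro w hw
    rw [hpu]
    intro v hv
    rw [hu]
    rcases (hz w).1 hw with rfl | rfl
    · rcases (hs v).1 hv with rfl | rfl <;> exact Or.inl hx
    · rcases (ht v).1 hv with rfl | rfl
      · exact Or.inl hx
      · exact Or.inr hy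
  have hD : Dfn (n := n + 3) (fun M E w => ∃ x, E x (w (Fin.last n).castSucc.castSucc) ∧
      ∃ y, E y (w (Fin.last (n + 1)).castSucc) ∧ IsOPair E x y (w (Fin.last (n + 2))) ∧
        R M E (ext (ext (fun i => w i.castSucc.castSucc.castSucc) x) y)) := by
    refine .ex (.and (.mem _ _) (.ex (.and (.mem _ _) (.and (dfn_isOPair _ _ _) (hR.comp'
      (ext (ext (fun i => i.castSucc.castSucc.castSucc.castSucc.castSucc)
        (Fin.last _).castSucc) (Fin.last _)) ?_)))))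
    intro M E w
    rw [ext_comp, ext_comp]
  obtain ⟨f, hf⟩ := h.sep hD (ext (ext c a) b) ppu
  refine ⟨f, fun x y => ?_⟩
  constructor
  · rintro ⟨z, hz, hzf⟩
    rw [hf] at hzf
    simp only [ext_last, ext_castSucc] at hzf
    obtain ⟨-, x', hx', y', hy', hz', hR'⟩ := hzf
    obtain ⟨rfl, rfl⟩ := hz.inj hz'
    exact ⟨hx', hy', hR'⟩
  · rintro ⟨hx, hy, hR'⟩
    obtain ⟨z, hz⟩ := h.exists_opair x y
    refine ⟨z, hz, ?_⟩
    rw [hf]
    simp only [ext_last, ext_castSucc]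
    exact ⟨hmem x y z hx hy hz, x, hx, y, hy, hz, hR'⟩

/-- sizes: a total injective relation that is a function gives `SizeLe` -/
theorem sizeLe_of_rel (h : ZFC E) {n : ℕ} {R : Pred (n + 2)} (hR : Dfn R) (c : Fin n → M)
    {a b : M} (htot : ∀ x, E x a → ∃ y, E y b ∧ R M E (ext (ext c x) y))
    (hfun : ∀ x y y', E x a → E y b → E y' b → R M E (ext (ext c x) y) →
      R M E (ext (ext c x) y') → y = y')
    (hinj : ∀ x x' y, E x a → E x' a → E y b → R M E (ext (ext c x) y) →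
      R M E (ext (ext c x') y) → x = x') : SizeLe E a b := by
  obtain ⟨f, hf⟩ := h.exists_rel hR c a b
  refine ⟨f, fun x hx => ?_, fun x x' y hx hx' h1 h2 => ?_⟩
  · obtain ⟨y, hy, hxy⟩ := htot x hx
    refine ⟨y, hy, (hf x y).2 ⟨hx, hy, hxy⟩, fun z hz => ?_⟩
    obtain ⟨-, hz', hxz⟩ := (hf x z).1 hz
    exact hfun x z y hx hz' hy hxz hxy
  · obtain ⟨-, hy, hxy⟩ := (hf x y).1 h1
    obtain ⟨-, -, hxy'⟩ := (hf x' y).1 h2
    exact hinj x x' y hx hx' hy hxy hxy'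

theorem sizeLe_of_sub (h : ZFC E) {a b : M} (hab : IsSub E a b) : SizeLe E a b := by
  refine h.sizeLe_of_rel (n := 0) (R := fun _ _ w => w 0 = w 1) (Dfn.eq 0 1) ![] ?_ ?_ ?_
  · intro x hx
    exact ⟨x, hab x hx, rfl⟩
  · intro x y y' _ _ _ h1 h2
    exact Eq.trans (Eq.symm h1) h2
  · intro x x' y _ _ _ h1 h2
    exact Eq.trans h1 (Eq.symm h2)

theorem sizeLe_refl (h : ZFC E) (a : M) : SizeLe E a a := h.sizeLe_of_sub fun _ hz => hz

theorem sizeLe_trans (h : ZFC E) {a b c : M} (h1 : SizeLe E a b) (h2 : SizeLe E b c) :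
    SizeLe E a c := by
  obtain ⟨f, hf1, hf2⟩ := h1
  obtain ⟨g, hg1, hg2⟩ := h2
  refine h.sizeLe_of_rel (n := 3) (R := fun _ E w => ∃ y, E y (w 2) ∧ Rel E (w 0) (w 3) y ∧
    Rel E (w 1) y (w 4)) (.ex (.and (.mem _ _) (.and (dfn_rel _ _ _) (dfn_rel _ _ _))))
    ![f, g, b] ?_ ?_ ?_
  · intro x hx
    obtain ⟨y, hy, hxy, -⟩ := hf1 x hx
    obtain ⟨z, hz, hyz, -⟩ := hg1 y hy
    exact ⟨z, hz, y, hy, hxy, hyz⟩
  · rintro x z z' hx - - ⟨y, hy, hxy, hyz⟩ ⟨y', hy', hxy', hyz'⟩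
    change Rel E f x y at hxy
    change Rel E g y z at hyz
    change Rel E f x y' at hxy'
    change Rel E g y' z' at hyz'
    obtain ⟨y0, -, -, h0⟩ := hf1 x hx
    have e : y' = y := (h0 y' hxy').trans (h0 y hxy).symm
    subst e
    obtain ⟨z0, -, -, h0'⟩ := hg1 _ hy
    exact (h0' z hyz).trans (h0' z' hyz').symm
  · rintro x x' z hx hx' - ⟨y, hy, hxy, hyz⟩ ⟨y', hy', hxy', hyz'⟩
    change Rel E f x y at hxy
    change Rel E g y z at hyz
    change Rel E f x' y' at hxy'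
    change Rel E g y' z at hyz'
    have e : y = y' := hg2 y y' z hy hy' hyz hyz'
    subst e
    exact hf2 x x' y hx hx' hxy hxy'

/-- If `a` is covered by the values of a functional relation on a well-ordered set then
`|a| ≤ |b|`. -/
theorem sizeLe_of_surj (h : ZFC E) (hwf : WellFounded E) {a b F : M}
    (htot : ∀ x y, E x b → E y b → x = y ∨ E x y ∨ E y x)
    (htr : ∀ x y, E x b → E y x → E y b)
    (hfun : ∀ x y y', E x b → E y a → E y' a → Rel E F x y → Rel E F x y' → y = y')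
    (hsur : ∀ y, E y a → ∃ x, E x b ∧ Rel E F x y) : SizeLe E a b := by
  refine h.sizeLe_of_rel (n := 1) (R := fun _ E w => Rel E (w 0) (w 2) (w 1) ∧
    ∀ z, E z (w 2) → ¬ Rel E (w 0) z (w 1)) (.and (dfn_rel _ _ _)
      (.all (.imp (.mem _ _) (.not (dfn_rel _ _ _))))) ![F] ?_ ?_ ?_
  · intro y hy
    obtain ⟨x, ⟨hxb, hxy⟩, hmin⟩ := hwf.has_min {x | E x b ∧ Rel E F x y} (hsur y hy)
    refine ⟨x, hxb, hxy, fun z hz hzy => ?_⟩
    exact hmin z ⟨htr x z hxb hz, hzy⟩ hz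
  · rintro y x x' - hx hx' ⟨h1, h2⟩ ⟨h3, h4⟩
    rcases htot x x' hx hx' with h5 | h5 | h5
    · exact h5
    · exact absurd h1 (h4 x h5)
    · exact absurd h3 (h2 x' h5)
  · rintro y y' x hy hy' hx ⟨h1, -⟩ ⟨h3, -⟩
    exact hfun x y y' hx hy hy' h1 h3

end ZFC

end Pool.Agent.H90.Frc
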