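import Pool.Agent.H90.Frc.Fam

/-!
# The Luzin set
-/

set_option autoImplicit false

namespace Pool.Agent.H90.Frc

open Ordinal Cardinal

variable {g : Gen Cond}

/-! ### Requirements -/

theorem exists_en_req (j : Ix) : ∃ f : ℕ → Ix × ℕ, (∀ β ≤ j, ∀ m, ∃ k, f k = (β, m)) ∧
    ∀ k, (f k).1 ≤ j := by
  have h1 : ((Set.Iic j) ×ˢ (Set.univ : Set ℕ)).Countable :=
    (countable_le j).prod Set.countable_univ
  obtain ⟨f, hf⟩ := h1.exists_eq_range ⟨(j, 0), Set.mem_Iic.2 le_rfl, trivial⟩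
  refine ⟨f, fun β hβ m => ?_, fun k => ?_⟩
  · have : (β, m) ∈ ((Set.Iic j) ×ˢ (Set.univ : Set ℕ)) := ⟨Set.mem_Iic.2 hβ, trivial⟩
    rw [hf] at this
    exact this
  · have : f k ∈ ((Set.Iic j) ×ˢ (Set.univ : Set ℕ)) := by rw [hf]; exact ⟨k, rfl⟩
    exact this.1

/-- an enumeration of `{β | β ≤ j} × ℕ` -/
noncomputable def enr (j : Ix) : ℕ → Ix × ℕ := (exists_en_req j).choose

theorem enr_spec (j : Ix) : (∀ β ≤ j, ∀ m, ∃ k, enr j k = (β, m)) ∧ ∀ k, (enr j k).1 ≤ j :=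
  (exists_en_req j).choose_spec

/-- the requirements given by the codes `U β`, `β ≤ j` -/
noncomputable def rq (j : Ix) (U : Ix → MCode) (k : ℕ) : MCode × ℕ :=
  (U (enr j k).1, (enr j k).2)

theorem rq_congr {j : Ix} {U U' : Ix → MCode} (h : ∀ β ≤ j, U β = U' β) : rq j U = rq j U' := by
  funext k
  rw [rq, rq, h _ ((enr_spec j).2 k)]

/-- elements of `ω₁` as arguments of the first collapse -/
noncomputable def dI (β : Ix) : Dm i0 :=
  ToType.mk ⟨β.toOrd.1, by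
    change (β.toOrd : Ordinal.{0}) < (Order.succ (kap i0)).ord
    rw [succ_kap_i0]; exact β.toOrd.2⟩

theorem exists_dI (d : Dm i0) : ∃ β, dI β = d := by
  refine ⟨ToType.mk ⟨d.toOrd.1, ?_⟩, ?_⟩
  · change (d.toOrd : Ordinal.{0}) < ω_ 1
    rw [← succ_kap_i0]; exact d.toOrd.2
  · apply toOrd_inj
    simp [dI, ToType.toOrd]

/-- the condition decides the first `j` codes as `U` -/
def DecU (p : Cond) (j : Ix) (U : Ix → MCode) : Prop :=
  ∀ β ≤ j, ∃ v, p.c i0 (dI β) = some v ∧ decM v = U β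

/-- the condition decides the first `k` values of the `ξ`-th real as `γ` -/
def DecG (p : Cond) (ξ : Lam) (γ : ℕ → Bool) (k : ℕ) : Prop := ∀ n < k, p.s (ξ, n) = some (γ n)

theorem DecU.mono {p q : Cond} {j : Ix} {U : Ix → MCode} (h : DecU p j U) (hq : q ≤ p) :
    DecU q j U := fun β hβ => by
  obtain ⟨v, hv, h'⟩ := h β hβ
  exact ⟨v, hq.1 i0 _ _ hv, h'⟩

theorem DecG.mono {p q : Cond} {ξ : Lam} {γ : ℕ → Bool} {k : ℕ} (h : DecG p ξ γ k) (hq : q ≤ p) :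
    DecG q ξ γ k := fun n hn => hq.2 _ _ (h n hn)

theorem DecU.of_le {p : Cond} {j j' : Ix} {U : Ix → MCode} (h : DecU p j U) (hj : j' ≤ j) :
    DecU p j' U := fun β hβ => h β (hβ.trans hj)

theorem DecU.unique {p : Cond} {j : Ix} {U U' : Ix → MCode} (h : DecU p j U) (h' : DecU p j U') :
    rq j U = rq j U' := by
  refine rq_congr fun β hβ => ?_
  obtain ⟨v, hv, h1⟩ := h β hβ
  obtain ⟨v', hv', h2⟩ := h' β hβ
  rw [hv] at hv'
  cases hv'
  rw [← h1, ← h2]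

theorem exists_decU (p : Cond) (j : Ix) : ∃ q ≤ p, ∃ U, DecU q j U := by
  classical
  have v0 : Vl i0 := (decM_surj (Classical.arbitrary MCode)).choose
  let q : Cond :=
    { c := Function.update p.c i0 (fun d => if (∃ β ≤ j, dI β = d) ∧ p.c i0 d = none then some v0
        else p.c i0 d)
      s := p.s
      hc := by
        intro i
        by_cases hi : i = i0
        · subst hi
          rw [Function.update_self]
          have h1 : {d | (if (∃ β ≤ j, dI β = d) ∧ p.c i0 d = none then some v0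
              else p.c i0 d) ≠ none} ⊆ {d | p.c i0 d ≠ none} ∪ (dI '' Set.Iic j) := by
            intro d hd
            by_cases h : (∃ β ≤ j, dI β = d) ∧ p.c i0 d = none
            · exact Or.inr h.1
            · left
              rw [Set.mem_ofPred_eq, if_neg h] at hd
              exact hd
          refine (mk_le_mk_of_subset h1).trans ((mk_union_le _ _).trans ?_)
          refine (add_le_add (p.hc i0) ?_).trans (add_eq_self (aleph0_le_kap i0)).le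
          exact (le_aleph0_iff_set_countable.2 ((countable_le j).image _)).trans
            (aleph0_le_kap i0)
        · rw [Function.update_of_ne hi]
          exact p.hc i
      hs := p.hs
      hf := p.hf }
  have hqp : q ≤ p := by
    refine ⟨fun i d v hv => ?_, Ext.refl _⟩
    change Function.update p.c i0 _ i d = some v
    by_cases hi : i = i0
    · subst hi
      rw [Function.update_self]
      have : ¬ ((∃ β ≤ j, dI β = d) ∧ p.c i0 d = none) := fun h => by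
        rw [h.2] at hv; cases hv
      rw [if_neg this]
      exact hv
    · rw [Function.update_of_ne hi]
      exact hv
  have hq : ∀ β ≤ j, ∃ v, q.c i0 (dI β) = some v := by
    intro β hβ
    change ∃ v, Function.update p.c i0 _ i0 (dI β) = some v
    rw [Function.update_self]
    by_cases h : p.c i0 (dI β) = none
    · exact ⟨v0, if_pos ⟨⟨β, hβ, rfl⟩, h⟩⟩
    · rw [if_neg (fun h' => h h'.2)]
      exact Option.ne_none_iff_exists'.1 h
  refine ⟨q, hqp, fun β => if h : β ≤ j then decM (hq β h).choose else Classical.arbitrary _, ?_⟩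
  intro β hβ
  exact ⟨(hq β hβ).choose, (hq β hβ).choose_spec, by dsimp only; rw [dif_pos hβ]⟩

/-- fill the first `K` positions of a column -/
theorem exists_decG (p : Cond) (ξ : Lam) (K : ℕ) : ∃ q ≤ p, (∃ γ, DecG q ξ γ K) ∧
    ∀ η n, (η ≠ ξ ∨ K ≤ n) → q.s (η, n) = p.s (η, n) := by
  classical
  let F : Finset Pos := (Finset.range K).image (fun n => (ξ, n))
  have hF : ∀ η n, (η, n) ∈ F ↔ η = ξ ∧ n < K := by
    intro η n
    simp only [F, Finset.mem_image, Finset.mem_range, Prod.mk.injEq]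
    constructor
    · rintro ⟨m, hm, rfl, rfl⟩
      exact ⟨rfl, hm⟩
    · rintro ⟨rfl, h⟩
      exact ⟨n, h, rfl, rfl⟩
  refine ⟨p.modify F (fun x => some ((p.s x).getD false)), ⟨fun i => Ext.refl _, ?_⟩,
    ⟨fun n => (p.s (ξ, n)).getD false, ?_⟩, ?_⟩
  · intro x b hb
    change (if x ∈ F then some ((p.s x).getD false) else p.s x) = some b
    by_cases hx : x ∈ F
    · rw [if_pos hx, hb]
      rfl
    · rw [if_neg hx, hb]
  · intro n hn
    change (if (ξ, n) ∈ F then some ((p.s (ξ, n)).getD false) else p.s (ξ, n)) = _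
    rw [if_pos ((hF ξ n).2 ⟨rfl, hn⟩)]
  · intro η n h
    change (if (η, n) ∈ F then some ((p.s (η, n)).getD false) else p.s (η, n)) = _
    rw [if_neg]
    rw [hF]
    rintro ⟨rfl, hn⟩
    rcases h with h | h
    · exact h rfl
    · omega

/-- set one position -/
theorem exists_setS (p : Cond) (x : Pos) (b : Bool) (hx : p.s x = none) :
    ∃ q ≤ p, q.s x = some b ∧ ∀ y, y ≠ x → q.s y = p.s y := by
  refine ⟨p.modify {x} (fun _ => some b), ⟨fun i => Ext.refl _, ?_⟩, ?_, ?_⟩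
  · intro y c hc
    change (if y ∈ ({x} : Finset Pos) then some b else p.s y) = some c
    rw [if_neg, hc]
    rw [Finset.mem_singleton]
    rintro rfl
    rw [hx] at hc
    cases hc
  · exact if_pos (Finset.mem_singleton_self x)
  · intro y hy
    exact if_neg (by rwa [Finset.mem_singleton])

/-! ### The names of the elements of the Luzin set -/

/-- the name of the `ξ`-th element -/
noncomputable def lN (ξ : Lam) : Name Cond :=
  .mk {z : ℚ × Cond // ∃ U γ k, DecU z.2 (blk ξ) U ∧ DecG z.2 ξ γ k ∧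
    z.1 < lft (rq (blk ξ) U) γ k} (fun z => qN Cond z.1.1) (fun z => z.1.2)

theorem lN_sub {w x : g.M} {ξ : Lam} (hw : g.Den (onN Cond ω) w) (hx : g.Den (lN ξ) x) :
    IsSub g.E x w := by
  intro z hz
  obtain ⟨i, -, hq⟩ := (Gen.mem_iff hx).1 hz
  exact qN_mem hw hq

theorem lN_lft {w x : g.M} {ξ : Lam} (hw : g.Den (onN Cond ω) w) (hx : g.Den (lN ξ) x) {p : Cond}
    (hp : p ∈ g.G) {U : Ix → MCode} {γ : ℕ → Bool} {k : ℕ} (hU : DecU p (blk ξ) U)
    (hγ : DecG p ξ γ k) {a : ℚ} (ha : a < lft (rq (blk ξ) U) γ k) : a ∈ cs g x := by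
  obtain ⟨b, hb⟩ := exists_qN hw a
  exact ⟨b, hb, (Gen.mem_iff hx).2 ⟨⟨(a, p), U, γ, k, hU, hγ, ha⟩, hp, hb⟩⟩

theorem lN_rgt {x : g.M} {ξ : Lam} (hx : g.Den (lN ξ) x) {p : Cond}
    (hp : p ∈ g.G) {U : Ix → MCode} {γ : ℕ → Bool} {k : ℕ} (hU : DecU p (blk ξ) U)
    (hγ : DecG p ξ γ k) {a : ℚ} (ha : a ∈ cs g x) : a < rgt (rq (blk ξ) U) γ k := by
  obtain ⟨b, hb, hbx⟩ := ha
  obtain ⟨⟨⟨a', p'⟩, U', γ', k', hU', hγ', ha'⟩, hp', hb'⟩ := (Gen.mem_iff hx).1 hbx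
  have : a = a' := qN_inj hb hb'
  subst this
  dsimp only at hU' hγ' ha' hp'
  obtain ⟨r, hr, h1, h2⟩ := g.dir p hp p' hp'
  have hUU : rq (blk ξ) U' = rq (blk ξ) U := (hU'.mono h2).unique (hU.mono h1)
  rw [hUU] at ha'
  have hagree : ∀ n, n < k → n < k' → γ n = γ' n := by
    intro n hn hn'
    have e1 := h1.2 _ _ (hγ n hn)
    have e2 := h2.2 _ _ (hγ' n hn')
    rw [e1] at e2
    exact Option.some.inj e2
  rcases le_total k k' with h | h
  · have e : pre γ k = pre γ' k := pre_congr fun n hn => hagree n hn (hn.trans_le h)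
    have e2 : rgt (rq (blk ξ) U) γ k = rgt (rq (blk ξ) U) γ' k := by rw [rgt, rgt, e]
    rw [e2]
    exact ha'.trans (lft_lt_rgt _ _ _ _)
  · have e : pre γ' k' = pre γ k' := pre_congr fun n hn => (hagree n (hn.trans_le h) hn).symm
    have e2 : lft (rq (blk ξ) U) γ' k' = lft (rq (blk ξ) U) γ k' := by rw [lft, lft, e]
    rw [e2] at ha'
    exact ha'.trans (lft_lt_rgt _ _ _ _)

/-- the names denote reals -/
theorem lN_mem {w l R x : g.M} {ξ : Lam} (hw : g.Den (onN Cond ω) w) (hl : g.Den (ltN Cond) l)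
    (hR : g.Den rN R) (hx : g.Den (lN ξ) x) : g.E x R := by
  refine Gen.tp (v := ![onN Cond ω, ltN Cond, rN, lN ξ]) (a := ![w, l, R, x])
    (den4 hw hl hR hx) Dfn.true (S := fun _ E v => E (v 3) (v 2)) (.mem 3 2) (fun p _ => ?_)
    trivial
  obtain ⟨q, hq, U, hU⟩ := exists_decU p (blk ξ)
  refine ⟨q, hq, ∅, Set.countable_empty, ?_⟩
  intro g' hg' _ u hu _
  have e0 : g'.Den (onN Cond ω) (u 0) := hu 0
  have e1 : g'.Den (ltN Cond) (u 1) := hu 1
  have e2 : g'.Den rN (u 2) := hu 2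
  have e3 : g'.Den (lN ξ) (u 3) := hu 3
  refine (isReals_rN e0 e1 e2 _).2 ((isCut_iff e0 e1 _).2 ⟨lN_sub e0 e3, ?_, ?_, ?_, ?_⟩)
  · refine ⟨-1, lN_lft e0 e3 hg' hU (γ := fun _ => false) (k := 0)
      (fun n hn => absurd hn (Nat.not_lt_zero n)) ?_⟩
    rw [lft_zero]
    norm_num
  · refine ⟨1, fun h => ?_⟩
    have := lN_rgt e3 hg' hU (γ := fun _ => false) (k := 0)
      (fun n hn => absurd hn (Nat.not_lt_zero n)) h
    rw [rgt_zero] at this
    exact lt_irrefl _ this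
  · rintro a ⟨b, hb, hbx⟩ c hca
    obtain ⟨⟨⟨a', p'⟩, U', γ', k', hU', hγ', ha'⟩, hp', hb'⟩ := (Gen.mem_iff e3).1 hbx
    have : a = a' := qN_inj hb hb'
    subst this
    exact lN_lft e0 e3 hp' hU' hγ' (hca.trans ha')
  · rintro a ⟨b, hb, hbx⟩
    obtain ⟨⟨⟨a', p'⟩, U', γ', k', hU', hγ', ha'⟩, hp', hb'⟩ := (Gen.mem_iff e3).1 hbx
    have : a = a' := qN_inj hb hb'
    subst this
    obtain ⟨c, hac, hc⟩ := exists_between ha'
    exact ⟨c, lN_lft e0 e3 hp' hU' hγ' hc, hac⟩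

/-- the `ξ`-th real avoids the meager sets whose codes appear before its block -/
theorem lN_avoid {p : Cond} {ξ : Lam} {β : Ix} {H : MCode} {v : Vl i0}
    (hv : p.c i0 (dI β) = some v) (hH : decM v = H) (hβ : β ≤ blk ξ) :
    Fc p ![lN ξ, mN H] (fun _ E u => ¬ E (u 0) (u 1)) := by
  by_contra hcon
  obtain ⟨p1, hp1, hf⟩ := Fc.exists_not (Dfn.mem 0 1).not hcon
  obtain ⟨p2, hp2, U, hU⟩ := exists_decU p1 (blk ξ)
  have hUβ : U β = H := by
    obtain ⟨v', hv', h'⟩ := hU β hβ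
    rw [(hp2.trans hp1).1 i0 _ _ hv] at hv'
    cases hv'
    rw [← h', hH]
  -- pass to a generic structure to find `m`
  obtain ⟨g, hg, hL, a, ha⟩ := exists_gen_set p2 ![lN ξ, mN H]
    (L := {onN Cond ω, ltN Cond, rN, HN Cond H}) (by simp)
  obtain ⟨w, hw⟩ := hL (onN Cond ω) (by simp)
  obtain ⟨l, hl⟩ := hL (ltN Cond) (by simp)
  obtain ⟨R, hR⟩ := hL rN (by simp)
  obtain ⟨h, hh⟩ := hL (HN Cond H) (by simp)
  have a0 : g.Den (lN ξ) (a 0) := ha 0
  have a1 : g.Den (mN H) (a 1) := ha 1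
  have h1 : g.E (a 0) (a 1) := not_not.1 (hf g (g.up _ hg _ hp2) a ha)
  obtain ⟨-, m, hm⟩ := (mem_mN hw hl hR hh a1).1 h1
  obtain ⟨b, hb⟩ := exists_den_nat hw m
  obtain ⟨r, hr, hfr⟩ := (Fc.truth (v := ![HN Cond H, onN Cond m, lN ξ]) (a := ![h, b, a 0])
    (dfn_avd 0 1 2) (den3 hh hb a0)).1 ((avd_iff hw hh hb).2 hm)
  obtain ⟨r1, hr1, h2, h3⟩ := g.dir p2 hg r hr
  obtain ⟨k, hk⟩ := (enr_spec (blk ξ)).1 β hβ m
  obtain ⟨q, hq, ⟨γ, hγ⟩, -⟩ := exists_decG r1 ξ (k + 1)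
  obtain ⟨g', hg', hL', a', ha'⟩ := exists_gen_set q ![HN Cond H, onN Cond m, lN ξ]
    (L := {onN Cond ω}) (by simp)
  obtain ⟨w', hw'⟩ := hL' (onN Cond ω) (by simp)
  have e0 : g'.Den (HN Cond H) (a' 0) := ha' 0
  have e1 : g'.Den (onN Cond m) (a' 1) := ha' 1
  have e2 : g'.Den (lN ξ) (a' 2) := ha' 2
  have h4 := (avd_iff hw' e0 e1).1 (hfr g' (g'.up _ hg' _ (hq.trans h3)) a' ha')
  have hU' : DecU q (blk ξ) U := hU.mono (hq.trans h2)
  obtain ⟨c, d, h5, h6, h7⟩ := exists_hit (rq (blk ξ) U) γ k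
  have h8 : rq (blk ξ) U k = (H, m) := by rw [rq, hk, hUβ]
  rw [h8] at h5
  refine h4 c d h5 ⟨lN_lft hw' e2 hg' hU' hγ h6, fun hd => ?_⟩
  exact absurd (lN_rgt e2 hg' hU' hγ hd) (not_lt.2 h7.le)

/-- different indices give different reals -/
theorem lN_ne {w x y : g.M} {ξ η : Lam} (hw : g.Den (onN Cond ω) w) (hne : ξ ≠ η)
    (hx : g.Den (lN ξ) x) (hy : g.Den (lN η) y) : x ≠ y := by
  refine Gen.tp (v := ![onN Cond ω, lN ξ, lN η]) (a := ![w, x, y])
    (den3 hw hx hy) Dfn.true (S := fun _ E v => v 1 ≠ v 2) (Dfn.eq 1 2).not (fun p _ => ?_)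
    trivial
  obtain ⟨p1, hp1, U, hU⟩ := exists_decU p (max (blk ξ) (blk η))
  obtain ⟨n0, hn0⟩ := (p1.hf ξ).nonempty
  obtain ⟨n1, hn1⟩ := (p1.hf η).nonempty
  obtain ⟨p2, hp2, ⟨γ, hγ⟩, hs2⟩ := exists_decG p1 ξ n0
  obtain ⟨p3, hp3, ⟨γ', hγ'⟩, hs3⟩ := exists_decG p2 η n1
  have h0 : p3.s (ξ, n0) = none := by
    rw [hs3 ξ n0 (Or.inl hne), hs2 ξ n0 (Or.inr le_rfl)]
    exact hn0
  have h1 : p3.s (η, n1) = none := by
    rw [hs3 η n1 (Or.inr le_rfl), hs2 η n1 (Or.inl hne.symm)]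
    exact hn1
  -- the general step
  have key : ∀ b b' : Bool, ∃ q ≤ p3, DecG q ξ (Function.update γ n0 b) (n0 + 1) ∧
      DecG q η (Function.update γ' n1 b') (n1 + 1) := by
    intro b b'
    obtain ⟨q1, hq1, e1, e2⟩ := exists_setS p3 (ξ, n0) b h0
    obtain ⟨q2, hq2, e3, e4⟩ := exists_setS q1 (η, n1) b' (by
      rw [e2 _ (fun h => hne (congrArg Prod.fst h).symm), h1])
    refine ⟨q2, hq2.trans hq1, ?_, ?_⟩
    · intro n hn
      rcases Nat.lt_succ_iff_lt_or_eq.1 hn with h | rfl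
      · rw [Function.update_of_ne h.ne]
        exact (hq2.trans (hq1.trans hp3)).2 _ _ (hγ n h)
      · rw [Function.update_self]
        exact hq2.2 _ _ e1
    · intro n hn
      rcases Nat.lt_succ_iff_lt_or_eq.1 hn with h | rfl
      · rw [Function.update_of_ne h.ne]
        exact (hq2.trans hq1).2 _ _ (hγ' n h)
      · rw [Function.update_self]
        exact e3
  have hpre : ∀ (γ : ℕ → Bool) (n : ℕ) (b : Bool),
      pre (Function.update γ n b) (n + 1) = b :: pre γ n := by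
    intro γ n b
    rw [pre, Function.update_self]
    congr 1
    exact pre_congr fun m hm => Function.update_of_ne hm.ne _ _
  have hUξ : ∀ q ≤ p3, DecU q (blk ξ) U := fun q hq =>
    (hU.mono (hq.trans (hp3.trans hp2))).of_le (le_max_left _ _)
  have hUη : ∀ q ≤ p3, DecU q (blk η) U := fun q hq =>
    (hU.mono (hq.trans (hp3.trans hp2))).of_le (le_max_right _ _)
  have hp3p : p3 ≤ p := hp3.trans (hp2.trans hp1)
  rcases sch_separate (rq (blk ξ) U) (rq (blk η) U) (pre γ n0) (pre γ' n1) with h | h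
  · obtain ⟨q, hq, hG1, hG2⟩ := key false true
    refine ⟨q, hq.trans hp3p, ∅, Set.countable_empty, ?_⟩
    intro g' hg' _ u hu _ huu
    have e0 : g'.Den (onN Cond ω) (u 0) := hu 0
    have e1 : g'.Den (lN ξ) (u 1) := hu 1
    have e2 : g'.Den (lN η) (u 2) := hu 2
    have h2 : (sch (rq (blk ξ) U) (false :: pre γ n0)).1.2 ∈ cs g' (u 2) := by
      refine lN_lft e0 e2 hg' (hUη q hq) hG2 ?_
      rw [lft, hpre]
      exact h
    rw [← huu] at h2
    have h3 := lN_rgt e1 hg' (hUξ q hq) hG1 h2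
    rw [rgt, hpre] at h3
    exact lt_irrefl _ h3
  · obtain ⟨q, hq, hG1, hG2⟩ := key true false
    refine ⟨q, hq.trans hp3p, ∅, Set.countable_empty, ?_⟩
    intro g' hg' _ u hu _ huu
    have e0 : g'.Den (onN Cond ω) (u 0) := hu 0
    have e1 : g'.Den (lN ξ) (u 1) := hu 1
    have e2 : g'.Den (lN η) (u 2) := hu 2
    have h2 : (sch (rq (blk η) U) (false :: pre γ' n1)).1.2 ∈ cs g' (u 1) := by
      refine lN_lft e0 e1 hg' (hUξ q hq) hG1 ?_
      rw [lft, hpre]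
      exact h
    rw [huu] at h2
    have h3 := lN_rgt e2 hg' (hUη q hq) hG2 h2
    rw [rgt, hpre] at h3
    exact lt_irrefl _ h3

theorem lN_inj {w x : g.M} {ξ η : Lam} (hw : g.Den (onN Cond ω) w)
    (hx : g.Den (lN ξ) x) (hy : g.Den (lN η) x) : ξ = η := by
  by_contra h
  exact lN_ne hw h hx hy rfl

/-! ### The Luzin set -/

/-- the name of the Luzin set -/
noncomputable def luzN : Name Cond := .mk Lam lN (fun _ => ⊤)

theorem mem_luzN {L x : g.M} (hL : g.Den luzN L) : g.E x L ↔ ∃ ξ, g.Den (lN ξ) x := by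
  rw [Gen.mem_iff hL]
  constructor
  · rintro ⟨ξ, -, h⟩
    exact ⟨ξ, h⟩
  · rintro ⟨ξ, h⟩
    exact ⟨ξ, g.top_mem, h⟩

/-- the name of the enumeration of the Luzin set -/
noncomputable def lRel : Name Cond :=
  relN (fun ξ : Lam => onN Cond ξ.toOrd.1) lN (fun _ => ⊤)

theorem sizeLe_lam_luz {w Λ L : g.M} (hw : g.Den (onN Cond ω) w)
    (hΛ : g.Den (onN Cond (ℶ_ (ω_ 1)).ord) Λ) (hL : g.Den luzN L) : SizeLe g.E Λ L := by
  refine Gen.tn (v := ![onN Cond ω, onN Cond (ℶ_ (ω_ 1)).ord, luzN]) (a := ![w, Λ, L])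
    (den3 hw hΛ hL) Dfn.true (dfn_sizeLe 1 2) (L := {lRel}) (Set.countable_singleton _) ?_ trivial
  intro g' hL' u hu _
  obtain ⟨F, hF⟩ := hL' _ rfl
  have e0 : g'.Den (onN Cond ω) (u 0) := hu 0
  have e1 : g'.Den (onN Cond (ℶ_ (ω_ 1)).ord) (u 1) := hu 1
  have e2 : g'.Den luzN (u 2) := hu 2
  have hRel := fun x y => den_relN hF x y
  refine ⟨F, fun x hx => ?_, fun x x' y _ _ hxy hxy' => ?_⟩
  · obtain ⟨α, hα, hxα⟩ := (den_onN e1 x).1 hx
    have hx' : g'.Den (onN Cond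
        (ToType.mk (⟨α, hα⟩ : Set.Iio (ℶ_ (ω_ 1) : Cardinal.{0}).ord)).toOrd.1) x := by
      simpa [ToType.toOrd] using hxα
    obtain ⟨y, hy⟩ := relN_exists hF
      (i := ToType.mk (⟨α, hα⟩ : Set.Iio (ℶ_ (ω_ 1) : Cardinal.{0}).ord)) g'.top_mem hx'
    obtain ⟨ξ, -, h1, h2⟩ := (hRel x y).1 hy
    refine ⟨y, (mem_luzN e2).2 ⟨ξ, h2⟩, hy, fun z hz => ?_⟩
    obtain ⟨η, -, h3, h4⟩ := (hRel x z).1 hz
    have : ξ = η := toOrd_inj (onN_inj h1 h3)
    subst this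
    exact h4.unique h2
  · obtain ⟨ξ, -, h1, h2⟩ := (hRel x y).1 hxy
    obtain ⟨η, -, h3, h4⟩ := (hRel x' y).1 hxy'
    have : ξ = η := lN_inj e0 h2 h4
    subst this
    exact h1.unique h3

/-- the hypotheses on a possible injection of the reals into a small part of the Luzin set -/
def LzH : Pred 7 := fun _ E v => IsInj E (v 6) (v 2) (v 5) ∧ IsSub E (v 5) (v 3) ∧
  IsSub E (v 5) (v 4)

theorem dfn_lzH : Dfn LzH := .and (dfn_isInj _ _ _) (.and (dfn_isSub _ _) (dfn_isSub _ _))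

theorem den7 {P : Type} [PartialOrder P] {g : Gen P} {σ τ ρ π θ κ μ : Name P}
    {a b c d e f h : g.M} (h0 : g.Den σ a) (h1 : g.Den τ b)
    (h2 : g.Den ρ c) (h3 : g.Den π d) (h4 : g.Den θ e) (h5 : g.Den κ f) (h6 : g.Den μ h) :
    ∀ i, g.Den (![σ, τ, ρ, π, θ, κ, μ] i) (![a, b, c, d, e, f, h] i) := by
  intro i; fin_cases i; exacts [h0, h1, h2, h3, h4, h5, h6]

theorem not_sizeLe_luz {w l R L Z Y : g.M} {H : MCode} (hw : g.Den (onN Cond ω) w)
    (hl : g.Den (ltN Cond) l) (hR : g.Den rN R) (hL : g.Den luzN L) (hZ : g.Den (mN H) Z)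
    (hYL : IsSub g.E Y L) (hYZ : IsSub g.E Y Z) : ¬ SizeLe g.E R Y := by
  rintro ⟨f, hf⟩
  obtain ⟨υ, hυ⟩ := g.exists_den Y
  obtain ⟨φ, hφ⟩ := g.exists_den f
  refine Gen.tp (v := ![onN Cond ω, ltN Cond, rN, luzN, mN H, υ, φ]) (a := ![w, l, R, L, Z, Y, f])
    (den7 hw hl hR hL hZ hυ hφ) (R := LzH) dfn_lzH (Dfn.const False) (fun p hp => ?_)
    ⟨hf, hYL, hYZ⟩
  -- decide where the code `H` appears
  obtain ⟨d, hd⟩ := exists_free_dm p i0
  obtain ⟨v, hv⟩ := decM_surj H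
  obtain ⟨β, hβ⟩ := exists_dI d
  have hp1 : p.setC i0 d v ≤ p := setC_le hd
  have hc1 : (p.setC i0 d v).c i0 (dI β) = some v := by rw [hβ]; exact setC_c
  let ι : Type := {ξ : Lam | blk ξ ≤ β}
  let R0 : Cond → ι → Lam → Prop := fun q ξ η => q ≤ p.setC i0 d v ∧
    Fc q ![φ, lN η, lN ξ.1] (fun _ E u => Rel E (u 0) (u 1) (u 2))
  obtain ⟨q, hq, F, hF, hcov⟩ := cover β (ι := ι) (W := Lam) (R := R0)
    ((mk_blk_le β).trans (kap_lt β).le)
    (fun q q' i w h hle => ⟨hle.trans h.1, h.2.mono hle⟩) (by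
      intro q ξ η η' h h'
      obtain ⟨g', hg', hL', u, hu⟩ := exists_gen_set q
        ![onN Cond ω, ltN Cond, rN, luzN, mN H, υ, φ]
        (L := {lN η, lN η', lN ξ.1}) (by simp)
      obtain ⟨x, hx⟩ := hL' (lN η) (by simp)
      obtain ⟨x', hx'⟩ := hL' (lN η') (by simp)
      obtain ⟨y, hy⟩ := hL' (lN ξ.1) (by simp)
      have e0 : g'.Den (onN Cond ω) (u 0) := hu 0
      have e1 : g'.Den (ltN Cond) (u 1) := hu 1
      have e2 : g'.Den rN (u 2) := hu 2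
      have e6 : g'.Den φ (u 6) := hu 6
      have h1 : Rel g'.E (u 6) x y := h.2 g' hg' ![u 6, x, y] (den3 e6 hx hy)
      have h2 : Rel g'.E (u 6) x' y := h'.2 g' hg' ![u 6, x', y] (den3 e6 hx' hy)
      obtain ⟨hinj, -, -⟩ := hp g' (g'.up q hg' p (h.1.trans hp1)) u hu
      have h3 : x = x' := hinj.2 _ _ _ (lN_mem e0 e1 e2 hx) (lN_mem e0 e1 e2 hx') h1 h2
      subst h3
      exact lN_inj e0 hx hx') (p.setC i0 d v)
  have hne : ∃ η : Lam, ∀ i, η ∉ F i := by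
    by_contra hcon
    push Not at hcon
    have h1 : (Set.univ : Set Lam) ⊆ ⋃ i, F i := fun w _ => Set.mem_iUnion.2 (hcon w)
    have h2 : #Lam ≤ 2 ^ kap β := by
      rw [← mk_univ]
      refine (mk_le_mk_of_subset h1).trans ((mk_iUnion_le _).trans
        ((mul_le_mul' ?_ (ciSup_le' hF)).trans (tk_mul_self β).le))
      exact (mk_blk_le β).trans (kap_lt β).le
    rw [mk_lam] at h2
    exact absurd (tk_lt_lam β) (not_lt.2 h2)
  obtain ⟨η, hη⟩ := hne
  refine ⟨q, hq.trans hp1, {lN η}, Set.countable_singleton _, ?_⟩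
  intro g' hg' hL' u hu hR'
  obtain ⟨hinj, hYL', hYZ'⟩ := hR'
  obtain ⟨x, hx⟩ := hL' _ rfl
  have e0 : g'.Den (onN Cond ω) (u 0) := hu 0
  have e1 : g'.Den (ltN Cond) (u 1) := hu 1
  have e2 : g'.Den rN (u 2) := hu 2
  have e3 : g'.Den luzN (u 3) := hu 3
  have e4 : g'.Den (mN H) (u 4) := hu 4
  have e6 : g'.Den φ (u 6) := hu 6
  obtain ⟨y, hy, hxy, -⟩ := hinj.1 x (lN_mem e0 e1 e2 hx)
  obtain ⟨ξ, hξ⟩ := (mem_luzN e3).1 (hYL' y hy)
  have hξβ : blk ξ ≤ β := by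
    by_contra hcon
    have := lN_avoid hc1 hv (not_le.1 hcon).le g' (g'.up q hg' _ hq) ![y, u 4] (den2 hξ e4)
    exact this (hYZ' y hy)
  obtain ⟨r, hr, hfr⟩ := (Fc.truth (v := ![φ, lN η, lN ξ]) (a := ![u 6, x, y]) (dfn_rel 0 1 2)
    (den3 e6 hx hξ)).1 hxy
  obtain ⟨r', hr', h1, h2⟩ := g'.dir r hr q hg'
  exact hη ⟨ξ, hξβ⟩ (hcov r' h2 ⟨ξ, hξβ⟩ η ⟨h2.trans hq, hfr.mono h1⟩)

theorem isLuzin_luzN {w l R Λ L : g.M} (hw : g.Den (onN Cond ω) w) (hl : g.Den (ltN Cond) l)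
    (hR : g.Den rN R) (hΛ : g.Den (onN Cond (ℶ_ (ω_ 1)).ord) Λ) (hL : g.Den luzN L) {F : g.M}
    (hF : g.Den famN F) : IsLuzin g.E w w l R L := by
  have hsub : IsSub g.E L R := fun x hx => by
    obtain ⟨ξ, hξ⟩ := (mem_luzN hL).1 hx
    exact lN_mem hw hl hR hξ
  refine ⟨hsub, ⟨g.zfc.sizeLe_of_sub hsub, g.zfc.sizeLe_trans (sizeLe_reals hw hl hR hΛ)
    (sizeLe_lam_luz hw hΛ hL)⟩, fun X hX Y hY => ⟨g.zfc.sizeLe_of_sub fun z hz =>
      hsub z ((hY z).1 hz).1, ?_⟩⟩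
  obtain ⟨Z, hZF, hXZ⟩ := exists_fam hw hl hR hF hX
  obtain ⟨H, hH⟩ := (mem_famN hF).1 hZF
  exact not_sizeLe_luz hw hl hR hL hH (fun z hz => ((hY z).1 hz).1)
    (fun z hz => hXZ z ((hY z).1 hz).2)

end Pool.Agent.H90.Frc
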