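import Pool.Agent.H90.Frc.Read

/-!
# Meager sets of the extension are covered by meager sets coded in the ground model
-/

set_option autoImplicit false

namespace Pool.Agent.H90.Frc

open Ordinal Cardinal

variable {g : Gen Cond}

/-- the name of the meager set coded by `H` -/
noncomputable def mN (H : MCode) : Name Cond :=
  sepN allN (fun ξ r => Fc r ![onN Cond ω, ltN Cond, HN Cond H, eN ξ]
    (fun _ E v => IsCut E (v 0) (v 1) (v 3) ∧ InMg E (v 0) (v 2) (v 3)))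

theorem mem_mN {w l R h X x : g.M} {H : MCode} (hw : g.Den (onN Cond ω) w)
    (hl : g.Den (ltN Cond) l) (hR : g.Den rN R) (hh : g.Den (HN Cond H) h)
    (hX : g.Den (mN H) X) : g.E x X ↔ g.E x R ∧ InM H (cs g x) := by
  constructor
  · intro hx
    obtain ⟨ξ, r, hr, -, h1, h2⟩ := (den_sepN hX x).1 hx
    obtain ⟨h3, h4⟩ := h1 g hr ![w, l, h, x] (den4 hw hl hh h2)
    exact ⟨(isReals_rN hw hl hR x).2 h3, (inMg_iff hw hh).1 h4⟩
  · rintro ⟨hx, hM⟩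
    obtain ⟨hcut, ξ, hξ⟩ := rN_cut hw hl hR hx
    obtain ⟨r, hr, hf⟩ := (Fc.truth (v := ![onN Cond ω, ltN Cond, HN Cond H, eN ξ])
      (a := ![w, l, h, x])
      (R := fun _ E v => IsCut E (v 0) (v 1) (v 3) ∧ InMg E (v 0) (v 2) (v 3))
      ((dfn_isCut 0 1 3).and (dfn_inMg 0 2 3)) (den4 hw hl hh hξ)).1
      ⟨hcut, (inMg_iff hw hh).2 hM⟩
    exact (den_sepN hX x).2 ⟨ξ, r, hr, le_top, hf, hξ⟩

/-- the body of the definition of meager sets -/
def MBody : Pred 6 := fun _ E v => IsInj E (v 5) (v 4) (v 0) ∧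
  (∀ y, E y (v 4) → IsSub E y (v 2) ∧ IsNwd E (v 0) (v 1) y) ∧
  ∀ x, E x (v 3) ↔ ∃ y, E y (v 4) ∧ E x y

theorem dfn_mbody : Dfn MBody :=
  .and (dfn_isInj _ _ _) (.and (.all (.imp (.mem _ _) (.and (dfn_isSub _ _) (dfn_isNwd _ _ _))))
    (.all (.iff (.mem _ _) (.ex (.and (.mem _ _) (.mem _ _))))))

/-- the `m`-th nowhere dense set avoids the interval `(c, d]` -/
def AvB : Pred 5 := fun _ E v => ∀ y, E y (v 1) → Rel E (v 0) y (v 2) → ∀ x, E x y →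
  ¬ (E (v 3) x ∧ ¬ E (v 4) x)

theorem dfn_avB : Dfn AvB :=
  .all (.imp (.mem _ _) (.imp (dfn_rel _ _ _) (.all (.imp (.mem _ _)
    (.not (.and (.mem _ _) (.not (.mem _ _))))))))

theorem fc_of_ex {q : Cond} {F : Finset Pos} {n : ℕ} {v : Fin n → Name Cond} {R : Pred n}
    (hR : Dfn R) (h : ∀ t ⊆ F, Fc (q.ex F t) v R) : Fc q v R := by
  refine Fc.stable hR fun r hr => ?_
  obtain ⟨t, ht, r', hr', hr''⟩ := exists_ex_le F hr
  exact ⟨r', hr', (h t ht).mono hr''⟩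

/-- **Meager sets are covered.** -/
theorem meager_cover {p : Cond} {χ : Name Cond}
    (hp : Fc p ![onN Cond ω, ltN Cond, rN, χ]
      (fun _ E v => IsMeager E (v 0) (v 0) (v 1) (v 2) (v 3))) :
    ∃ q ≤ p, ∃ H : MCode, Fc q ![χ, mN H] (fun _ E v => IsSub E (v 0) (v 1)) := by
  classical
  -- names of the witnesses
  have h1 : ∃ q0 ≤ p, ∃ ν φ : Name Cond, Fc q0 ![onN Cond ω, ltN Cond, rN, χ, ν, φ] MBody := by
    obtain ⟨g, hg, -, a, ha⟩ := exists_gen_set p ![onN Cond ω, ltN Cond, rN, χ] (L := ∅)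
      Set.countable_empty
    obtain ⟨N, ⟨f, hf⟩, hN, hU⟩ := hp g hg a ha
    obtain ⟨ν, hν⟩ := g.exists_den N
    obtain ⟨φ, hφ⟩ := g.exists_den f
    obtain ⟨q, hq, hfq⟩ := (Fc.truth (v := ![onN Cond ω, ltN Cond, rN, χ, ν, φ])
      (a := ![a 0, a 1, a 2, a 3, N, f]) dfn_mbody
      (den6 (ha 0) (ha 1) (ha 2) (ha 3) hν hφ)).1 ⟨hf, hN, hU⟩
    obtain ⟨r, hr, h2, h3⟩ := g.dir p hg q hq
    exact ⟨r, h2, ν, φ, hfq.mono h3⟩
  obtain ⟨q0, hq0, ν, φ, hB⟩ := h1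
  -- the avoidance relation
  let Av : Cond → ℕ → ℚ → ℚ → Prop := fun q m c d =>
    Fc q ![φ, ν, onN Cond m, qN Cond c, qN Cond d] AvB
  have hAvmono : ∀ q q' m c d, Av q m c d → q' ≤ q → Av q' m c d :=
    fun q q' m c d h hle => h.mono hle
  have hAvsub : ∀ q ≤ q0, ∀ m c d c' d', Av q m c d → c < c' → d' < d → Av q m c' d' := by
    intro q hq m c d c' d' h hc hd
    refine Fc.with_names dfn_avB (L := {onN Cond ω, ltN Cond, rN, χ}) (by simp) ?_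
    intro g hg hL u hu y hy hym x hx hcd
    obtain ⟨w, hw⟩ := hL (onN Cond ω) (by simp)
    obtain ⟨l, hl⟩ := hL (ltN Cond) (by simp)
    obtain ⟨R, hR⟩ := hL rN (by simp)
    obtain ⟨X, hX⟩ := hL χ (by simp)
    have e0 : g.Den φ (u 0) := hu 0
    have e1 : g.Den ν (u 1) := hu 1
    have e2 : g.Den (onN Cond m) (u 2) := hu 2
    have e3 : g.Den (qN Cond c') (u 3) := hu 3
    have e4 : g.Den (qN Cond d') (u 4) := hu 4
    obtain ⟨-, hN, -⟩ := hB g (g.up q hg q0 hq) ![w, l, R, X, u 1, u 0]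
      (den6 hw hl hR hX e1 e0)
    obtain ⟨b, hb⟩ := exists_qN hw c
    obtain ⟨b', hb'⟩ := exists_qN hw d
    have hcut := (isCut_iff hw hl x).1 ((isReals_rN hw hl hR x).1 ((hN y hy).1 x hx))
    obtain ⟨-, -, -, hdown, -⟩ := hcut
    refine h g hg ![u 0, u 1, u 2, b, b'] (den5 e0 e1 e2 hb hb') y hy hym x hx ⟨?_, ?_⟩
    · exact (mem_cs hb).1 (hdown c' ((mem_cs e3).2 hcd.1) c hc)
    · intro hdx
      exact hcd.2 ((mem_cs e4).1 (hdown d ((mem_cs hb').2 hdx) d' hd))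
  have hAvd : ∀ r ≤ q0, ∀ m c d, c < d → ∃ r' ≤ r, ∃ c' d', c < c' ∧ c' < d' ∧ d' < d ∧
      Av r' m c' d' := by
    intro r hr m c d hcd
    obtain ⟨g, hg, -, a, ha⟩ := exists_gen_set r ![onN Cond ω, ltN Cond, rN, χ, ν, φ] (L := ∅)
      Set.countable_empty
    obtain ⟨hf, hN, -⟩ := hB g (g.up r hg q0 hr) a ha
    have e0 : g.Den (onN Cond ω) (a 0) := ha 0
    have e1 : g.Den (ltN Cond) (a 1) := ha 1
    have e4 : g.Den ν (a 4) := ha 4
    have e5 : g.Den φ (a 5) := ha 5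
    obtain ⟨m', hm'⟩ := exists_den_nat e0 m
    have key : ∃ c' d', c < c' ∧ c' < d' ∧ d' < d ∧ ∀ y, g.E y (a 4) → Rel g.E (a 5) y m' →
        ∀ x, g.E x y → ¬ (c' ∈ cs g x ∧ d' ∉ cs g x) := by
      by_cases hex : ∃ y, g.E y (a 4) ∧ Rel g.E (a 5) y m'
      · obtain ⟨y, hy, hym⟩ := hex
        obtain ⟨c', d', h1, h2, h3, h4⟩ := (isNwd_iff e0 e1 y).1 (hN y hy).2 c d hcd
        refine ⟨c', d', h1, h2, h3, fun y' hy' hy'm x hx => ?_⟩
        have : y' = y := hf.2 _ _ _ hy' hy hy'm hym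
        rw [this] at hx
        exact h4 x hx
      · push Not at hex
        obtain ⟨c', h1, h2⟩ := exists_between hcd
        obtain ⟨d', h3, h4⟩ := exists_between h2
        exact ⟨c', d', h1, h3, h4, fun y hy hym => absurd hym (hex y hy)⟩
    obtain ⟨c', d', h1, h2, h3, h4⟩ := key
    obtain ⟨b, hb⟩ := exists_qN e0 c'
    obtain ⟨b', hb'⟩ := exists_qN e0 d'
    obtain ⟨r1, hr1, hfr⟩ := (Fc.truth (v := ![φ, ν, onN Cond m, qN Cond c', qN Cond d'])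
      (a := ![a 5, a 4, m', b, b']) dfn_avB (den5 e5 e4 hm' hb hb')).1 (by
        intro y hy hym x hx
        have := h4 y hy hym x hx
        rw [mem_cs hb, mem_cs hb'] at this
        exact this)
    obtain ⟨r2, hr2, h5, h6⟩ := g.dir r hg r1 hr1
    exact ⟨r2, h5, c', d', h1, h2, h3, hfr.mono h6⟩
  -- fusion
  let dk : ℕ ≃ ℕ × ℚ × ℚ := (Denumerable.eqv (ℕ × ℚ × ℚ)).symm
  obtain ⟨q, hq, hS⟩ := fusion (p := q0)
    (S := fun k _ q => (dk k).2.1 < (dk k).2.2 → ∃ c d, (dk k).2.1 < c ∧ c < d ∧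
      d < (dk k).2.2 ∧ Av q (dk k).1 c d)
    (by
      intro k F q q' h hle _ hlt
      obtain ⟨c, d, h1, h2, h3, h4⟩ := h hlt
      exact ⟨c, d, h1, h2, h3, hAvmono _ _ _ _ _ h4 hle⟩)
    (by
      intro k F q hqq0 hq
      by_cases hlt : (dk k).2.1 < (dk k).2.2
      swap
      · exact ⟨q, le_rfl, hq, fun h => absurd h hlt⟩
      have key : ∀ T : Finset (Finset Pos), ∃ q' ≤ q, Free F q' ∧ ∃ c d, (dk k).2.1 < c ∧ c < d ∧
          d < (dk k).2.2 ∧ ∀ t ∈ T, Av (q'.ex F t) (dk k).1 c d := by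
        intro T
        induction T using Finset.induction_on with
        | empty =>
          obtain ⟨c, h1, h2⟩ := exists_between hlt
          obtain ⟨d, h3, h4⟩ := exists_between h2
          exact ⟨q, le_rfl, hq, c, d, h1, h3, h4, by simp⟩
        | insert t T _ ih =>
          obtain ⟨q', hq', hfree, c, d, h1, h2, h3, h4⟩ := ih
          obtain ⟨r, hr, c', d', h5, h6, h7, h8⟩ := hAvd (q'.ex F t)
            ((ex_le hfree).trans (hq'.trans hqq0)) (dk k).1 c d h2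
          refine ⟨r.erase F, (erase_le hfree hr).trans hq', free_erase _ _, c', d',
            h1.trans h5, h6, h7.trans h3, ?_⟩
          intro u hu
          rcases Finset.mem_insert.1 hu with rfl | hu
          · rw [erase_ex hr]
            exact h8
          · refine hAvsub _ ?_ _ _ _ _ _ (hAvmono _ _ _ _ _ (h4 u hu)
              (ex_mono _ _ (erase_le hfree hr))) h5 h7
            exact (ex_le (free_erase _ _)).trans ((erase_le hfree hr).trans (hq'.trans hqq0))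
      obtain ⟨q', hq', hfree, c, d, h1, h2, h3, h4⟩ := key F.powerset
      exact ⟨q', hq', hfree, fun _ => ⟨c, d, h1, h2, h3,
        fc_of_ex dfn_avB fun t ht => h4 t (Finset.mem_powerset.2 ht)⟩⟩)
  have hdense : ∀ m a b, a < b → ∃ c d, Av q m c d ∧ a < c ∧ c < d ∧ d < b := by
    intro m a b hab
    obtain ⟨F, -, h⟩ := hS (dk.symm (m, a, b))
    rw [Equiv.apply_symm_apply] at h
    obtain ⟨c, d, h1, h2, h3, h4⟩ := h hab
    exact ⟨c, d, h4, h1, h2, h3⟩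
  let H : MCode := ⟨fun m => {z | Av q m z.1 z.2}, hdense⟩
  refine ⟨q, hq.trans hq0, H, ?_⟩
  refine Fc.with_names (dfn_isSub 0 1)
    (L := {onN Cond ω, ltN Cond, rN, ν, φ, HN Cond H}) (by simp) ?_
  intro g hg hL u hu x hx
  obtain ⟨w, hw⟩ := hL (onN Cond ω) (by simp)
  obtain ⟨l, hl⟩ := hL (ltN Cond) (by simp)
  obtain ⟨R, hR⟩ := hL rN (by simp)
  obtain ⟨N, hN⟩ := hL ν (by simp)
  obtain ⟨f, hf⟩ := hL φ (by simp)
  obtain ⟨h, hh⟩ := hL (HN Cond H) (by simp)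
  have e0 : g.Den χ (u 0) := hu 0
  have e1 : g.Den (mN H) (u 1) := hu 1
  obtain ⟨hinj, hNn, hU⟩ := hB g (g.up q hg q0 hq) ![w, l, R, u 0, N, f]
    (den6 hw hl hR e0 hN hf)
  obtain ⟨y, hy, hxy⟩ := (hU x).1 hx
  obtain ⟨m, hm, hym, -⟩ := hinj.1 y hy
  obtain ⟨β, hβ, hmβ⟩ := (den_onN hw m).1 hm
  obtain ⟨n, rfl⟩ := lt_omega0.1 hβ
  refine (mem_mN hw hl hR hh e1).2 ⟨(hNn y hy).1 x hxy, n, fun c d hcd => ?_⟩
  obtain ⟨b, hb⟩ := exists_qN hw c
  obtain ⟨b', hb'⟩ := exists_qN hw d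
  have := hcd g hg ![f, N, m, b, b'] (den5 hf hN hmβ hb hb') y hy hym x hxy
  rw [mem_cs hb, mem_cs hb']
  exact this

/-! ### Coded meager sets are meager -/

theorem isMeager_mN {w l R X : g.M} {H : MCode} (hw : g.Den (onN Cond ω) w)
    (hl : g.Den (ltN Cond) l) (hR : g.Den rN R) (hX : g.Den (mN H) X) :
    IsMeager g.E w w l R X := by
  refine Gen.tn (v := ![onN Cond ω, ltN Cond, rN, mN H]) (a := ![w, l, R, X])
    (den4 hw hl hR hX) Dfn.true (S := fun _ E v => IsMeager E (v 0) (v 0) (v 1) (v 2) (v 3))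
    (dfn_isMeager 0 0 1 2 3) (L := {HN Cond H}) (Set.countable_singleton _) ?_ trivial
  intro g' hL u hu _
  obtain ⟨h, hh⟩ := hL _ rfl
  have e0 : g'.Den (onN Cond ω) (u 0) := hu 0
  have e1 : g'.Den (ltN Cond) (u 1) := hu 1
  have e2 : g'.Den rN (u 2) := hu 2
  have e3 : g'.Den (mN H) (u 3) := hu 3
  have hz := g'.zfc
  obtain ⟨pR, hpR⟩ := hz.power (u 2)
  -- the set of the nowhere dense pieces
  obtain ⟨N, hN⟩ := hz.sep (n := 3) (R := fun _ E v => ∃ m, E m (v 0) ∧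
      ∀ x, E x (v 3) ↔ E x (v 1) ∧ Avd E (v 2) m x)
    (.ex (.and (.mem _ _) (.all (.iff (.mem _ _) (.and (.mem _ _) (dfn_avd _ _ _))))))
    ![u 0, u 2, h] pR
  have hN' : ∀ Y, g'.E Y N ↔ g'.E Y pR ∧ ∃ m, g'.E m (u 0) ∧
      ∀ x, g'.E x Y ↔ g'.E x (u 2) ∧ Avd g'.E h m x := fun Y => by
    have := hN Y
    rw [ext_vec3] at this
    exact this
  have hpiece : ∀ m, ∃ Y, ∀ x, g'.E x Y ↔ g'.E x (u 2) ∧ Avd g'.E h m x := by
    intro m
    obtain ⟨Y, hY⟩ := hz.sep (n := 2) (R := fun _ E v => Avd E (v 0) (v 1) (v 2))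
      (dfn_avd 0 1 2) ![h, m] (u 2)
    exact ⟨Y, fun x => by
      have := hY x
      rw [ext_vec2] at this
      exact this⟩
  have hpieceN : ∀ m Y, g'.E m (u 0) → (∀ x, g'.E x Y ↔ g'.E x (u 2) ∧ Avd g'.E h m x) →
      g'.E Y N := by
    intro m Y hm hY
    exact (hN' Y).2 ⟨(hpR Y).2 fun x hx => ((hY x).1 hx).1, m, hm, hY⟩
  refine ⟨N, ?_, ?_, ?_⟩
  · obtain ⟨F, hF⟩ := hz.exists_rel (n := 2) (R := fun _ E v =>
      ∀ x, E x (v 3) ↔ E x (v 0) ∧ Avd E (v 1) (v 2) x)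
      (.all (.iff (.mem _ _) (.and (.mem _ _) (dfn_avd _ _ _)))) ![u 2, h] (u 0) N
    have hF' : ∀ m Y, Rel g'.E F m Y ↔ g'.E m (u 0) ∧ g'.E Y N ∧
        ∀ x, g'.E x Y ↔ g'.E x (u 2) ∧ Avd g'.E h m x := fun m Y => by
      have := hF m Y
      rw [ext_vec2, ext_vec3] at this
      exact this
    refine hz.sizeLe_of_surj g'.wf_E (F := F) (onN_total e0) (onN_trans e0) ?_ ?_
    · intro m Y Y' _ _ _ h1 h2
      refine Gen.extensional fun x => ?_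
      rw [((hF' m Y).1 h1).2.2 x, ((hF' m Y').1 h2).2.2 x]
    · intro Y hY
      obtain ⟨-, m, hm, hYm⟩ := (hN' Y).1 hY
      exact ⟨m, hm, (hF' m Y).2 ⟨hm, hY, hYm⟩⟩
  · intro Y hY
    obtain ⟨-, m, hm, hYm⟩ := (hN' Y).1 hY
    refine ⟨fun x hx => ((hYm x).1 hx).1, (isNwd_iff e0 e1 Y).2 fun a b hab => ?_⟩
    obtain ⟨β, hβ, hmβ⟩ := (den_onN e0 m).1 hm
    obtain ⟨n, rfl⟩ := lt_omega0.1 hβ
    obtain ⟨c, d, h1, h2, h3, h4⟩ := H.2 n a b hab
    exact ⟨c, d, h2, h3, h4, fun x hx => (avd_iff e0 hh hmβ).1 ((hYm x).1 hx).2 c d h1⟩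
  · intro x
    rw [mem_mN e0 e1 e2 hh e3]
    constructor
    · rintro ⟨hx, n, hn⟩
      obtain ⟨m, hm⟩ := exists_den_nat e0 n
      obtain ⟨Y, hY⟩ := hpiece m
      have hmw : g'.E m (u 0) := (den_onN e0 m).2 ⟨_, natCast_lt_omega0 n, hm⟩
      exact ⟨Y, hpieceN m Y hmw hY, (hY x).2 ⟨hx, (avd_iff e0 hh hm).2 hn⟩⟩
    · rintro ⟨Y, hYN, hxY⟩
      obtain ⟨-, m, hm, hYm⟩ := (hN' Y).1 hYN
      obtain ⟨β, hβ, hmβ⟩ := (den_onN e0 m).1 hm
      obtain ⟨n, rfl⟩ := lt_omega0.1 hβ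
      exact ⟨((hYm x).1 hxY).1, n, (avd_iff e0 hh hmβ).1 ((hYm x).1 hxY).2⟩

/-- singletons are meager -/
theorem isMeager_singleton {w l R x X : g.M} (hw : g.Den (onN Cond ω) w)
    (hl : g.Den (ltN Cond) l) (hx : g.E x R) (hX : IsPair g.E x x X) :
    IsMeager g.E w w l R X := by
  have hX' : ∀ z, g.E z X ↔ z = x := fun z => by rw [hX z]; simp
  obtain ⟨N, hN⟩ := g.zfc.pairing X X
  have hN' : ∀ z, g.E z N ↔ z = X := fun z => by rw [hN z]; simp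
  refine ⟨N, ?_, ?_, ?_⟩
  · obtain ⟨z, hz⟩ := exists_den_nat hw 0
    refine g.zfc.sizeLe_of_rel (n := 1) (R := fun _ _ v => v 0 = v 2) (.eq 0 2) ![z] ?_ ?_ ?_
    · intro y _
      exact ⟨z, (den_onN hw z).2 ⟨_, natCast_lt_omega0 0, hz⟩, rfl⟩
    · intro y a b _ _ _ h1 h2
      exact Eq.trans (Eq.symm h1) h2
    · intro y y' _ hy hy' _ _ _
      rw [(hN' y).1 hy, (hN' y').1 hy']
  · intro y hy
    rw [(hN' y).1 hy]
    refine ⟨fun z hz => by rw [(hX' z).1 hz]; exact hx, (isNwd_iff hw hl X).2 ?_⟩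
    intro a b hab
    obtain ⟨e, hae, heb⟩ := exists_between hab
    by_cases he : e ∈ cs g x
    · obtain ⟨c, hac, hce⟩ := exists_between hae
      refine ⟨c, e, hac, hce, heb, fun z hz => ?_⟩
      rw [(hX' z).1 hz]
      exact fun h => h.2 he
    · obtain ⟨d, hed, hdb⟩ := exists_between heb
      refine ⟨e, d, hae, hed, hdb, fun z hz => ?_⟩
      rw [(hX' z).1 hz]
      exact fun h => he h.1
  · intro z
    constructor
    · intro hz
      exact ⟨X, (hN' X).2 rfl, hz⟩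
    · rintro ⟨y, hy, hzy⟩
      rwa [(hN' y).1 hy] at hzy

end Pool.Agent.H90.Frc
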