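import Mathlib

/-!
# Forcing names and the atomic forcing relation

`P` is a partial order living in `Type`.  A `P`-name is a small family of pairs (name, condition).
`Feq σ τ p` says that `p` forces `σ = τ` and `Fmem σ τ p` says that `p` forces `σ ∈ τ`.
-/

set_option autoImplicit false

namespace Pool.Agent.H90.Frc

/-- A name over the partial order `P`: a small family of pairs (name, condition). -/
inductive Name (P : Type) : Type 1
  | mk (ι : Type) (A : ι → Name P) (r : ι → P) : Name P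

namespace Name

variable {P : Type}

/-- the index type of a name -/
def idx : Name P → Type
  | mk ι _ _ => ι

/-- the members of a name -/
def A : (τ : Name P) → τ.idx → Name P
  | mk _ A _ => A

/-- the conditions of a name -/
def r : (τ : Name P) → τ.idx → P
  | mk _ _ r => r

@[simp] theorem idx_mk (ι : Type) (A : ι → Name P) (r : ι → P) : (mk ι A r).idx = ι := rfl
@[simp] theorem A_mk (ι : Type) (A : ι → Name P) (r : ι → P) : (mk ι A r).A = A := rfl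
@[simp] theorem r_mk (ι : Type) (A : ι → Name P) (r : ι → P) : (mk ι A r).r = r := rfl

theorem eta (τ : Name P) : mk τ.idx τ.A τ.r = τ := by cases τ; rfl

/-- the relation of being one of the members -/
def Sub (σ τ : Name P) : Prop := ∃ i, σ = τ.A i

theorem wf_sub : WellFounded (Sub (P := P)) := by
  constructor
  intro τ
  induction τ with
  | mk ι A r ih =>
    constructor
    rintro σ ⟨i, rfl⟩
    exact ih i

end Name

open Name

variable {P : Type} [PartialOrder P]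

/-- `p` forces `σ = τ`. -/
def Feq : Name P → Name P → P → Prop
  | mk _ A r, mk _ B s => fun p =>
    (∀ i, ∀ q ≤ p, q ≤ r i → ∃ q' ≤ q, ∃ j, q' ≤ s j ∧ Feq (A i) (B j) q') ∧
    (∀ j, ∀ q ≤ p, q ≤ s j → ∃ q' ≤ q, ∃ i, q' ≤ r i ∧ Feq (A i) (B j) q')

theorem feq_def (σ τ : Name P) (p : P) : Feq σ τ p ↔
    (∀ i, ∀ q ≤ p, q ≤ σ.r i → ∃ q' ≤ q, ∃ j, q' ≤ τ.r j ∧ Feq (σ.A i) (τ.A j) q') ∧
    (∀ j, ∀ q ≤ p, q ≤ τ.r j → ∃ q' ≤ q, ∃ i, q' ≤ σ.r i ∧ Feq (σ.A i) (τ.A j) q') := by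
  cases σ; cases τ; rfl

/-- `p` forces `σ ∈ τ`. -/
def Fmem (σ τ : Name P) (p : P) : Prop :=
  ∀ q ≤ p, ∃ q' ≤ q, ∃ j, q' ≤ τ.r j ∧ Feq σ (τ.A j) q'

theorem Feq.mono {σ τ : Name P} {p q : P} (h : Feq σ τ p) (hq : q ≤ p) : Feq σ τ q := by
  rw [feq_def] at h ⊢
  exact ⟨fun i r hr => h.1 i r (hr.trans hq), fun i r hr => h.2 i r (hr.trans hq)⟩

theorem Fmem.mono {σ τ : Name P} {p q : P} (h : Fmem σ τ p) (hq : q ≤ p) : Fmem σ τ q :=
  fun r hr => h r (hr.trans hq)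

theorem Feq.refl (σ : Name P) (p : P) : Feq σ σ p := by
  induction σ generalizing p with
  | mk ι A r ih =>
    rw [feq_def]
    exact ⟨fun i q _ hr => ⟨q, le_rfl, i, hr, ih i q⟩, fun i q _ hr => ⟨q, le_rfl, i, hr, ih i q⟩⟩

theorem Feq.symm {σ τ : Name P} {p : P} (h : Feq σ τ p) : Feq τ σ p := by
  induction σ generalizing τ p with
  | mk ι A r ih =>
    rw [feq_def] at h ⊢
    refine ⟨fun j q hq hr => ?_, fun i q hq hr => ?_⟩
    · obtain ⟨q', hq', i, hi, h'⟩ := h.2 j q hq hr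
      exact ⟨q', hq', i, hi, ih i h'⟩
    · obtain ⟨q', hq', i, hi, h'⟩ := h.1 i q hq hr
      exact ⟨q', hq', i, hi, ih _ h'⟩

theorem Feq.stable {σ τ : Name P} {p : P} (h : ∀ q ≤ p, ∃ r ≤ q, Feq σ τ r) : Feq σ τ p := by
  rw [feq_def]
  refine ⟨fun i q hq hr => ?_, fun i q hq hr => ?_⟩
  · obtain ⟨q1, hq1, h1⟩ := h q hq
    rw [feq_def] at h1
    obtain ⟨q2, hq2, j, hj, h2⟩ := h1.1 i q1 le_rfl (hq1.trans hr)
    exact ⟨q2, hq2.trans hq1, j, hj, h2⟩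
  · obtain ⟨q1, hq1, h1⟩ := h q hq
    rw [feq_def] at h1
    obtain ⟨q2, hq2, j, hj, h2⟩ := h1.2 i q1 le_rfl (hq1.trans hr)
    exact ⟨q2, hq2.trans hq1, j, hj, h2⟩

theorem Feq.trans {σ τ ρ : Name P} {p : P} (h : Feq σ τ p) (h' : Feq τ ρ p) : Feq σ ρ p := by
  induction τ generalizing σ ρ p with
  | mk ι A r ih =>
    rw [feq_def] at h h' ⊢
    refine ⟨fun i q hq hr => ?_, fun k q hq hr => ?_⟩
    · obtain ⟨q1, hq1, j, hj, h1⟩ := h.1 i q hq hr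
      obtain ⟨q2, hq2, k, hk, h2⟩ := h'.1 j q1 (hq1.trans hq) hj
      exact ⟨q2, hq2.trans hq1, k, hk, ih j (h1.mono hq2) h2⟩
    · obtain ⟨q1, hq1, j, hj, h1⟩ := h'.2 k q hq hr
      obtain ⟨q2, hq2, i, hi, h2⟩ := h.2 j q1 (hq1.trans hq) hj
      exact ⟨q2, hq2.trans hq1, i, hi, ih j h2 (h1.mono hq2)⟩

theorem Fmem.stable {σ τ : Name P} {p : P} (h : ∀ q ≤ p, ∃ r ≤ q, Fmem σ τ r) : Fmem σ τ p := by
  intro q hq
  obtain ⟨r, hr, h1⟩ := h q hq
  obtain ⟨q', hq', j, hj, h2⟩ := h1 r le_rfl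
  exact ⟨q', hq'.trans hr, j, hj, h2⟩

theorem Fmem.congr_left {σ σ' τ : Name P} {p : P} (h : Fmem σ τ p) (h' : Feq σ σ' p) :
    Fmem σ' τ p := by
  intro q hq
  obtain ⟨q', hq', j, hj, h2⟩ := h q hq
  exact ⟨q', hq', j, hj, (h'.symm.mono (hq'.trans hq)).trans h2⟩

theorem Fmem.congr_right {σ τ τ' : Name P} {p : P} (h : Fmem σ τ p) (h' : Feq τ τ' p) :
    Fmem σ τ' p := by
  intro q hq
  obtain ⟨q1, hq1, j, hj, h2⟩ := h q hq
  rw [feq_def] at h'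
  obtain ⟨q2, hq2, k, hk, h3⟩ := h'.1 j q1 (hq1.trans hq) hj
  exact ⟨q2, hq2.trans hq1, k, hk, (h2.mono hq2).trans h3⟩

theorem fmem_of (τ : Name P) (j : τ.idx) {p : P} (h : p ≤ τ.r j) : Fmem (τ.A j) τ p :=
  fun q hq => ⟨q, le_rfl, j, hq.trans h, Feq.refl _ _⟩

/-- Extensionality at the level of forcing. -/
theorem feq_of_mem_iff {σ τ : Name P} {p : P}
    (h : ∀ ρ : Name P, ∀ q ≤ p, Fmem ρ σ q → Fmem ρ τ q)
    (h' : ∀ ρ : Name P, ∀ q ≤ p, Fmem ρ τ q → Fmem ρ σ q) : Feq σ τ p := by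
  rw [feq_def]
  refine ⟨fun i q hq hr => ?_, fun i q hq hr => ?_⟩
  · exact h (σ.A i) q hq (fmem_of σ i hr) q le_rfl
  · obtain ⟨q', hq', j, hj, h2⟩ := h' (τ.A i) q hq (fmem_of τ i hr) q le_rfl
    exact ⟨q', hq', j, hj, h2.symm⟩

end Pool.Agent.H90.Frc
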