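import Pool.Agent.H90.Frc.Gen

/-!
# Constructions of names: pairs, ordinals, relations
-/

set_option autoImplicit false

namespace Pool.Agent.H90.Frc

open Ordinal

/-! ### Ordered pairs in arbitrary structures -/

section structure_lemmas

variable {M : Type} {E : M → M → Prop}

theorem IsOPair.inj {a b a' b' c : M} (h : IsOPair E a b c) (h' : IsOPair E a' b' c) :
    a = a' ∧ b = b' := by
  obtain ⟨s, t, hs, ht, hc⟩ := h
  obtain ⟨s', t', hs', ht', hc'⟩ := h'
  have e1 : s = s' ∨ s = t' := (hc' s).1 ((hc s).2 (Or.inl rfl))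
  have e2 : t = s' ∨ t = t' := (hc' t).1 ((hc t).2 (Or.inr rfl))
  have e3 : s' = s ∨ s' = t := (hc s').1 ((hc' s').2 (Or.inl rfl))
  have e4 : t' = s ∨ t' = t := (hc t').1 ((hc' t').2 (Or.inr rfl))
  have hs1 : ∀ z, E z s ↔ z = a := fun z => by rw [hs z]; simp
  have hs1' : ∀ z, E z s' ↔ z = a' := fun z => by rw [hs' z]; simp
  have haa : a = a' := by
    rcases e1 with e | e
    · have := (hs1 a).2 rfl
      rw [e] at this
      exact (hs1' a).1 this
    · have h1 : E a' s := by rw [e]; exact (ht' a').2 (Or.inl rfl)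
      exact ((hs1 a').1 h1).symm
  subst haa
  refine ⟨rfl, ?_⟩
  have hb : E b t := (ht b).2 (Or.inr rfl)
  have hb' : E b' t' := (ht' b').2 (Or.inr rfl)
  rcases e2 with e | e
  · -- t = s' = {a}, so b = a
    have hba : b = a := by rw [e] at hb; exact (hs1' b).1 hb
    rcases e4 with e' | e'
    · rw [e'] at hb'
      rw [hba, (hs1 b').1 hb']
    · rw [e', e] at hb'
      rw [hba, (hs1' b').1 hb']
  · rw [← e] at hb'
    rcases (ht b').1 hb' with h1 | h1
    · rw [e] at hb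
      rcases (ht' b).1 hb with h2 | h2
      · rw [h1, h2]
      · exact h2
    · exact h1.symm

end structure_lemmas

variable {P : Type} [PartialOrder P] [OrderTop P]

theorem Gen.top_mem (g : Gen P) : (⊤ : P) ∈ g.G := by
  obtain ⟨p, hp⟩ := g.ne
  exact g.up p hp ⊤ le_top

variable {g : Gen P}

/-! ### Empty set, unordered and ordered pairs -/

/-- name of the empty set -/
def emptyN (P : Type) : Name P := .mk Empty Empty.elim Empty.elim

/-- name of the unordered pair -/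
def pairN (σ τ : Name P) : Name P := .mk Bool (fun b => bif b then σ else τ) (fun _ => ⊤)

/-- name of the ordered pair -/
def opN (σ τ : Name P) : Name P := pairN (pairN σ σ) (pairN σ τ)

omit [OrderTop P] in
theorem den_emptyN {a : g.M} (h : g.Den (emptyN P) a) (z : g.M) : ¬ g.E z a := by
  rw [Gen.mem_iff h]
  rintro ⟨i, -⟩
  exact i.elim

theorem den_pairN {σ τ : Name P} {c : g.M} (h : g.Den (pairN σ τ) c) :
    ∃ a b, g.Den σ a ∧ g.Den τ b ∧ IsPair g.E a b c := by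
  have hc : Countable (pairN σ τ).idx := inferInstanceAs (Countable Bool)
  obtain ⟨a, ha⟩ := h.of_countable hc (show (pairN σ τ).idx from true)
  obtain ⟨b, hb⟩ := h.of_countable hc (show (pairN σ τ).idx from false)
  refine ⟨a, b, ha, hb, fun z => ?_⟩
  rw [Gen.mem_iff h]
  constructor
  · rintro ⟨i, -, hi⟩
    cases i with
    | true => exact Or.inl (hi.unique ha)
    | false => exact Or.inr (hi.unique hb)
  · rintro (rfl | rfl)
    · exact ⟨(true : Bool), g.top_mem, ha⟩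
    · exact ⟨(false : Bool), g.top_mem, hb⟩

theorem den_pairN' {σ τ : Name P} {a b c : g.M} (h : g.Den (pairN σ τ) c) (ha : g.Den σ a)
    (hb : g.Den τ b) : IsPair g.E a b c := by
  obtain ⟨a', b', ha', hb', h'⟩ := den_pairN h
  rw [ha.unique ha', hb.unique hb']
  exact h'

theorem den_opN {σ τ : Name P} {c : g.M} (h : g.Den (opN σ τ) c) :
    ∃ a b, g.Den σ a ∧ g.Den τ b ∧ IsOPair g.E a b c := by
  obtain ⟨s, t, hs, ht, hc⟩ := den_pairN h
  obtain ⟨a, b, ha, hb, hab⟩ := den_pairN ht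
  refine ⟨a, b, ha, hb, s, t, den_pairN' hs ha ha, hab, hc⟩

theorem den_opN' {σ τ : Name P} {a b c : g.M} (h : g.Den (opN σ τ) c) (ha : g.Den σ a)
    (hb : g.Den τ b) : IsOPair g.E a b c := by
  obtain ⟨a', b', ha', hb', h'⟩ := den_opN h
  rw [ha.unique ha', hb.unique hb']
  exact h'

/-! ### Witnesses -/

omit [OrderTop P] in
theorem force_ex_of {n : ℕ} {φ : Fml (n + 1)} {v : Fin n → Name P} {p : P} (σ : Name P)
    (h : Force φ (ext v σ) p) : Force φ.neg.all.neg v p :=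
  fun _ hq hf => hf σ _ le_rfl (h.mono hq)

omit [OrderTop P] in
/-- If some condition in `G` forces `R` of a name then `R` holds for some element. -/
theorem Gen.exists_of_fc {g : Gen P} {n : ℕ} {v : Fin n → Name P} {a : Fin n → g.M}
    (ha : ∀ i, g.Den (v i) (a i)) {R : Pred (n + 1)} (hR : Dfn R) {p : P} (hp : p ∈ g.G)
    (σ : Name P) (h : Fc p (ext v σ) R) : ∃ b, R g.M g.E (ext a b) := by
  obtain ⟨φ, hφ, hφ'⟩ := Fc.exists_force (v := ext v σ) hR
  have h1 : Sat g.E φ.neg.all.neg a := (Gen.sat_iff ha).2 ⟨p, hp, force_ex_of σ ((hφ p).1 h)⟩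
  simp only [Sat] at h1
  push Not at h1
  obtain ⟨b, hb⟩ := h1
  exact ⟨b, (hφ' _ _ _).2 hb⟩

omit [OrderTop P] in
theorem Fc.exists_of {n : ℕ} {v : Fin n → Name P} {R : Pred (n + 1)} (hR : Dfn R) {p : P}
    (σ : Name P) (h : Fc p (ext v σ) R) : Fc p v (fun M E a => ∃ b, R M E (ext a b)) :=
  fun _ hg _ ha => Gen.exists_of_fc ha hR hg σ h

omit [OrderTop P] in
/-- A forced existential statement has a name as witness below some stronger condition. -/
theorem Fc.exists_name {n : ℕ} {v : Fin n → Name P} {R : Pred (n + 1)} (hR : Dfn R) {p : P}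
    (h : Fc p v (fun M E a => ∃ b, R M E (ext a b))) : ∃ q ≤ p, ∃ σ, Fc q (ext v σ) R := by
  obtain ⟨g, hg, a, ha⟩ := exists_gen_fin p v
  obtain ⟨b, hb⟩ := h g hg a ha
  obtain ⟨σ, hσ⟩ := g.exists_den b
  obtain ⟨q, hq, hf⟩ := (Fc.truth hR (v := ext v σ) (a := ext a b) (by
    intro i
    refine Fin.lastCases ?_ (fun j => ?_) i
    · simpa using hσ
    · simpa using ha j)).1 hb
  obtain ⟨r, hr, h1, h2⟩ := g.dir p hg q hq
  exact ⟨r, h1, σ, hf.mono h2⟩

omit [OrderTop P] in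
/-- A forced bounded existential statement has a member of the name as witness. -/
theorem Fc.exists_mem {n : ℕ} {v : Fin n → Name P} {R : Pred (n + 1)} (hR : Dfn R) {p : P}
    (k : Fin n) (h : Fc p v (fun M E a => ∃ b, E b (a k) ∧ R M E (ext a b))) :
    ∃ q ≤ p, ∃ i, q ≤ (v k).r i ∧ Fc q (ext v ((v k).A i)) R := by
  obtain ⟨g, hg, a, ha⟩ := exists_gen_fin p v
  obtain ⟨b, hbk, hb⟩ := h g hg a ha
  rw [Gen.mem_iff (ha k)] at hbk
  obtain ⟨i, hi, hbi⟩ := hbk
  obtain ⟨q, hq, hf⟩ := (Fc.truth hR (v := ext v ((v k).A i)) (a := ext a b) (by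
    intro i
    refine Fin.lastCases ?_ (fun j => ?_) i
    · simpa using hbi
    · simpa using ha j)).1 hb
  obtain ⟨r, hr, h1, h2⟩ := g.dir p hg q hq
  obtain ⟨r', hr', h1', h2'⟩ := g.dir r hr _ hi
  exact ⟨r', h1'.trans h1, i, h2', hf.mono (h1'.trans h2)⟩

/-- ordered pairs exist in the generic structure -/
theorem Gen.exists_isPair (a b : g.M) : ∃ c, IsPair g.E a b c := by
  obtain ⟨σ, hσ⟩ := g.exists_den a
  obtain ⟨τ, hτ⟩ := g.exists_den b
  have := Gen.exists_of_fc (v := ![σ, τ]) (a := ![a, b])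
    (by intro i; fin_cases i; exacts [hσ, hτ]) (dfn_isPair 0 1 2) g.top_mem (pairN σ τ)
    (fun g' _ w hw => den_pairN' (hw 2) (hw 0) (hw 1))
  obtain ⟨c, hc⟩ := this
  rw [ext_vec2] at hc
  exact ⟨c, hc⟩

omit [OrderTop P] in
/-- extensionality in the generic structure -/
theorem Gen.extensional {a b : g.M} (h : ∀ z, g.E z a ↔ g.E z b) : a = b := by
  obtain ⟨σ, hσ⟩ := g.exists_den a
  obtain ⟨τ, hτ⟩ := g.exists_den b
  have hv : ∀ i, g.Den (![σ, τ] i) (![a, b] i) := by intro i; fin_cases i; exacts [hσ, hτ]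
  have hD : Dfn (n := 2) (fun _ E v => ∀ z, E z (v 0) ↔ E z (v 1)) :=
    .all (.iff (.mem _ _) (.mem _ _))
  obtain ⟨p, hp, hf⟩ := (Fc.truth hD hv).1 (by simpa using h)
  refine Gen.eq_of_dense hσ hτ hp ?_
  have key : ∀ ρ : Name P, ∀ q ≤ p, (Fmem ρ σ q ↔ Fmem ρ τ q) := by
    intro ρ q hq
    have h1 : Fmem ρ σ q ↔ Force (.mem 2 0) ![σ, τ, ρ] q := Iff.rfl
    have h2 : Fmem ρ τ q ↔ Force (.mem 2 1) ![σ, τ, ρ] q := Iff.rfl
    rw [h1, h2, force_iff, force_iff]
    refine forall_congr' fun g' => forall_congr' fun hg => forall_congr' fun w =>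
      forall_congr' fun hw => ?_
    have := hf g' (g'.up q hg p hq) ![w 0, w 1] (by intro i; fin_cases i; exacts [hw 0, hw 1])
    exact this (w 2)
  exact feq_of_mem_iff (fun ρ q hq h => (key ρ q hq).1 h) (fun ρ q hq h => (key ρ q hq).2 h)

theorem Gen.exists_isOPair (a b : g.M) : ∃ c, IsOPair g.E a b c := by
  obtain ⟨s, hs⟩ := Gen.exists_isPair a a
  obtain ⟨t, ht⟩ := Gen.exists_isPair a b
  obtain ⟨c, hc⟩ := Gen.exists_isPair s t
  exact ⟨c, s, t, hs, ht, hc⟩

/-! ### Names of relations -/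

/-- The name of a relation: a set of ordered pairs. -/
def relN {ι : Type} (A B : ι → Name P) (r : ι → P) : Name P := .mk ι (fun i => opN (A i) (B i)) r

theorem den_relN {ι : Type} {A B : ι → Name P} {r : ι → P} {f : g.M}
    (h : g.Den (relN A B r) f) (a b : g.M) :
    Rel g.E f a b ↔ ∃ i, r i ∈ g.G ∧ g.Den (A i) a ∧ g.Den (B i) b := by
  constructor
  · rintro ⟨c, hc, hcf⟩
    obtain ⟨i, hi, hci⟩ := (Gen.mem_iff h).1 hcf
    obtain ⟨a', b', ha', hb', hc'⟩ := den_opN hci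
    obtain ⟨rfl, rfl⟩ := hc.inj hc'
    exact ⟨i, hi, ha', hb'⟩
  · rintro ⟨i, hi, ha, hb⟩
    have := Gen.exists_of_fc (v := ![A i, B i, relN A B r]) (a := ![a, b, f])
      (by intro i; fin_cases i; exacts [ha, hb, h])
      (R := fun _ E w => IsOPair E (w 0) (w 1) (w 3) ∧ E (w 3) (w 2))
      ((dfn_isOPair 0 1 3).and (.mem 3 2)) hi (opN (A i) (B i))
      (fun g' hg w hw => ⟨den_opN' (hw 3) (hw 0) (hw 1),
        (Gen.mem_iff (hw 2)).2 ⟨i, hg, hw 3⟩⟩)
    obtain ⟨c, hc⟩ := this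
    rw [ext_vec3] at hc
    exact ⟨c, hc⟩

/-! ### Ordinals -/

/-- The canonical name of an ordinal. -/
noncomputable def onN (P : Type) [PartialOrder P] [OrderTop P] (α : Ordinal.{0}) : Name P :=
  .mk α.ToType (fun i => onN P i.toOrd.1) (fun _ => ⊤)
termination_by α
decreasing_by exact i.toOrd.2

theorem onN_def (α : Ordinal.{0}) :
    onN P α = .mk α.ToType (fun i => onN P i.toOrd.1) (fun _ => ⊤) := by
  rw [onN]

theorem den_onN {α : Ordinal.{0}} {a : g.M} (h : g.Den (onN P α) a) (z : g.M) :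
    g.E z a ↔ ∃ β < α, g.Den (onN P β) z := by
  rw [onN_def] at h
  rw [Gen.mem_iff h]
  constructor
  · rintro ⟨i, -, hi⟩
    exact ⟨_, i.toOrd.2, hi⟩
  · rintro ⟨β, hβ, hz⟩
    refine ⟨ToType.mk ⟨β, hβ⟩, g.top_mem, ?_⟩
    simpa [ToType.toOrd] using hz

omit [OrderTop P] in
theorem Gen.not_E_self (a : g.M) : ¬ g.E a a := fun h =>
  g.wf_E.irrefl.irrefl a h

theorem onN_mem_iff {α β : Ordinal.{0}} {a b : g.M} (ha : g.Den (onN P α) a)
    (hb : g.Den (onN P β) b) : g.E a b ↔ α < β := by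
  constructor
  · intro h
    rw [den_onN hb] at h
    obtain ⟨γ, hγ, hγa⟩ := h
    by_contra hcon
    have hαγ : γ < α := hγ.trans_le (not_lt.1 hcon)
    exact Gen.not_E_self a ((den_onN ha a).2 ⟨γ, hαγ, hγa⟩)
  · intro h
    exact (den_onN hb a).2 ⟨α, h, ha⟩

theorem onN_inj {α β : Ordinal.{0}} {a : g.M} (ha : g.Den (onN P α) a)
    (hb : g.Den (onN P β) a) : α = β := by
  by_contra hne
  rcases lt_or_gt_of_ne hne with h | h
  · exact Gen.not_E_self a ((onN_mem_iff ha hb).2 h)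
  · exact Gen.not_E_self a ((onN_mem_iff hb ha).2 h)

theorem onN_isOrd {α : Ordinal.{0}} {a : g.M} (ha : g.Den (onN P α) a) : IsOrd g.E a := by
  have key : ∀ {β : Ordinal.{0}} {b : g.M}, g.Den (onN P β) b → ∀ x, g.E x b →
      IsSub g.E x b := by
    intro β b hb x hx z hz
    rw [den_onN hb] at hx
    obtain ⟨γ, hγ, hγx⟩ := hx
    rw [den_onN hγx] at hz
    obtain ⟨δ, hδ, hδz⟩ := hz
    exact (den_onN hb z).2 ⟨δ, hδ.trans hγ, hδz⟩
  refine ⟨key ha, fun x hx => ?_⟩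
  rw [den_onN ha] at hx
  obtain ⟨γ, -, hγx⟩ := hx
  exact key hγx

/-- `ω` and its elements: all natural numbers are denoted. -/
theorem exists_den_nat {a : g.M} (h : g.Den (onN P ω) a) (n : ℕ) : ∃ b, g.Den (onN P n) b := by
  rw [onN_def] at h
  have hc : Countable (ω : Ordinal.{0}).ToType := by
    rw [← Cardinal.mk_le_aleph0_iff, Cardinal.mk_toType]
    simp
  have := h.of_countable hc (ToType.mk ⟨(n : Ordinal.{0}), natCast_lt_omega0 n⟩)
  simpa [ToType.toOrd] using this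

theorem onN_succ {n : ℕ} {b c : g.M} (hb : g.Den (onN P n) b)
    (hc : g.Den (onN P (n + 1 : ℕ)) c) : IsSucc g.E b c := by
  intro z
  rw [den_onN hc, den_onN hb]
  constructor
  · rintro ⟨β, hβ, hz⟩
    have hβ' : β ≤ n := by
      rw [Nat.cast_add_one] at hβ
      exact Order.lt_add_one_iff.1 hβ
    rcases hβ'.lt_or_eq with h1 | h1
    · exact Or.inl ⟨β, h1, hz⟩
    · right
      rw [h1] at hz
      exact hz.unique hb
  · rintro (⟨β, hβ, hz⟩ | rfl)
    · exact ⟨β, hβ.trans (by exact_mod_cast Nat.lt_succ_self n), hz⟩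
    · exact ⟨n, by exact_mod_cast Nat.lt_succ_self n, hb⟩

theorem onN_isOmega {a : g.M} (h : g.Den (onN P ω) a) : IsOmega g.E a := by
  refine ⟨onN_isOrd h, ?_, ?_, ?_⟩
  · obtain ⟨b, hb⟩ := exists_den_nat h 0
    exact ⟨b, (den_onN h b).2 ⟨_, natCast_lt_omega0 0, hb⟩⟩
  · intro x hx
    rw [den_onN h] at hx
    obtain ⟨γ, hγ, hγx⟩ := hx
    obtain ⟨n, rfl⟩ := lt_omega0.1 hγ
    obtain ⟨b, hb⟩ := exists_den_nat h (n + 1)
    refine ⟨b, (den_onN h b).2 ⟨_, natCast_lt_omega0 _, hb⟩, (onN_mem_iff hγx hb).2 ?_⟩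
    exact_mod_cast Nat.lt_succ_self n
  · intro x hx
    rw [den_onN h] at hx
    obtain ⟨γ, hγ, hγx⟩ := hx
    obtain ⟨n, rfl⟩ := lt_omega0.1 hγ
    rcases n with _ | n
    · left
      intro z hz
      rw [den_onN hγx] at hz
      obtain ⟨β, hβ, -⟩ := hz
      simp at hβ
    · right
      obtain ⟨b, hb⟩ := exists_den_nat h n
      exact ⟨b, onN_succ hb hγx⟩

end Pool.Agent.H90.Frc
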