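import Mathlib

/-!
# The partial order

`C i` collapses `2^κ_i` to `κ_i⁺` for `κ_i = ℶ_i`, `i < ω₁` (full support product), and `S` is the
countable support product of `ℶ_{ω₁}` many copies of Silver forcing.
-/

set_option autoImplicit false

namespace Pool.Agent.H90.Frc

open Cardinal Ordinal

/-- the index set `ω₁` -/
abbrev Ix : Type := (ω_ 1 : Ordinal.{0}).ToType

/-- `κ_i = ℶ_i` -/
noncomputable def kap (i : Ix) : Cardinal.{0} := ℶ_ (i.toOrd : Ordinal)

/-- the cardinal `κ_i⁺` as a type -/
abbrev Dm (i : Ix) : Type := (Order.succ (kap i)).ord.ToType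

/-- the cardinal `2^κ_i` as a type -/
abbrev Vl (i : Ix) : Type := (2 ^ kap i : Cardinal.{0}).ord.ToType

/-- the cardinal `λ = ℶ_{ω₁}` as a type -/
abbrev Lam : Type := (ℶ_ (ω_ 1) : Cardinal.{0}).ord.ToType

/-- the positions of the Silver part -/
abbrev Pos : Type := Lam × ℕ

/-- Conditions. -/
@[ext] structure Cond : Type where
  /-- the collapsing part -/
  c : ∀ i : Ix, Dm i → Option (Vl i)
  /-- the Silver part -/
  s : Pos → Option Bool
  hc : ∀ i, #{d // c i d ≠ none} ≤ kap i
  hs : {ξ | ∃ n, s (ξ, n) ≠ none}.Countable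
  hf : ∀ ξ, {n | s (ξ, n) = none}.Infinite

/-- extension of partial functions -/
def Ext {α β : Type} (f g : α → Option β) : Prop := ∀ a b, f a = some b → g a = some b

theorem Ext.refl {α β : Type} (f : α → Option β) : Ext f f := fun _ _ h => h

theorem Ext.trans {α β : Type} {f g h : α → Option β} (h1 : Ext f g) (h2 : Ext g h) : Ext f h :=
  fun a b e => h2 a b (h1 a b e)

theorem Ext.antisymm {α β : Type} {f g : α → Option β} (h1 : Ext f g) (h2 : Ext g f) : f = g := by
  funext a
  rcases hf : f a with _ | b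
  · rcases hg : g a with _ | b
    · rfl
    · rw [h2 a b hg] at hf
      cases hf
  · rw [h1 a b hf]

theorem Ext.ne_none {α β : Type} {f g : α → Option β} (h : Ext f g) {a : α} (ha : f a ≠ none) :
    g a ≠ none := by
  obtain ⟨b, hb⟩ := Option.ne_none_iff_exists'.1 ha
  rw [h a b hb]
  simp

theorem Ext.none {α β : Type} {f g : α → Option β} (h : Ext f g) {a : α} (ha : g a = none) :
    f a = none := by
  by_contra hcon
  exact h.ne_none hcon ha

instance : PartialOrder Cond where
  le q p := (∀ i, Ext (p.c i) (q.c i)) ∧ Ext p.s q.s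
  le_refl p := ⟨fun _ => Ext.refl _, Ext.refl _⟩
  le_trans a b c h h' := ⟨fun i => (h'.1 i).trans (h.1 i), h'.2.trans h.2⟩
  le_antisymm a b h h' := Cond.ext (funext fun i => (h'.1 i).antisymm (h.1 i))
    (h'.2.antisymm h.2)

theorem le_def {q p : Cond} : q ≤ p ↔ (∀ i, Ext (p.c i) (q.c i)) ∧ Ext p.s q.s := Iff.rfl

theorem aleph0_le_kap (i : Ix) : ℵ₀ ≤ kap i := aleph0_le_beth _

instance : OrderTop Cond where
  top := ⟨fun _ _ => none, fun _ => none, fun i => by simp, by simp, fun ξ => by
    simpa using Set.infinite_univ⟩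
  le_top p := ⟨fun i a b h => (by cases h), fun a b h => (by cases h)⟩

/-! ### Finite changes of the Silver part -/

/-- all positions of `F` are free in `q` -/
def Free (F : Finset Pos) (q : Cond) : Prop := ∀ x ∈ F, q.s x = none

theorem Free.mono {F F' : Finset Pos} {q : Cond} (h : Free F q) (hF : F' ⊆ F) : Free F' q :=
  fun x hx => h x (hF hx)

theorem Free.of_le {F : Finset Pos} {q q' : Cond} (h : Free F q') (hq : q' ≤ q) : Free F q :=
  fun x hx => hq.2.none (h x hx)

/-- modify the Silver part on the finite set `F` -/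
noncomputable def Cond.modify (q : Cond) (F : Finset Pos) (u : Pos → Option Bool) : Cond where
  c := q.c
  s x := if x ∈ F then u x else q.s x
  hc := q.hc
  hs := by
    refine (q.hs.union (F.image Prod.fst).countable_toSet).mono ?_
    rintro ξ ⟨n, hn⟩
    by_cases h : (ξ, n) ∈ F
    · right
      simp only [Finset.coe_image, Set.mem_image, Finset.mem_coe]
      exact ⟨_, h, rfl⟩
    · left
      rw [if_neg h] at hn
      exact ⟨n, hn⟩
  hf ξ := by
    have h1 : ((F.image Prod.snd : Finset ℕ) : Set ℕ).Finite := Finset.finite_toSet _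
    refine ((q.hf ξ).sdiff h1).mono ?_
    rintro n ⟨hn, hn'⟩
    have : (ξ, n) ∉ F := fun h => hn' (by
      simp only [Finset.coe_image, Set.mem_image, Finset.mem_coe]
      exact ⟨_, h, rfl⟩)
    change (if _ then _ else _) = _
    rw [if_neg this]
    exact hn

/-- the extension of `q` by the characteristic function of `t` on `F` -/
noncomputable def Cond.ex (q : Cond) (F t : Finset Pos) : Cond :=
  q.modify F (fun x => some (decide (x ∈ t)))

/-- forget the positions in `F` -/
noncomputable def Cond.erase (q : Cond) (F : Finset Pos) : Cond := q.modify F (fun _ => none)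

theorem ex_s_of_mem {q : Cond} {F t : Finset Pos} {x : Pos} (hx : x ∈ F) :
    (q.ex F t).s x = some (decide (x ∈ t)) := if_pos hx

theorem ex_s_of_notMem {q : Cond} {F t : Finset Pos} {x : Pos} (hx : x ∉ F) :
    (q.ex F t).s x = q.s x := if_neg hx

theorem ex_le {q : Cond} {F t : Finset Pos} (h : Free F q) : q.ex F t ≤ q := by
  refine ⟨fun i => Ext.refl _, fun x b hb => ?_⟩
  have : x ∉ F := fun hx => by rw [h x hx] at hb; cases hb
  rw [ex_s_of_notMem this]
  exact hb

theorem ex_mono {q q' : Cond} (F t : Finset Pos) (h : q' ≤ q) : q'.ex F t ≤ q.ex F t := by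
  refine ⟨h.1, fun x b hb => ?_⟩
  by_cases hx : x ∈ F
  · rw [ex_s_of_mem hx] at hb ⊢
    exact hb
  · rw [ex_s_of_notMem hx] at hb ⊢
    exact h.2 x b hb

theorem free_erase (q : Cond) (F : Finset Pos) : Free F (q.erase F) := fun _ hx => if_pos hx

theorem erase_le {q r : Cond} {F t : Finset Pos} (h : Free F q) (hr : r ≤ q.ex F t) :
    r.erase F ≤ q := by
  refine ⟨hr.1, fun x b hb => ?_⟩
  have hx : x ∉ F := fun hx => by rw [h x hx] at hb; cases hb
  have : (r.erase F).s x = r.s x := if_neg hx
  rw [this]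
  refine hr.2 x b ?_
  rw [ex_s_of_notMem hx]
  exact hb

theorem erase_ex {q r : Cond} {F t : Finset Pos} (hr : r ≤ q.ex F t) : (r.erase F).ex F t = r := by
  ext1
  · rfl
  · funext x
    by_cases hx : x ∈ F
    · rw [ex_s_of_mem hx]
      exact (hr.2 x _ (ex_s_of_mem hx)).symm
    · rw [ex_s_of_notMem hx]
      exact if_neg hx

/-- Below any `r ≤ q` one of the finitely many extensions of `q` on `F` is compatible. -/
theorem exists_ex_le {q r : Cond} (F : Finset Pos) (hr : r ≤ q) :
    ∃ t ⊆ F, ∃ r' ≤ r, r' ≤ q.ex F t := by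
  refine ⟨F.filter (fun x => r.s x = some true), Finset.filter_subset _ _,
    r.ex F (F.filter (fun x => r.s x = some true)), ?_, ex_mono _ _ hr⟩
  refine ⟨fun i => Ext.refl _, fun x b hb => ?_⟩
  by_cases hx : x ∈ F
  · rw [ex_s_of_mem hx]
    cases b with
    | true => simp [hx, hb]
    | false => simp [hx, hb]
  · rw [ex_s_of_notMem hx]
    exact hb

/-- Treat all finitely many extensions on `F`. -/
theorem exists_all_ex {F : Finset Pos} {A : Finset Pos → Cond → Prop} {p : Cond}
    (hmono : ∀ t r r', A t r → r' ≤ r → A t r') (hd : ∀ t, ∀ r ≤ p, ∃ r' ≤ r, A t r')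
    {q : Cond} (hqp : q ≤ p) (hq : Free F q) :
    ∃ q' ≤ q, Free F q' ∧ ∀ t ⊆ F, A t (q'.ex F t) := by
  have key : ∀ T : Finset (Finset Pos), ∃ q' ≤ q, Free F q' ∧ ∀ t ∈ T, A t (q'.ex F t) := by
    intro T
    induction T using Finset.induction_on with
    | empty => exact ⟨q, le_rfl, hq, by simp⟩
    | insert t T _ ih =>
      obtain ⟨q', hq', hfree, h⟩ := ih
      obtain ⟨r, hr, hA⟩ := hd t (q'.ex F t) ((ex_le hfree).trans (hq'.trans hqp))
      refine ⟨r.erase F, (erase_le hfree hr).trans hq', free_erase _ _, ?_⟩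
      intro u hu
      rcases Finset.mem_insert.1 hu with rfl | hu
      · rw [erase_ex hr]
        exact hA
      · exact hmono _ _ _ (h u hu) (ex_mono _ _ (erase_le hfree hr))
  obtain ⟨q', hq', hfree, h⟩ := key F.powerset
  exact ⟨q', hq', hfree, fun t ht => h t (Finset.mem_powerset.2 ht)⟩

/-! ### Limits of countable descending sequences -/

/-- union of a chain of partial functions -/
noncomputable def unionFun {α β ι : Type} (f : ι → α → Option β) (a : α) : Option β :=
  open Classical in if h : ∃ i, f i a ≠ none then f h.choose a else none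

theorem unionFun_eq {α β ι : Type} {f : ι → α → Option β}
    (hf : ∀ i j, Ext (f i) (f j) ∨ Ext (f j) (f i)) {i : ι} {a : α} {b : β} (h : f i a = some b) :
    unionFun f a = some b := by
  have hex : ∃ i, f i a ≠ none := ⟨i, by rw [h]; simp⟩
  rw [unionFun, dif_pos hex]
  obtain ⟨b', hb'⟩ := Option.ne_none_iff_exists'.1 hex.choose_spec
  rcases hf i hex.choose with h' | h'
  · exact h' a b h
  · have := h' a b' hb'
    rw [h] at this
    rw [hb', Option.some.inj this]

theorem unionFun_ne_none {α β ι : Type} {f : ι → α → Option β} {a : α}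
    (h : unionFun f a ≠ none) : ∃ i, f i a ≠ none := by
  by_contra hcon
  rw [unionFun, dif_neg hcon] at h
  exact h rfl

end Pool.Agent.H90.Frc
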