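import Mathlib

/-!
# Codes of meager sets and schemes of intervals avoiding them

A code `H` is a sequence of families of rational intervals, each of which contains an interval
inside every rational interval.  It codes the meager set of all cuts `X` such that for some `m`
the cut lies in none of the intervals of `H m`.
-/

set_option autoImplicit false

namespace Pool.Agent.H90.Frc

/-- codes of meager sets -/
def MCode : Type :=
  {H : ℕ → Set (ℚ × ℚ) // ∀ m a b, a < b → ∃ c d, (c, d) ∈ H m ∧ a < c ∧ c < d ∧ d < b}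

/-- the meager set coded by `H` -/
def InM (H : MCode) (X : Set ℚ) : Prop := ∃ m, ∀ c d, (c, d) ∈ H.1 m → ¬ (c ∈ X ∧ d ∉ X)

/-- a code for the union of countably many coded meager sets -/
def joinM (H : ℕ → MCode) : MCode :=
  ⟨fun k => (H (Nat.unpair k).1).1 (Nat.unpair k).2,
    fun k a b hab => (H (Nat.unpair k).1).2 (Nat.unpair k).2 a b hab⟩

theorem InM.join {H : ℕ → MCode} {n : ℕ} {X : Set ℚ} (h : InM (H n) X) : InM (joinM H) X := by
  obtain ⟨m, hm⟩ := h
  refine ⟨Nat.pair n m, fun c d hcd => hm c d ?_⟩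
  simpa [joinM] using hcd

instance : Nonempty MCode := ⟨⟨fun _ => Set.univ, fun _ a b hab => by
  obtain ⟨c, hac, hcb⟩ := exists_between hab
  obtain ⟨d, hcd, hdb⟩ := exists_between hcb
  exact ⟨c, d, trivial, hac, hcd, hdb⟩⟩⟩

theorem mk_mcode_le : Cardinal.mk MCode ≤ 2 ^ Cardinal.aleph0.{0} := by
  have h1 : Cardinal.mk MCode ≤ Cardinal.mk (ℕ → Set (ℚ × ℚ)) :=
    Cardinal.mk_subtype_le _
  refine h1.trans ?_
  rw [← Cardinal.power_def, Cardinal.mk_set, Cardinal.mk_nat, ← Cardinal.power_mul]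
  simp

/-- rational intervals -/
abbrev Intv : Type := {z : ℚ × ℚ // z.1 < z.2}

theorem exists_step (I : Intv) (H : MCode) (m : ℕ) : ∃ J : Bool → Intv,
    (∀ b, I.1.1 < (J b).1.1 ∧ (J b).1.2 < I.1.2) ∧ (J false).1.2 < (J true).1.1 ∧
    ∀ b, ∃ c d, (c, d) ∈ H.1 m ∧ c < (J b).1.1 ∧ (J b).1.2 < d := by
  obtain ⟨⟨a, b⟩, hab⟩ := I
  dsimp only at hab
  obtain ⟨y, hay, hyb⟩ := exists_between hab
  obtain ⟨c0, d0, h0, ha0, h00, hb0⟩ := H.2 m a y hay
  obtain ⟨c1, d1, h1, ha1, h11, hb1⟩ := H.2 m y b hyb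
  obtain ⟨s0, hs0, ht0⟩ := exists_between h00
  obtain ⟨t0, hst0, ht0'⟩ := exists_between ht0
  obtain ⟨s1, hs1, ht1⟩ := exists_between h11
  obtain ⟨t1, hst1, ht1'⟩ := exists_between ht1
  refine ⟨fun b => if b then ⟨(s1, t1), hst1⟩ else ⟨(s0, t0), hst0⟩, ?_, ?_, ?_⟩
  · rintro (_ | _)
    · simp only [Bool.false_eq_true, if_false]
      exact ⟨by linarith, by linarith⟩
    · simp only [if_true]
      exact ⟨by linarith, by linarith⟩
  · simp only [Bool.false_eq_true, if_false, if_true]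
    linarith
  · rintro (_ | _)
    · exact ⟨c0, d0, h0, by simpa using hs0, by simpa using ht0'⟩
    · exact ⟨c1, d1, h1, by simpa using hs1, by simpa using ht1'⟩

/-- the subintervals chosen for the scheme -/
noncomputable def stp (I : Intv) (H : MCode) (m : ℕ) : Bool → Intv := (exists_step I H m).choose

theorem stp_spec (I : Intv) (H : MCode) (m : ℕ) :
    (∀ b, I.1.1 < (stp I H m b).1.1 ∧ (stp I H m b).1.2 < I.1.2) ∧
    (stp I H m false).1.2 < (stp I H m true).1.1 ∧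
    ∀ b, ∃ c d, (c, d) ∈ H.1 m ∧ c < (stp I H m b).1.1 ∧ (stp I H m b).1.2 < d :=
  (exists_step I H m).choose_spec

/-- The scheme of intervals attached to an enumeration `v` of requirements. -/
noncomputable def sch (v : ℕ → MCode × ℕ) : List Bool → Intv
  | [] => ⟨(0, 1), zero_lt_one⟩
  | b :: s => stp (sch v s) (v s.length).1 (v s.length).2 b

theorem sch_cons (v : ℕ → MCode × ℕ) (b : Bool) (s : List Bool) :
    sch v (b :: s) = stp (sch v s) (v s.length).1 (v s.length).2 b := rfl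

/-- the reversed initial segments of a sequence -/
def pre (g : ℕ → Bool) : ℕ → List Bool
  | 0 => []
  | k + 1 => g k :: pre g k

@[simp] theorem length_pre (g : ℕ → Bool) (k : ℕ) : (pre g k).length = k := by
  induction k with
  | zero => rfl
  | succ k ih => simp [pre, ih]

theorem pre_congr {g g' : ℕ → Bool} {k : ℕ} (h : ∀ n < k, g n = g' n) : pre g k = pre g' k := by
  induction k with
  | zero => rfl
  | succ k ih =>
    rw [pre, pre, h k (Nat.lt_succ_self k), ih fun n hn => h n (hn.trans (Nat.lt_succ_self k))]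

/-- left end points -/
noncomputable def lft (v : ℕ → MCode × ℕ) (g : ℕ → Bool) (k : ℕ) : ℚ := (sch v (pre g k)).1.1

/-- right end points -/
noncomputable def rgt (v : ℕ → MCode × ℕ) (g : ℕ → Bool) (k : ℕ) : ℚ := (sch v (pre g k)).1.2

theorem lft_lt_succ (v : ℕ → MCode × ℕ) (g : ℕ → Bool) (k : ℕ) : lft v g k < lft v g (k + 1) :=
  ((stp_spec _ _ _).1 _).1

theorem rgt_succ_lt (v : ℕ → MCode × ℕ) (g : ℕ → Bool) (k : ℕ) : rgt v g (k + 1) < rgt v g k :=
  ((stp_spec _ _ _).1 _).2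

theorem lft_mono (v : ℕ → MCode × ℕ) (g : ℕ → Bool) : StrictMono (lft v g) :=
  strictMono_nat_of_lt_succ (lft_lt_succ v g)

theorem rgt_anti (v : ℕ → MCode × ℕ) (g : ℕ → Bool) : StrictAnti (rgt v g) :=
  strictAnti_nat_of_succ_lt (rgt_succ_lt v g)

theorem lft_lt_rgt (v : ℕ → MCode × ℕ) (g : ℕ → Bool) (k l : ℕ) : lft v g k < rgt v g l := by
  have h1 : lft v g (max k l) < rgt v g (max k l) := (sch v (pre g (max k l))).2
  calc lft v g k ≤ lft v g (max k l) := (lft_mono v g).monotone (le_max_left _ _)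
    _ < rgt v g (max k l) := h1
    _ ≤ rgt v g l := (rgt_anti v g).antitone (le_max_right _ _)

theorem lft_zero (v : ℕ → MCode × ℕ) (g : ℕ → Bool) : lft v g 0 = 0 := rfl

theorem rgt_zero (v : ℕ → MCode × ℕ) (g : ℕ → Bool) : rgt v g 0 = 1 := rfl

theorem exists_hit (v : ℕ → MCode × ℕ) (g : ℕ → Bool) (k : ℕ) :
    ∃ c d, (c, d) ∈ (v k).1.1 (v k).2 ∧ c < lft v g (k + 1) ∧ rgt v g (k + 1) < d := by
  have := (stp_spec (sch v (pre g k)) (v (pre g k).length).1 (v (pre g k).length).2).2.2 (g k)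
  rw [length_pre] at this
  obtain ⟨c, d, h1, h2, h3⟩ := this
  refine ⟨c, d, h1, ?_, ?_⟩
  · unfold lft
    rw [pre, sch_cons, length_pre]
    exact h2
  · unfold rgt
    rw [pre, sch_cons, length_pre]
    exact h3

/-- the cut attached to a branch -/
def lset (v : ℕ → MCode × ℕ) (g : ℕ → Bool) : Set ℚ := {q | ∃ k, q < lft v g k}

theorem not_inM_lset {v : ℕ → MCode × ℕ} {H : MCode} (hv : ∀ m, ∃ k, v k = (H, m))
    (g : ℕ → Bool) : ¬ InM H (lset v g) := by
  rintro ⟨m, hm⟩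
  obtain ⟨k, hk⟩ := hv m
  obtain ⟨c, d, h1, h2, h3⟩ := exists_hit v g k
  rw [hk] at h1
  refine hm c d h1 ⟨⟨k + 1, h2⟩, ?_⟩
  rintro ⟨l, hl⟩
  exact absurd (lft_lt_rgt v g l (k + 1)) (not_lt.2 (h3.trans hl).le)

/-- two schemes can be separated by one more bit each -/
theorem sch_separate (v v' : ℕ → MCode × ℕ) (s s' : List Bool) :
    (sch v (false :: s)).1.2 < (sch v' (true :: s')).1.1 ∨
      (sch v' (false :: s')).1.2 < (sch v (true :: s)).1.1 := by
  have h1 : (sch v (false :: s)).1.2 < (sch v (true :: s)).1.1 := (stp_spec _ _ _).2.1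
  have h2 : (sch v' (false :: s')).1.2 < (sch v' (true :: s')).1.1 := (stp_spec _ _ _).2.1
  by_contra hcon
  push Not at hcon
  linarith [hcon.1, hcon.2]

/-- every code is avoided by some cut -/
theorem exists_cut_not_inM (H : MCode) : ∃ X : Set ℚ, X.Nonempty ∧ (∃ q, q ∉ X) ∧
    (∀ a ∈ X, ∀ b < a, b ∈ X) ∧ (∀ a ∈ X, ∃ b ∈ X, a < b) ∧ ¬ InM H X := by
  refine ⟨lset (fun k => (H, k)) (fun _ => false), ⟨-1, 0, by rw [lft_zero]; norm_num⟩,
    ⟨1, ?_⟩, ?_, ?_, not_inM_lset (fun m => ⟨m, rfl⟩) _⟩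
  · rintro ⟨k, hk⟩
    have := lft_lt_rgt (fun k => (H, k)) (fun _ => false) k 0
    rw [rgt_zero] at this
    linarith
  · rintro a ⟨k, hk⟩ b hb
    exact ⟨k, hb.trans hk⟩
  · rintro a ⟨k, hk⟩
    obtain ⟨b, h1, h2⟩ := exists_between hk
    exact ⟨b, ⟨k, h2⟩, h1⟩

end Pool.Agent.H90.Frc
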