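import Pool.Agent.H90.Frc.Tools
import Pool.Agent.H90.Frc.Scheme

/-!
# Rationals, cuts and meager sets in generic structures
-/

set_option autoImplicit false

namespace Pool.Agent.H90.Frc

open Ordinal Cardinal

/-- an enumeration of the rationals -/
noncomputable def ratE : ℕ ≃ ℚ := (Denumerable.eqv ℚ).symm

section

variable {P : Type} [PartialOrder P] [OrderTop P] {g : Gen P}

/-- the name of a rational number (a natural number) -/
noncomputable def qN (P : Type) [PartialOrder P] [OrderTop P] (q : ℚ) : Name P :=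
  onN P (ratE.symm q : ℕ)

/-- the name of the order of the rationals -/
noncomputable def ltN (P : Type) [PartialOrder P] [OrderTop P] : Name P :=
  relN (ι := {z : ℚ × ℚ // z.1 < z.2}) (fun z => qN P z.1.1) (fun z => qN P z.1.2) (fun _ => ⊤)

theorem exists_qN {w : g.M} (hw : g.Den (onN P ω) w) (q : ℚ) : ∃ b, g.Den (qN P q) b :=
  exists_den_nat hw _

theorem qN_inj {q q' : ℚ} {b : g.M} (h : g.Den (qN P q) b) (h' : g.Den (qN P q') b) : q = q' := by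
  have := onN_inj h h'
  exact ratE.symm.injective (by exact_mod_cast this)

theorem qN_mem {w : g.M} (hw : g.Den (onN P ω) w) {q : ℚ} {b : g.M} (h : g.Den (qN P q) b) :
    g.E b w := (den_onN hw b).2 ⟨_, natCast_lt_omega0 _, h⟩

theorem exists_q_of_mem {w : g.M} (hw : g.Den (onN P ω) w) {b : g.M} (h : g.E b w) :
    ∃ q, g.Den (qN P q) b := by
  obtain ⟨β, hβ, hb⟩ := (den_onN hw b).1 h
  obtain ⟨n, rfl⟩ := lt_omega0.1 hβ
  exact ⟨ratE n, by simpa [qN] using hb⟩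

theorem rel_ltN {l : g.M} (hl : g.Den (ltN P) l) {a b : ℚ} {x y : g.M} (hx : g.Den (qN P a) x)
    (hy : g.Den (qN P b) y) : Rel g.E l x y ↔ a < b := by
  rw [den_relN hl]
  constructor
  · rintro ⟨⟨⟨a', b'⟩, h⟩, -, h1, h2⟩
    rw [qN_inj hx h1, qN_inj hy h2]
    exact h
  · intro h
    exact ⟨⟨(a, b), h⟩, g.top_mem, hx, hy⟩

/-- the set of rationals in `x` -/
def cs (g : Gen P) (x : g.M) : Set ℚ := {q | ∃ b, g.Den (qN P q) b ∧ g.E b x}

theorem mem_cs {x b : g.M} {q : ℚ} (hb : g.Den (qN P q) b) : q ∈ cs g x ↔ g.E b x := by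
  constructor
  · rintro ⟨b', hb', h⟩
    rwa [hb.unique hb']
  · intro h
    exact ⟨b, hb, h⟩

theorem cs_ext {w x y : g.M} (hw : g.Den (onN P ω) w) (hx : IsSub g.E x w) (hy : IsSub g.E y w)
    (h : cs g x = cs g y) : x = y := by
  refine Gen.extensional fun z => ?_
  constructor
  · intro hz
    obtain ⟨q, hq⟩ := exists_q_of_mem hw (hx z hz)
    rw [← mem_cs hq, ← h, mem_cs hq]
    exact hz
  · intro hz
    obtain ⟨q, hq⟩ := exists_q_of_mem hw (hy z hz)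
    rw [← mem_cs hq, h, mem_cs hq]
    exact hz

theorem isRat_ltN {w l : g.M} (hw : g.Den (onN P ω) w) (hl : g.Den (ltN P) l) :
    IsRat g.E w w l := by
  refine ⟨g.zfc.sizeLe_refl w, ?_, ?_, ?_, ?_, ?_, ?_, ?_⟩
  · obtain ⟨b, hb⟩ := exists_qN hw 0
    exact ⟨b, qN_mem hw hb⟩
  · intro a ha
    obtain ⟨q, hq⟩ := exists_q_of_mem hw ha
    rw [rel_ltN hl hq hq]
    exact lt_irrefl q
  · intro a b c ha hb hc
    obtain ⟨q, hq⟩ := exists_q_of_mem hw ha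
    obtain ⟨r, hr⟩ := exists_q_of_mem hw hb
    obtain ⟨s, hs⟩ := exists_q_of_mem hw hc
    rw [rel_ltN hl hq hr, rel_ltN hl hr hs, rel_ltN hl hq hs]
    exact lt_trans
  · intro a b ha hb
    obtain ⟨q, hq⟩ := exists_q_of_mem hw ha
    obtain ⟨r, hr⟩ := exists_q_of_mem hw hb
    rw [rel_ltN hl hq hr, rel_ltN hl hr hq]
    rcases lt_trichotomy q r with h | h | h
    · exact Or.inr (Or.inl h)
    · subst h
      exact Or.inl (hq.unique hr)
    · exact Or.inr (Or.inr h)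
  · intro a b ha hb hab
    obtain ⟨q, hq⟩ := exists_q_of_mem hw ha
    obtain ⟨r, hr⟩ := exists_q_of_mem hw hb
    rw [rel_ltN hl hq hr] at hab
    obtain ⟨s, h1, h2⟩ := exists_between hab
    obtain ⟨c, hc⟩ := exists_qN hw s
    exact ⟨c, qN_mem hw hc, (rel_ltN hl hq hc).2 h1, (rel_ltN hl hc hr).2 h2⟩
  · intro a ha
    obtain ⟨q, hq⟩ := exists_q_of_mem hw ha
    obtain ⟨c, hc⟩ := exists_qN hw (q + 1)
    exact ⟨c, qN_mem hw hc, (rel_ltN hl hq hc).2 (by linarith)⟩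
  · intro a ha
    obtain ⟨q, hq⟩ := exists_q_of_mem hw ha
    obtain ⟨c, hc⟩ := exists_qN hw (q - 1)
    exact ⟨c, qN_mem hw hc, (rel_ltN hl hc hq).2 (by linarith)⟩

/-- native cuts -/
def NCut (X : Set ℚ) : Prop :=
  X.Nonempty ∧ (∃ q, q ∉ X) ∧ (∀ a ∈ X, ∀ b < a, b ∈ X) ∧ (∀ a ∈ X, ∃ b ∈ X, a < b)

theorem isCut_iff {w l : g.M} (hw : g.Den (onN P ω) w) (hl : g.Den (ltN P) l) (x : g.M) :
    IsCut g.E w l x ↔ IsSub g.E x w ∧ NCut (cs g x) := by
  refine and_congr_right fun hsub => ?_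
  refine and_congr ?_ (and_congr ?_ (and_congr ?_ ?_))
  · constructor
    · rintro ⟨a, ha⟩
      obtain ⟨q, hq⟩ := exists_q_of_mem hw (hsub a ha)
      exact ⟨q, (mem_cs hq).2 ha⟩
    · rintro ⟨q, b, -, h⟩
      exact ⟨b, h⟩
  · constructor
    · rintro ⟨a, ha, hax⟩
      obtain ⟨q, hq⟩ := exists_q_of_mem hw ha
      exact ⟨q, fun h => hax ((mem_cs hq).1 h)⟩
    · rintro ⟨q, hq⟩
      obtain ⟨b, hb⟩ := exists_qN hw q
      exact ⟨b, qN_mem hw hb, fun h => hq ((mem_cs hb).2 h)⟩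
  · constructor
    · rintro h a ⟨y, hy, hyx⟩ b hba
      obtain ⟨z, hz⟩ := exists_qN hw b
      exact ⟨z, hz, h y z hyx (qN_mem hw hz) ((rel_ltN hl hz hy).2 hba)⟩
    · intro h a b hax hbw hba
      obtain ⟨q, hq⟩ := exists_q_of_mem hw (hsub a hax)
      obtain ⟨r, hr⟩ := exists_q_of_mem hw hbw
      rw [rel_ltN hl hr hq] at hba
      exact (mem_cs hr).1 (h q ((mem_cs hq).2 hax) r hba)
  · constructor
    · rintro h a ⟨y, hy, hyx⟩
      obtain ⟨z, hz, hyz⟩ := h y hyx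
      obtain ⟨r, hr⟩ := exists_q_of_mem hw (hsub z hz)
      rw [rel_ltN hl hy hr] at hyz
      exact ⟨r, (mem_cs hr).2 hz, hyz⟩
    · intro h a hax
      obtain ⟨q, hq⟩ := exists_q_of_mem hw (hsub a hax)
      obtain ⟨b, ⟨z, hz, hzx⟩, hab⟩ := h q ((mem_cs hq).2 hax)
      exact ⟨z, hzx, (rel_ltN hl hq hz).2 hab⟩

theorem isNwd_iff {w l : g.M} (hw : g.Den (onN P ω) w) (hl : g.Den (ltN P) l) (X : g.M) :
    IsNwd g.E w l X ↔ ∀ a b : ℚ, a < b → ∃ c d : ℚ, a < c ∧ c < d ∧ d < b ∧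
      ∀ x, g.E x X → ¬ (c ∈ cs g x ∧ d ∉ cs g x) := by
  constructor
  · intro h a b hab
    obtain ⟨x, hx⟩ := exists_qN hw a
    obtain ⟨y, hy⟩ := exists_qN hw b
    obtain ⟨c, d, hc, hd, h1, h2, h3, h4⟩ := h x y (qN_mem hw hx) (qN_mem hw hy)
      ((rel_ltN hl hx hy).2 hab)
    obtain ⟨q, hq⟩ := exists_q_of_mem hw hc
    obtain ⟨r, hr⟩ := exists_q_of_mem hw hd
    rw [rel_ltN hl hx hq] at h1
    rw [rel_ltN hl hq hr] at h2
    rw [rel_ltN hl hr hy] at h3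
    refine ⟨q, r, h1, h2, h3, fun z hz => ?_⟩
    rw [mem_cs hq, mem_cs hr]
    exact h4 z hz
  · intro h a b ha hb hab
    obtain ⟨q, hq⟩ := exists_q_of_mem hw ha
    obtain ⟨r, hr⟩ := exists_q_of_mem hw hb
    rw [rel_ltN hl hq hr] at hab
    obtain ⟨c, d, h1, h2, h3, h4⟩ := h q r hab
    obtain ⟨x, hx⟩ := exists_qN hw c
    obtain ⟨y, hy⟩ := exists_qN hw d
    refine ⟨x, y, qN_mem hw hx, qN_mem hw hy, (rel_ltN hl hq hx).2 h1, (rel_ltN hl hx hy).2 h2,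
      (rel_ltN hl hy hr).2 h3, fun z hz => ?_⟩
    rw [← mem_cs hx, ← mem_cs hy]
    exact h4 z hz

/-! ### Names of codes -/

/-- the name of a code of a meager set -/
noncomputable def HN (P : Type) [PartialOrder P] [OrderTop P] (H : MCode) : Name P :=
  relN (ι := {z : ℕ × (ℚ × ℚ) // z.2 ∈ H.1 z.1}) (fun z => onN P z.1.1)
    (fun z => opN (qN P z.1.2.1) (qN P z.1.2.2)) (fun _ => ⊤)

/-- `x` is not in any of the intervals of the `m`-th family of the code `h` -/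
def Avd {M : Type} (E : M → M → Prop) (h m x : M) : Prop :=
  ∀ z c d, Rel E h m z → IsOPair E c d z → ¬ (E c x ∧ ¬ E d x)

/-- `x` is in the meager set coded by `h` -/
def InMg {M : Type} (E : M → M → Prop) (w h x : M) : Prop := ∃ m, E m w ∧ Avd E h m x

theorem dfn_avd {n : ℕ} (i j k : Fin n) : Dfn (fun _ E v => Avd E (v i) (v j) (v k)) :=
  .all (.all (.all (.imp (dfn_rel _ _ _) (.imp (dfn_isOPair _ _ _)
    (.not (.and (.mem _ _) (.not (.mem _ _))))))))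

theorem dfn_inMg {n : ℕ} (i j k : Fin n) : Dfn (fun _ E v => InMg E (v i) (v j) (v k)) :=
  .ex (.and (.mem _ _) (dfn_avd _ _ _))

theorem avd_iff {H : MCode} {w h x m : g.M} {n : ℕ} (hw : g.Den (onN P ω) w)
    (hh : g.Den (HN P H) h) (hm : g.Den (onN P n) m) :
    Avd g.E h m x ↔ ∀ c d, (c, d) ∈ H.1 n → ¬ (c ∈ cs g x ∧ d ∉ cs g x) := by
  constructor
  · intro ha c d hcd
    obtain ⟨y, hy⟩ := exists_qN hw c
    obtain ⟨z, hz⟩ := exists_qN hw d
    obtain ⟨b, hb⟩ := Gen.exists_of_fc (v := ![HN P H, onN P n, qN P c, qN P d])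
      (a := ![h, m, y, z]) (den4 hh hm hy hz)
      (R := fun _ E v => Rel E (v 0) (v 1) (v 4) ∧ IsOPair E (v 2) (v 3) (v 4))
      ((dfn_rel 0 1 4).and (dfn_isOPair 2 3 4)) g.top_mem (opN (qN P c) (qN P d))
      (fun g' _ u hu => ⟨(den_relN (hu 0) _ _).2 ⟨⟨(n, (c, d)), hcd⟩, g'.top_mem, hu 1, hu 4⟩,
        den_opN' (hu 4) (hu 2) (hu 3)⟩)
    rw [ext_vec4] at hb
    rw [mem_cs hy, mem_cs hz]
    exact ha b y z hb.1 hb.2
  · intro ha b y z hb hyz
    obtain ⟨⟨⟨n', c, d⟩, hcd⟩, -, h1, h2⟩ := (den_relN hh m b).1 hb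
    obtain ⟨y', z', hy', hz', hyz'⟩ := den_opN h2
    obtain ⟨rfl, rfl⟩ := hyz.inj hyz'
    have : n = n' := by exact_mod_cast onN_inj hm h1
    subst this
    rw [← mem_cs hy', ← mem_cs hz']
    exact ha c d hcd

theorem inMg_iff {H : MCode} {w h x : g.M} (hw : g.Den (onN P ω) w)
    (hh : g.Den (HN P H) h) : InMg g.E w h x ↔ InM H (cs g x) := by
  constructor
  · rintro ⟨m, hmw, hm⟩
    obtain ⟨β, hβ, hb⟩ := (den_onN hw m).1 hmw
    obtain ⟨n, rfl⟩ := lt_omega0.1 hβ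
    exact ⟨n, (avd_iff hw hh hb).1 hm⟩
  · rintro ⟨n, hn⟩
    obtain ⟨m, hm⟩ := exists_den_nat hw n
    exact ⟨m, (den_onN hw m).2 ⟨_, natCast_lt_omega0 n, hm⟩, (avd_iff hw hh hm).2 hn⟩

/-! ### Ground model reals -/

/-- the name of a set of rationals -/
noncomputable def gN (P : Type) [PartialOrder P] [OrderTop P] (X : Set ℚ) : Name P :=
  .mk X (fun q => qN P q.1) (fun _ => ⊤)

theorem gN_spec {w x : g.M} (hw : g.Den (onN P ω) w) {X : Set ℚ} (hx : g.Den (gN P X) x) :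
    IsSub g.E x w ∧ cs g x = X := by
  constructor
  · intro z hz
    obtain ⟨q, -, hq⟩ := (Gen.mem_iff hx).1 hz
    exact qN_mem hw hq
  · ext q
    constructor
    · rintro ⟨b, hb, hbx⟩
      obtain ⟨⟨q', hq'⟩, -, hq⟩ := (Gen.mem_iff hx).1 hbx
      rw [qN_inj hb hq]
      exact hq'
    · intro hq
      obtain ⟨b, hb⟩ := exists_qN hw q
      exact ⟨b, hb, (Gen.mem_iff hx).2 ⟨⟨q, hq⟩, g.top_mem, hb⟩⟩

end

end Pool.Agent.H90.Frc
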