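import Pool.Agent.H90.Frc.Rats
import Pool.Agent.H90.Frc.Cards

/-!
# Continuous reading of names of reals
-/

set_option autoImplicit false

namespace Pool.Agent.H90.Frc

open Ordinal Cardinal

/-! ### Blocks and the number of countable sequences in `λ` -/

theorem mk_lam : #Lam = ℶ_ (ω_ 1) := mk_ord_toType _

theorem exists_blk (ξ : Lam) : ∃ i : Ix, (ξ.toOrd : Ordinal.{0}).card < kap i :=
  exists_kap_of_lt (lt_ord.1 ξ.toOrd.2)

/-- the block of an element of `λ` -/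
noncomputable def blk (ξ : Lam) : Ix := (exists_blk ξ).choose

theorem blk_spec (ξ : Lam) : (ξ.toOrd : Ordinal.{0}).card < kap (blk ξ) := (exists_blk ξ).choose_spec

theorem mk_blk_le (i : Ix) : #{ξ : Lam | blk ξ ≤ i} ≤ kap i := by
  have h1 : #{ξ : Lam | blk ξ ≤ i} ≤ #(kap i).ord.ToType := by
    refine Cardinal.mk_le_of_injective (f := fun ξ => ToType.mk ⟨(ξ.1.toOrd : Ordinal.{0}),
      lt_ord.2 ((blk_spec ξ.1).trans_le (kap_mono ξ.2))⟩) ?_
    intro ξ η h
    have h2 := ToType.mk.injective h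
    have h3 : (ξ.1.toOrd : Ordinal.{0}) = η.1.toOrd :=
      congrArg (fun z : Set.Iio (kap i).ord => (z : Ordinal.{0})) h2
    exact Subtype.ext (toOrd_inj h3)
  rwa [mk_ord_toType] at h1

theorem lam_pos : ℵ₀ ≤ #Lam := by
  rw [mk_lam]; exact aleph0_le_beth _

theorem mk_fun_lam : #(ℕ → Lam) ≤ #Lam := by
  have h1 : ∀ f : ℕ → Lam, ∃ i : Ix, ∀ n, blk (f n) ≤ i := by
    intro f
    obtain ⟨i, hi⟩ := exists_gt_all (fun n => blk (f n))
    exact ⟨i, fun n => (hi n).le⟩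
  choose b hb using h1
  have h2 : #(ℕ → Lam) ≤ #(Σ i : Ix, (ℕ → {ξ : Lam | blk ξ ≤ i})) := by
    refine Cardinal.mk_le_of_injective (f := fun f => ⟨b f, fun n => ⟨f n, hb f n⟩⟩) ?_
    intro f f' h
    simp only [Sigma.mk.injEq] at h
    obtain ⟨h3, h4⟩ := h
    have key : ∀ (i i' : Ix) (hi : i = i') (u : ℕ → {ξ : Lam | blk ξ ≤ i})
        (u' : ℕ → {ξ : Lam | blk ξ ≤ i'}), HEq u u' → ∀ n, (u n : Lam) = u' n := by
      rintro i _ rfl u u' hu n
      rw [eq_of_heq hu]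
    funext n
    exact key _ _ h3 _ _ h4 n
  refine h2.trans ?_
  rw [Cardinal.mk_sigma]
  refine (Cardinal.sum_le_mk_mul_iSup _).trans ?_
  have h3 : ∀ i : Ix, #(ℕ → {ξ : Lam | blk ξ ≤ i}) ≤ #Lam := by
    intro i
    rw [← Cardinal.power_def, mk_nat, mk_lam]
    refine (power_le_power_right ((mk_blk_le i).trans (kap_lt i).le)).trans ?_
    rw [tk_power_aleph0]
    exact (tk_lt_lam i).le
  refine (mul_le_mul' ?_ (ciSup_le' h3)).trans (mul_eq_self lam_pos).le
  rw [mk_ix, mk_lam]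
  obtain ⟨i, -⟩ := exists_gt_all (fun _ => ToType.mk ⟨0, omega_pos 1⟩)
  exact (aleph1_le_tk i).trans (tk_lt_lam i).le

/-! ### Reading codes -/

/-- reading codes: for each rational finitely many positions and a decision table -/
abbrev RCode : Type := ℚ → Finset Pos × Finset (Finset Pos)

instance : Infinite Lam := Cardinal.infinite_iff.2 lam_pos

theorem mk_rcode_le : #RCode ≤ #Lam := by
  have h1 : #Pos = #Lam := by
    rw [Cardinal.mk_prod, Cardinal.lift_id, Cardinal.lift_id, mk_nat]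
    exact mul_aleph0_eq lam_pos
  have h2 : #(Finset Pos) = #Lam := by rw [mk_finset_of_infinite, h1]
  have h3 : #(Finset (Finset Pos)) = #Lam := by rw [mk_finset_of_infinite, h2]
  have h4 : #(Finset Pos × Finset (Finset Pos)) = #Lam := by
    rw [Cardinal.mk_prod, Cardinal.lift_id, Cardinal.lift_id, h2, h3, mul_eq_self lam_pos]
  have h5 : #RCode = #(ℕ → Lam) := by
    rw [← Cardinal.power_def, ← Cardinal.power_def, h4]
    simp
  rw [h5]
  exact mk_fun_lam

theorem exists_code : ∃ f : Lam → RCode, Function.Surjective f := by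
  obtain ⟨e⟩ := mk_rcode_le
  exact ⟨Function.invFun e, Function.invFun_surjective e.injective⟩

/-- an enumeration of the reading codes -/
noncomputable def code : Lam → RCode := exists_code.choose

theorem code_surj : Function.Surjective code := exists_code.choose_spec

/-- the condition decides, according to the reading code, that `a` is a member -/
def Rd (κ : RCode) (a : ℚ) (p : Cond) : Prop :=
  (∀ x ∈ (κ a).1, p.s x ≠ none) ∧ (κ a).1.filter (fun x => p.s x = some true) ∈ (κ a).2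

/-- the name of the set of rationals read by the `ξ`-th code -/
noncomputable def eN (ξ : Lam) : Name Cond :=
  .mk {z : ℚ × Cond // Rd (code ξ) z.1 z.2} (fun z => qN Cond z.1.1) (fun z => z.1.2)

variable {g : Gen Cond}

theorem eN_sub {w y : g.M} {ξ : Lam} (hw : g.Den (onN Cond ω) w) (hy : g.Den (eN ξ) y) :
    IsSub g.E y w := by
  intro z hz
  obtain ⟨i, -, hq⟩ := (Gen.mem_iff hy).1 hz
  exact qN_mem hw hq

theorem exists_read (p : Cond) (ζ : Name Cond) : ∃ q ≤ p, ∃ ξ : Lam, ∀ a : ℚ,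
    Fc q ![qN Cond a, ζ, eN ξ] (fun _ E v => E (v 0) (v 1) ↔ E (v 0) (v 2)) := by
  classical
  have hmem : Dfn (n := 2) (fun _ E v => E (v 0) (v 1)) := .mem 0 1
  obtain ⟨q, hq, hS⟩ := fusion
    (S := fun k F q => ∃ T : Finset (Finset Pos), ∀ t ⊆ F,
      (t ∈ T → Fc (q.ex F t) ![qN Cond (ratE k), ζ] (fun _ E v => E (v 0) (v 1))) ∧
      (t ∉ T → Fc (q.ex F t) ![qN Cond (ratE k), ζ] (fun _ E v => ¬ E (v 0) (v 1))))
    (by
      rintro k F q q' ⟨T, hT⟩ hle -
      exact ⟨T, fun t ht => ⟨fun h => ((hT t ht).1 h).mono (ex_mono F t hle),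
        fun h => ((hT t ht).2 h).mono (ex_mono F t hle)⟩⟩)
    (by
      intro k F q hqp hq
      obtain ⟨q', hq', hfree, h⟩ := exists_all_ex
        (A := fun t r => Fc r ![qN Cond (ratE k), ζ] (fun _ E v => E (v 0) (v 1)) ∨
          Fc r ![qN Cond (ratE k), ζ] (fun _ E v => ¬ E (v 0) (v 1)))
        (by
          rintro t r r' (h | h) hr
          · exact Or.inl (h.mono hr)
          · exact Or.inr (h.mono hr))
        (fun t r _ => Fc.decide hmem _ r) hqp hq
      refine ⟨q', hq', hfree, F.powerset.filter (fun t =>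
        Fc (q'.ex F t) ![qN Cond (ratE k), ζ] (fun _ E v => E (v 0) (v 1))), fun t ht => ?_⟩
      constructor
      · intro h1
        exact (Finset.mem_filter.1 h1).2
      · intro h1
        rcases h t ht with h2 | h2
        · exact absurd (Finset.mem_filter.2 ⟨Finset.mem_powerset.2 ht, h2⟩) h1
        · exact h2)
  choose F hfree T hT using hS
  obtain ⟨ξ, hξ⟩ := code_surj (fun a => (F (ratE.symm a), T (ratE.symm a)))
  refine ⟨q, hq, ξ, fun a => ?_⟩
  have hcode : code ξ a = (F (ratE.symm a), T (ratE.symm a)) := by rw [hξ]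
  have hT' := hT (ratE.symm a)
  rw [Equiv.apply_symm_apply] at hT'
  refine Fc.stable ((Dfn.mem 0 1).iff (.mem 0 2)) fun r hr => ?_
  obtain ⟨t, ht, r', hr', hr''⟩ := exists_ex_le (F (ratE.symm a)) hr
  refine ⟨r', hr', ?_⟩
  have hval : ∀ x ∈ F (ratE.symm a), r'.s x = some (decide (x ∈ t)) := fun x hx =>
    hr''.2 x _ (ex_s_of_mem hx)
  have hfilter : ∀ p' : Cond, (∀ x ∈ F (ratE.symm a), p'.s x = some (decide (x ∈ t))) →
      (F (ratE.symm a)).filter (fun x => p'.s x = some true) = t := by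
    intro p' hp'
    ext x
    rw [Finset.mem_filter]
    constructor
    · rintro ⟨h1, h2⟩
      rw [hp' x h1] at h2
      simpa using h2
    · intro hx
      refine ⟨ht hx, ?_⟩
      rw [hp' x (ht hx)]
      simpa using hx
  intro g' hg' u hu
  have h0 : g'.Den (qN Cond a) (u 0) := hu 0
  have h1 : g'.Den ζ (u 1) := hu 1
  have h2 : g'.Den (eN ξ) (u 2) := hu 2
  by_cases htT : t ∈ T (ratE.symm a)
  · have h3 : g'.E (u 0) (u 1) := (hT' t ht).1 htT g' (g'.up _ hg' _ hr'') ![u 0, u 1] (den2 h0 h1)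
    have h4 : g'.E (u 0) (u 2) := by
      refine (Gen.mem_iff h2).2 ⟨⟨(a, r'), ?_, ?_⟩, hg', h0⟩
      · intro x hx
        rw [hcode] at hx
        rw [hval x hx]
        simp
      · rw [hcode]
        dsimp only
        rw [hfilter r' hval]
        exact htT
    exact iff_of_true h3 h4
  · have h3 : ¬ g'.E (u 0) (u 1) :=
      (hT' t ht).2 htT g' (g'.up _ hg' _ hr'') ![u 0, u 1] (den2 h0 h1)
    have h4 : ¬ g'.E (u 0) (u 2) := by
      intro h
      obtain ⟨⟨⟨a', p'⟩, hRd⟩, hp', h5⟩ := (Gen.mem_iff h2).1 h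
      have : a = a' := qN_inj h0 h5
      subst this
      obtain ⟨r3, -, h6, h7⟩ := g'.dir r' hg' p' hp'
      obtain ⟨hRd1, hRd2⟩ := hRd
      rw [hcode] at hRd1 hRd2
      dsimp only at hRd1 hRd2
      have hval' : ∀ x ∈ F (ratE.symm a), p'.s x = some (decide (x ∈ t)) := by
        intro x hx
        obtain ⟨b, hb⟩ := Option.ne_none_iff_exists'.1 (hRd1 x hx)
        have e1 := h7.2 x b hb
        have e2 := h6.2 x _ (hval x hx)
        rw [e1] at e2
        rw [hb, e2]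
      rw [hfilter p' hval'] at hRd2
      exact htT hRd2
    exact iff_of_false h3 h4

/-- the name of the set of all sets read by a code -/
noncomputable def allN : Name Cond := .mk Lam eN (fun _ => ⊤)

/-- the name of the set of reals -/
noncomputable def rN : Name Cond :=
  sepN allN (fun ξ r => Fc r ![onN Cond ω, ltN Cond, eN ξ] (fun _ E v => IsCut E (v 0) (v 1) (v 2)))

theorem rN_cut {w l R x : g.M} (hw : g.Den (onN Cond ω) w) (hl : g.Den (ltN Cond) l)
    (hR : g.Den rN R) (hx : g.E x R) : IsCut g.E w l x ∧ ∃ ξ, g.Den (eN ξ) x := by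
  obtain ⟨ξ, r, hr, -, h1, h2⟩ := (den_sepN hR x).1 hx
  exact ⟨h1 g hr ![w, l, x] (den3 hw hl h2), ξ, h2⟩

theorem isReals_rN {w l R : g.M} (hw : g.Den (onN Cond ω) w) (hl : g.Den (ltN Cond) l)
    (hR : g.Den rN R) : IsReals g.E w l R := by
  intro x
  refine ⟨fun hx => (rN_cut hw hl hR hx).1, fun hx => ?_⟩
  obtain ⟨ζ, hζ⟩ := g.exists_den x
  refine Gen.tp (v := ![onN Cond ω, ltN Cond, rN, ζ]) (a := ![w, l, R, x]) (den4 hw hl hR hζ)
    (R := fun _ E v => IsCut E (v 0) (v 1) (v 3)) (S := fun _ E v => E (v 3) (v 2))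
    (dfn_isCut 0 1 3) (.mem 3 2) (fun p hp => ?_) hx
  obtain ⟨q, hq, ξ, hξ⟩ := exists_read p ζ
  refine ⟨q, hq, {eN ξ, onN Cond ω, ltN Cond, ζ, rN}, by simp, ?_⟩
  have key : ∀ g' : Gen Cond, q ∈ g'.G → ∀ w l z y : g'.M, g'.Den (onN Cond ω) w →
      g'.Den (ltN Cond) l → g'.Den ζ z → g'.Den (eN ξ) y → (∃ R, g'.Den rN R) → z = y := by
    rintro g' hg' w l z y hw hl hz hy ⟨R, hR⟩
    have hcut : IsCut g'.E w l z :=
      hp g' (g'.up q hg' p hq) ![w, l, R, z] (den4 hw hl hR hz)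
    refine cs_ext hw hcut.1 (eN_sub hw hy) ?_
    ext a
    obtain ⟨b, hb⟩ := exists_qN hw a
    rw [mem_cs hb, mem_cs hb]
    exact hξ a g' hg' ![b, z, y] (den3 hb hz hy)
  intro g' hg' hL u hu hcut
  obtain ⟨y, hy⟩ := hL (eN ξ) (by simp)
  have h0 : g'.Den (onN Cond ω) (u 0) := hu 0
  have h1 : g'.Den (ltN Cond) (u 1) := hu 1
  have h2 : g'.Den rN (u 2) := hu 2
  have h3 : g'.Den ζ (u 3) := hu 3
  have h4 : u 3 = y := key g' hg' _ _ _ _ h0 h1 h3 hy ⟨_, h2⟩
  rw [h4]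
  refine (den_sepN h2 y).2 ⟨ξ, q, hg', le_top, ?_, hy⟩
  refine Fc.with_names (dfn_isCut 0 1 2) (L := {ζ, rN}) (by simp) ?_
  intro g3 hg3 hL3 u3 hu3
  obtain ⟨z, hz⟩ := hL3 ζ (by simp)
  obtain ⟨R3, hR3⟩ := hL3 rN (by simp)
  have e0 : g3.Den (onN Cond ω) (u3 0) := hu3 0
  have e1 : g3.Den (ltN Cond) (u3 1) := hu3 1
  have e2 : g3.Den (eN ξ) (u3 2) := hu3 2
  have e3 : z = u3 2 := key g3 hg3 _ _ _ _ e0 e1 hz e2 ⟨_, hR3⟩
  rw [← e3]
  exact hp g3 (g3.up q hg3 p hq) ![u3 0, u3 1, R3, z] (den4 e0 e1 hR3 hz)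

/-- the name of the enumeration of the reals -/
noncomputable def eRel : Name Cond :=
  relN (fun ξ : Lam => onN Cond ξ.toOrd.1) eN (fun _ => ⊤)

theorem sizeLe_reals {w l R L : g.M} (hw : g.Den (onN Cond ω) w) (hl : g.Den (ltN Cond) l)
    (hR : g.Den rN R) (hL : g.Den (onN Cond (ℶ_ (ω_ 1)).ord) L) : SizeLe g.E R L := by
  refine Gen.tn (v := ![onN Cond ω, ltN Cond, rN, onN Cond (ℶ_ (ω_ 1)).ord]) (a := ![w, l, R, L])
    (den4 hw hl hR hL) Dfn.true (dfn_sizeLe 2 3) (L := {eRel}) (Set.countable_singleton _) ?_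
    trivial
  intro g' hL u hu _
  obtain ⟨F, hF⟩ := hL _ rfl
  have h0 : g'.Den (onN Cond ω) (u 0) := hu 0
  have h1 : g'.Den (ltN Cond) (u 1) := hu 1
  have h2 : g'.Den rN (u 2) := hu 2
  have h3 : g'.Den (onN Cond (ℶ_ (ω_ 1)).ord) (u 3) := hu 3
  have hRel := fun x y => den_relN hF x y
  refine g'.zfc.sizeLe_of_surj g'.wf_E (F := F) (onN_total h3) (onN_trans h3) ?_ ?_
  · intro x y y' _ _ _ h4 h5
    obtain ⟨ξ, -, h6, h7⟩ := (hRel x y).1 h4
    obtain ⟨η, -, h8, h9⟩ := (hRel x y').1 h5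
    have : ξ = η := toOrd_inj (onN_inj h6 h8)
    subst this
    exact h7.unique h9
  · intro y hy
    obtain ⟨-, ξ, hξ⟩ := rN_cut h0 h1 h2 hy
    obtain ⟨x, hx⟩ := relN_exists' hF (i := ξ) g'.top_mem hξ
    obtain ⟨η, -, h8, -⟩ := (hRel x y).1 hx
    exact ⟨x, (den_onN h3 x).2 ⟨_, η.toOrd.2, h8⟩, hx⟩

end Pool.Agent.H90.Frc
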